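import Pool.Agent.Helper57_MWX.GBF

/-!
# The two letter base of the LR world (block MWX)

`h1n`, `h1dn`: `x y x t y ≈ x^(n+1) y x^(n+1) t y` and the mirror image, all periods;
`hbs1 : Helper61_MWD.HbS 1`.
-/

set_option autoImplicit false

namespace Pool.Agent.MWX

open Pool.Agent.Helper14_MV Pool.Agent.Helper2_MV Pool.Agent.Helper79_MWD

variable {β : FIC} {n : ℕ}

/-- `x²Tx ≈ x²Tx^(n+1)` in all contexts -/
theorem r_ctx (H : LL n β) (i : ℕ) (T : List ℕ) :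
    RR β (Z (i + 2) ++ (T ++ Z 1)) (Z (i + 2) ++ (T ++ Z (n + 1))) := by
  have h0 : RR β (Z 2 ++ 2 :: Z 1) (Z 2 ++ 2 :: Z (n + 1)) := H.r
  have h1 := rr_left (Z i) (sub_t T h0)
  have e : ∀ L : List ℕ, Z i ++ (Z 2 ++ L) = Z (i + 2) ++ L := by
    intro L
    rw [z_add i 2, List.append_assoc]
  rw [e, e] at h1
  exact h1

/-- `x y x t y ≈ x^(n+1) y x^(n+1) t y` -/
theorem h1n (H : LL n β) : RR β (V 1 1 0 0) (V (n + 1) (n + 1) 0 0) := by
  obtain ⟨m, rfl⟩ : ∃ m, n = m + 1 := ⟨n - 1, by have := H.pos; omega⟩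
  have h1 := rr_right [2, 1] (r_ctx H m [1])
  have e : ∀ j, Z (m + 2) ++ ([1] ++ Z j) ++ [2, 1] = V (m + 1 + 1) j 0 0 := by
    intro j
    unfold V
    simp
  rw [e, e] at h1
  exact RR.tr (ga H) h1

/-- `y t x y x ≈ y t x^(n+1) y x^(n+1)` -/
theorem h1dn (H : LL n β) : RR β (V 0 0 1 1) (V 0 0 (n + 1) (n + 1)) := by
  obtain ⟨m, rfl⟩ : ∃ m, n = m + 1 := ⟨n - 1, by have := H.pos; omega⟩
  have h1 := rr_left [1, 2] (r_ctx H m [1])
  have e : ∀ j, [1, 2] ++ (Z (m + 2) ++ ([1] ++ Z j)) = V 0 0 (m + 1 + 1) j := by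
    intro j
    unfold V
    simp
  rw [e, e] at h1
  exact RR.tr (gb H) h1

/-- the finite list for `n = 1` -/
theorem bl_of (H : LL 1 β) : BL β where
  ap := H.per
  rr := H.r
  lx := H.lx.sub (fun c => if c = 3 then [1] else [c])
  rx := H.rx.sub (fun c => if c = 3 then [1] else [c])
  h1 := h1n H
  h1d := h1dn H

/-- **HbS for `n = 1`** -/
theorem hbs1 : Helper61_MWD.HbS 1 := fun _ hw =>
  Pool.Agent.MWZ.H65.hbp_of_hb (hb (bl_of (ll_of hw)))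

end Pool.Agent.MWX
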