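import Pool.Agent.Helper57_MWX.HBn
import Pool.Agent.Helper61_MWD.DispR

/-!
# The two letter base of the LR world, all periods (block MWX)

`hbr : Helper61_MWD.HbR n`: from `LRW n` and the two residue crossings `HBP n` follows.
-/

set_option autoImplicit false

namespace Pool.Agent.MWX

open Pool.Agent.Helper14_MV Pool.Agent.Helper2_MV Pool.Agent.MVO Pool.Agent.MWL Pool.Agent.MWS
  Pool.Agent.MWF Pool.Agent.MWN Pool.Agent.MWNP

variable {β : FIC} {n : ℕ}

/-- `LL n` with the two crossings -/
structure LC (n : ℕ) (β : FIC) : Prop where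
  ll : LL n β
  rc : RR β (V 3 1 0 0) (V 2 2 0 0)
  rc' : RR β (V 0 0 1 3) (V 0 0 2 2)

/-- a word with one occurrence of `y`, not at an end -/
theorem one_mid {x y : ℕ} (hxy : x ≠ y) {w : List ℕ} (hw : ∀ c ∈ w, c = x ∨ c = y)
    (h1 : w.count y = 1) (s1 : List.Sublist [y, x] w) (s2 : List.Sublist [x, y] w) :
    ∃ p q, w = List.replicate (p + 1) x ++ y :: List.replicate (q + 1) x ∧
      w.count x = p + q + 2 := by
  have hy : y ∈ w := List.count_pos_iff.1 (by omega)
  obtain ⟨p, v, e⟩ := first_bd w hw hy
  have hv : ∀ c ∈ v, c = x ∨ c = y := fun c hc => hw c (by rw [e]; simp [hc])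
  have hyv : y ∉ v := by
    rw [← List.count_eq_zero]
    rw [e, List.count_append, List.count_cons_self] at h1
    omega
  have ev := eq_rep (fun c hc => (hv c hc).symm) hyv
  rw [ev] at e
  have hp : p ≠ 0 := by
    rintro rfl
    apply not_sub_sorted hxy.symm 1 v.length
    have e2 : List.replicate 1 y ++ List.replicate v.length x = w := by rw [e]; rfl
    rw [e2]
    exact s2
  have hq : v.length ≠ 0 := by
    intro h0
    apply not_sub_sorted hxy p 1
    have e2 : List.replicate p x ++ List.replicate 1 y = w := by rw [e, h0]; rfl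
    rw [e2]
    exact s1
  refine ⟨p - 1, v.length - 1, ?_, ?_⟩
  · have f1 : p - 1 + 1 = p := by omega
    have f2 : v.length - 1 + 1 = v.length := by omega
    rw [f1, f2]
    exact e
  · have h2 := congrArg (List.count x) e
    rw [List.count_append, List.count_cons_of_ne hxy.symm, List.count_replicate_self,
      List.count_replicate_self] at h2
    omega

theorem one_block_n (H : LC n β) {P S w w' : List ℕ}
    (hw : ∀ c ∈ w, c = 0 ∨ c = 1) (hw' : ∀ c ∈ w', c = 0 ∨ c = 1)
    (h0 : Eqn n (w.count 0) (w'.count 0)) (h1 : Eqn n (w.count 1) (w'.count 1))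
    (g0 : w.count 0 = 1 → 0 ∈ P ∨ 0 ∈ S) (g1 : w.count 1 = 1 → 1 ∈ P ∨ 1 ∈ S)
    (f0 : Fst false w ↔ Fst false w') (f1 : Fst true w ↔ Fst true w') : QQ β P S w w' := by
  have n01 : (0 : ℕ) ≠ 1 := by decide
  by_cases c0 : Fst false w
  · have c0' := f0.1 c0
    have e := sorted_of n01 w hw (by simpa [Fst] using c0)
    have e' := sorted_of n01 w' hw' (by simpa [Fst] using c0')
    rw [e, e']
    exact QQ.of (cap_xyn H.ll h0 h1)
  by_cases c1 : Fst true w
  · have c1' := f1.1 c1
    have e := sorted_of n01.symm w (fun c hc => (hw c hc).symm) (by simpa [Fst] using c1)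
    have e' := sorted_of n01.symm w' (fun c hc => (hw' c hc).symm) (by simpa [Fst] using c1')
    rw [e, e']
    exact QQ.of (cap_xyn H.ll h1 h0)
  have c0' : ¬ Fst false w' := fun h => c0 (f0.2 h)
  have c1' : ¬ Fst true w' := fun h => c1 (f1.2 h)
  have s1 : List.Sublist [1, 0] w := by
    by_contra h
    exact c0 (by simpa [Fst] using h)
  have s2 : List.Sublist [0, 1] w := by
    by_contra h
    exact c1 (by simpa [Fst] using h)
  have s1' : List.Sublist [1, 0] w' := by
    by_contra h
    exact c0' (by simpa [Fst] using h)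
  have s2' : List.Sublist [0, 1] w' := by
    by_contra h
    exact c1' (by simpa [Fst] using h)
  have p0 : 1 ≤ w.count 0 := List.one_le_count_iff.2 (s1.subset (by simp))
  have p1 : 1 ≤ w.count 1 := List.one_le_count_iff.2 (s1.subset (by simp))
  rcases Nat.lt_or_ge (w.count 1) 2 with k1 | k1
  · -- one occurrence of `1`
    have e1 : w.count 1 = 1 := by omega
    have e1' : w'.count 1 = 1 := by unfold Eqn at h1; omega
    obtain ⟨p, q, ew, cw⟩ := one_mid n01 hw e1 s1 s2
    obtain ⟨p', q', ew', cw'⟩ := one_mid n01 hw' e1' s1' s2'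
    rw [ew, ew']
    apply mid_n H.ll H.rc H.rc' (g1 e1)
    rcases h0 with h0 | ⟨_, _, h0⟩
    · have : p + q = p' + q' := by omega
      rw [this]
    · rw [cw, cw'] at h0
      exact Nat.ModEq.add_right_cancel' 2 h0
  · have k1' : 2 ≤ w'.count 1 := by unfold Eqn at h1; omega
    have m1 : w.count 1 ≡ w'.count 1 [MOD n] := by
      rcases h1 with h1 | ⟨_, _, h1⟩
      · rw [h1]
      · exact h1
    rcases Nat.lt_or_ge (w.count 0) 2 with k0 | k0
    · have e0 : w.count 0 = 1 := by omega
      have e0' : w'.count 0 = 1 := by unfold Eqn at h0; omega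
      obtain ⟨p, q, ew, cw⟩ := one_mid n01.symm (fun c hc => (hw c hc).symm) e0 s2 s1
      obtain ⟨p', q', ew', cw'⟩ := one_mid n01.symm (fun c hc => (hw' c hc).symm) e0' s2' s1'
      rw [ew, ew']
      apply mid_n H.ll H.rc H.rc' (g0 e0)
      rw [cw, cw'] at m1
      exact Nat.ModEq.add_right_cancel' 2 m1
    · have k0' : 2 ≤ w'.count 0 := by unfold Eqn at h0; omega
      have m0 : w.count 0 ≡ w'.count 0 [MOD n] := by
        rcases h0 with h0 | ⟨_, _, h0⟩
        · rw [h0]
        · exact h0
      exact heavy2 H.ll hw hw' s1 s2 s1' s2' k0 k1 k0' k1' m0 m1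

/-- a block without one of the letters -/
theorem pure_block_n (H : LL n β) {P S w w' : List ℕ}
    (hw : ∀ c ∈ w, c = 0 ∨ c = 1) (hw' : ∀ c ∈ w', c = 0 ∨ c = 1)
    (h0 : Eqn n (w.count 0) (w'.count 0)) (h1 : Eqn n (w.count 1) (w'.count 1))
    (hn : 0 ∉ w ∨ 1 ∉ w) : QQ β P S w w' := by
  have n01 : (0 : ℕ) ≠ 1 := by decide
  have z : ∀ c : ℕ, Eqn n (w.count c) (w'.count c) → c ∉ w → c ∉ w' := by
    intro c hc hcw
    have : w.count c = 0 := List.count_eq_zero.2 hcw
    apply List.count_eq_zero.1
    unfold Eqn at hc; omega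
  have e : w = List.replicate (w.count 0) 0 ++ List.replicate (w.count 1) 1 := by
    apply sorted_of n01 w hw
    intro h
    rcases hn with hn | hn
    · exact hn (h.subset (by simp))
    · exact hn (h.subset (by simp))
  have e' : w' = List.replicate (w'.count 0) 0 ++ List.replicate (w'.count 1) 1 := by
    apply sorted_of n01 w' hw'
    intro h
    rcases hn with hn | hn
    · exact z 0 h0 hn (h.subset (by simp))
    · exact z 1 h1 hn (h.subset (by simp))
  rw [e, e']
  exact QQ.of (cap_xyn H h0 h1)

theorem shn_mem {k : ℕ} {U V : ℕ → List ℕ} {c : ℕ} (h : Shn n k (ty U c) (ty V c)) {j : ℕ}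
    (hj : j ≤ k) : c ∈ U j ↔ c ∈ V j := by
  have := h j hj
  unfold ty at this
  rw [← List.count_pos_iff, ← List.count_pos_iff]
  omega

theorem hst_n (H : LC n β) : HstP n β := by
  intro k U V hU hV tU tV s0 s1 hst
  have n01 : (0 : ℕ) ≠ 1 := by decide
  have key : ∀ m ≤ k + 1, RR β (asm k U) (asm k (mixB m U V)) := by
    intro m
    induction m with
    | zero =>
      intro _
      have : asm k (mixB 0 U V) = asm k U := asm_congr (fun j _ => by simp [mixB])
      rw [this]; exact RR.refl _
    | succ m ih =>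
      intro hm
      have hmk : m ≤ k := by omega
      refine RR.tr (ih (by omega)) ?_
      obtain ⟨e1, e2⟩ := mix_step k m hmk U V
      rw [e1, e2]
      set B := mixB m U V with hB
      have hBm : ∀ c, c = 0 ∨ c = 1 → ∀ j ≤ k, (c ∈ B j ↔ c ∈ U j) := by
        intro c hc j hj
        by_cases h : j < m
        · have : B j = V j := by simp [hB, mixB, h]
          rw [this]
          rcases hc with rfl | rfl
          · exact (shn_mem s0 hj).symm
          · exact (shn_mem s1 hj).symm
        · have : B j = U j := by simp [hB, mixB, h]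
          rw [this]
      have hBt : ∀ j ≤ k, ∀ c ∈ B j, c = 0 ∨ c = 1 := by
        intro j hj c hc
        by_cases h : j < m
        · have : B j = V j := by simp [hB, mixB, h]
          rw [this] at hc; exact tV j hj c hc
        · have : B j = U j := by simp [hB, mixB, h]
          rw [this] at hc; exact tU j hj c hc
      have hw := tU m hmk
      have hw' := tV m hmk
      have e0 : Eqn n ((U m).count 0) ((V m).count 0) := s0 m hmk
      have e1' : Eqn n ((U m).count 1) ((V m).count 1) := s1 m hmk
      change QQ β (pre B m) (suf B m (k - m)) (U m) (V m)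
      by_cases hc : 0 ∉ U m ∨ 1 ∉ U m
      · exact pure_block_n H.ll hw hw' e0 e1' hc
      push Not at hc
      by_cases ho : ∀ j ≤ k, j ≠ m → 0 ∉ U j ∨ 1 ∉ U j
      · -- the only common block
        obtain ⟨f0, f1⟩ := hst m hmk ho
        have mul : ∀ c, c = 0 ∨ c = 1 → c ∈ U m → (U m).count c = 1 →
            c ∈ pre B m ∨ c ∈ suf B m (k - m) := by
          intro c hc01 hcU hc1
          have hm' := hU.ml m hmk c hcU
          by_contra hcon
          push Not at hcon
          have : ∀ j ≤ k, j ≠ m → (U j).count c = 0 := by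
            intro j hj hjn
            rw [List.count_eq_zero]
            intro hcj
            have hcB : c ∈ B j := (hBm c hc01 j hj).2 hcj
            rcases Nat.lt_or_gt_of_ne hjn with h | h
            · exact hcon.1 (mem_pre.2 (Or.inr ⟨j, h, hcB⟩))
            · exact hcon.2 (mem_suf.2 (Or.inr ⟨j, h, by omega, hcB⟩))
          have hs : deg k (fun j => (U j).count c) = (U m).count c := by
            unfold deg
            rw [Finset.sum_eq_single m]
            · intro j hj hjn
              exact this j (by have := Finset.mem_range.1 hj; omega) hjn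
            · intro h
              exact absurd (Finset.mem_range.2 (by omega)) h
          rw [hs] at hm'
          omega
        exact one_block_n H hw hw' e0 e1' (fun h => mul 0 (Or.inl rfl) hc.1 h)
          (fun h => mul 1 (Or.inr rfl) hc.2 h) f0 f1
      · -- another common block
        push Not at ho
        obtain ⟨j, hj, hjn, hj0, hj1⟩ := ho
        have g0 := (hBm 0 (Or.inl rfl) j hj).2 hj0
        have g1 := (hBm 1 (Or.inr rfl) j hj).2 hj1
        have hp := adj_pair n01 (B j) (hBt j hj) g0 g1
        have hctx : (∃ A C, pre B m = A ++ 0 :: 1 :: C) ∨ (∃ A C, pre B m = A ++ 1 :: 0 :: C) ∨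
            (∃ A C, suf B m (k - m) = A ++ 0 :: 1 :: C) ∨
            (∃ A C, suf B m (k - m) = A ++ 1 :: 0 :: C) := by
          rcases Nat.lt_or_gt_of_ne hjn with h | h
          · obtain ⟨R, hR⟩ := pre_split (B := B) h
            rcases hp with ⟨A, C, hAC⟩ | ⟨A, C, hAC⟩
            · exact Or.inl ⟨pre B j ++ A, C ++ R, by rw [hR, hAC]; simp⟩
            · exact Or.inr (Or.inl ⟨pre B j ++ A, C ++ R, by rw [hR, hAC]; simp⟩)
          · obtain ⟨R, R', hR⟩ := suf_split (B := B) (i := m) (j := j) (r := k - m) h (by omega)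
            rcases hp with ⟨A, C, hAC⟩ | ⟨A, C, hAC⟩
            · exact Or.inr (Or.inr (Or.inl ⟨R ++ A, C ++ R', by rw [hR, hAC]; simp⟩))
            · exact Or.inr (Or.inr (Or.inr ⟨R ++ A, C ++ R', by rw [hR, hAC]; simp⟩))
        have hs : ∀ u v, QQ β (pre B m) (suf B m (k - m)) (u ++ 0 :: 1 :: v)
            (u ++ 1 :: 0 :: v) := fun u v => swap_n H.ll hctx u v
        have q1 := sort_ctx n01 hs (U m) hw []
        have q2 := sort_ctx n01 hs (V m) hw' []
        exact (QQ.tr q1 (QQ.of (cap_xyn H.ll e0 e1'))).tr q2.sy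
  have h := key (k + 1) (le_refl _)
  have e : asm k (mixB (k + 1) U V) = asm k V :=
    asm_congr (fun j hj => by simp only [mixB]; rw [if_pos (by omega)])
  rw [e] at h
  exact h

/-- **HBP** for all periods -/
theorem hbpn (H : LC n β) : HBP n β := by
  refine ⟨H.ll.pos, ?_, ?_, hst_n H⟩
  · exact H.ll.per
  · exact H.ll.r

/-- **HbR** for all periods -/
theorem hbr (n : ℕ) : Helper61_MWD.HbR n := fun _ hw h1 h2 => hbpn ⟨ll_of hw, h1, h2⟩

end Pool.Agent.MWX
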