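import Pool.Agent.Helper57_MWX.R0b
import Pool.Agent.Helper61_MWD.DispQ
import Pool.Agent.Helper70_MWX.Rc2
import Pool.Agent.Helper85_MWX.PJ

/-!
# The two letter base outside of `L` (all periods)

`hbf (n) : Helper61_MWD.HbF n`: if `x²y² ≈ y²x²` and `xtxsx ≈ x^(n+1)tx^(n+1)sx^(n+1)` do not both
hold in a variety of the LR world, both residue crossings hold (helper70, helper85), so the two
letter base holds (`hbr`).  The first identity always holds (`r0_all`).
-/

set_option autoImplicit false

namespace Pool.Agent.MWX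

open Pool.Agent.Helper14_MV Pool.Agent.Helper2_MV

/-- **the two letter base outside of `R0`, `L`, all periods** -/
theorem hbf (n : ℕ) : Helper61_MWD.HbF n := by
  intro β hw hn
  have H := ll_of hw
  have h0 : MWZ.R0 (RR β) := r0_all H
  have hL : ¬ MWZ.L n (RR β) := fun h => hn ⟨h0, h⟩
  have h1 : Helper61_MWD.RC (RR β) := by
    rcases Helper70_MWX.rc H with h | h
    · exact h
    · exact absurd h.2 hL
  have h2 : Helper61_MWD.RC' (RR β) := by
    rcases H85.rcd H with h | h
    · exact h
    · exact absurd h.2 hL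
  exact hbr n β hw h1 h2

/-- `x²y² ≈ y²x²` in the LR world -/
theorem r0_lr {n : ℕ} {β : FIC} (hw : Helper61_MWD.LRW n β) : MWZ.R0 (RR β) := r0_all (ll_of hw)

end Pool.Agent.MWX
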