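import Pool.Agent.Helper57_MWX.HBn

/-!
# Two identities of one block, without residue crossing (block MWX)

`q_c2`: `x^(n+1) y^(n+1) ≈ y^(n+1) x^(n+1)`, `q_b0`: `x y^(n+1) x ≈ x^(n+1) y^(n+1) x^(n+1)`.
-/

set_option autoImplicit false

namespace Pool.Agent.MWX

open Pool.Agent.Helper14_MV Pool.Agent.Helper2_MV

variable {β : FIC} {n : ℕ}

theorem mem_rr {a b : ℕ} {c : ℕ} (h : c ∈ List.replicate a 0 ++ List.replicate b 1) :
    c = 0 ∨ c = 1 := by
  rcases List.mem_append.1 h with h | h
  · exact Or.inl (List.eq_of_mem_replicate h)
  · exact Or.inr (List.eq_of_mem_replicate h)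

/-- `x^(2m) y^(2m) ≈ y^(2m) x^(2m)` -/
theorem r0_pow (h : RR β [0, 0, 1, 1] [1, 1, 0, 0]) (m : ℕ) :
    RR β (List.replicate (m + m) 0 ++ List.replicate (m + m) 1)
      (List.replicate (m + m) 1 ++ List.replicate (m + m) 0) := by
  have h1 := RR.sub (fun c => List.replicate m c) h
  have e1 : ([0, 0, 1, 1] : List ℕ).flatMap (fun c => List.replicate m c) =
      List.replicate (m + m) 0 ++ List.replicate (m + m) 1 := by
    rw [List.replicate_add, List.replicate_add]
    simp only [List.flatMap_cons, List.flatMap_nil, List.append_nil, List.append_assoc]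
  have e2 : ([1, 1, 0, 0] : List ℕ).flatMap (fun c => List.replicate m c) =
      List.replicate (m + m) 1 ++ List.replicate (m + m) 0 := by
    rw [List.replicate_add, List.replicate_add]
    simp only [List.flatMap_cons, List.flatMap_nil, List.append_nil, List.append_assoc]
  rw [e1, e2] at h1
  exact h1

/-- the word `x y^b x^a y` -/
theorem mixw (H : LL n β) {a : ℕ} (ha : 2 ≤ a) :
    RR β (0 :: (List.replicate a 1 ++ List.replicate a 0) ++ [1])
      (1 :: (List.replicate a 0 ++ List.replicate a 1) ++ [0]) := by
  have n01 : (0 : ℕ) ≠ 1 := by decide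
  have m0 : ∀ c : ℕ, 1 ≤ a → c ∈ List.replicate a c := fun c h => List.mem_replicate.2 ⟨by omega, rfl⟩
  have s : ∀ c d : ℕ, List.Sublist [c, d] (List.replicate a c ++ List.replicate a d) := fun c d =>
    (List.singleton_sublist.2 (m0 c (by omega))).append (List.singleton_sublist.2 (m0 d (by omega)))
  have h := uns H n01 (P := []) (S := [])
    (w := 0 :: (List.replicate a 1 ++ List.replicate a 0) ++ [1])
    (w' := 1 :: (List.replicate a 0 ++ List.replicate a 1) ++ [0]) ?_ ?_ ?_ ?_ ?_ ?_ ?_ ?_ ?_ ?_
  · unfold QQ at h
    simpa only [List.nil_append, List.append_nil] using h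
  · intro c hc
    simp only [List.cons_append, List.mem_cons, List.mem_append, List.mem_replicate,
      List.not_mem_nil, or_false] at hc
    tauto
  · exact ((s 1 0).cons _).trans (List.sublist_append_left _ _)
  · have h1 := List.Sublist.cons_cons 0 (List.singleton_sublist.2 (List.mem_append.2 (Or.inl
      (m0 1 (by omega)) : 1 ∈ List.replicate a 1 ∨ 1 ∈ List.replicate a 0)))
    exact h1.trans (List.sublist_append_left _ _)
  · intro c hc
    simp only [List.cons_append, List.mem_cons, List.mem_append, List.mem_replicate,
      List.not_mem_nil, or_false] at hc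
    tauto
  · have h1 := List.Sublist.cons_cons 1 (List.singleton_sublist.2 (List.mem_append.2 (Or.inl
      (m0 0 (by omega)) : 0 ∈ List.replicate a 0 ∨ 0 ∈ List.replicate a 1)))
    exact h1.trans (List.sublist_append_left _ _)
  · exact ((s 0 1).cons _).trans (List.sublist_append_left _ _)
  · simp [List.count_cons, List.count_append, List.count_replicate]
    omega
  · simp [List.count_cons, List.count_append, List.count_replicate]
    omega
  · simp [List.count_cons, List.count_append, List.count_replicate]
  · simp [List.count_cons, List.count_append, List.count_replicate]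

/-- `x^(n+1) y^(n+1) ≈ y^(n+1) x^(n+1)` -/
theorem q_c2 (hw : Helper61_MWD.LRW n β) (h : MWZ.R0 (RR β)) :
    RR β (List.replicate (n + 1) 0 ++ List.replicate (n + 1) 1)
      (List.replicate (n + 1) 1 ++ List.replicate (n + 1) 0) := by
  have H := ll_of hw
  have hn := H.pos
  have hc : ∀ x : ℕ, RR β (List.replicate (n + 1) x) (List.replicate (n + n + 1) x) := fun x =>
    rep_capn H x (Or.inr ⟨by omega, by omega, by
      have : n + 1 ≡ n + 1 + n [MOD n] := by simp [Nat.ModEq]
      have e : n + 1 + n = n + n + 1 := by omega
      rw [e] at this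
      exact this⟩)
  have h1 := (hc 0).append (hc 1)
  have h2 := (hc 1).append (hc 0)
  have r := r0_pow h n
  have e1 : List.replicate (n + n + 1) 0 ++ List.replicate (n + n + 1) 1 =
      [0] ++ (List.replicate (n + n) 0 ++ List.replicate (n + n) 1) ++ [1] := by
    rw [List.replicate_succ (a := 0), List.replicate_succ' (a := 1)]
    simp
  have e2 : List.replicate (n + n + 1) 1 ++ List.replicate (n + n + 1) 0 =
      [1] ++ (List.replicate (n + n) 1 ++ List.replicate (n + n) 0) ++ [0] := by
    rw [List.replicate_succ (a := 1), List.replicate_succ' (a := 0)]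
    simp
  rw [e1] at h1
  rw [e2] at h2
  have h3 := RR.tr h1 (rr_ctx r [0] [1])
  have h4 := RR.tr h2 (rr_ctx r.symm [1] [0])
  exact RR.tr h3 (RR.tr (mixw H (by omega)) h4.symm)

/-- `x y^(n+1) x ≈ x^(n+1) y^(n+1) x^(n+1)` -/
theorem q_b0 (hw : Helper61_MWD.LRW n β) :
    RR β (0 :: (List.replicate (n + 1) 1 ++ [0]))
      (List.replicate (n + 1) 0 ++ (List.replicate (n + 1) 1 ++ List.replicate (n + 1) 0)) := by
  have H := ll_of hw
  have hn := H.pos
  have m0 : ∀ c : ℕ, c ∈ List.replicate (n + 1) c := fun c => List.mem_replicate.2 ⟨by omega, rfl⟩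
  have h := heavy2 H (P := []) (S := []) (w := 0 :: (List.replicate (n + 1) 1 ++ [0]))
    (w' := List.replicate (n + 1) 0 ++ (List.replicate (n + 1) 1 ++ List.replicate (n + 1) 0))
    ?_ ?_ ?_ ?_ ?_ ?_ ?_ ?_ ?_ ?_ ?_ ?_
  · unfold QQ at h
    simpa only [List.nil_append, List.append_nil] using h
  · intro c hc
    simp only [List.mem_cons, List.mem_append, List.mem_replicate,
      List.not_mem_nil, or_false] at hc
    tauto
  · intro c hc
    simp only [List.mem_append, List.mem_replicate] at hc
    tauto
  · exact ((List.singleton_sublist.2 (m0 1)).append (List.Sublist.refl [0])).cons _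
  · exact List.Sublist.cons_cons _ (List.singleton_sublist.2 (List.mem_append.2 (Or.inl (m0 1))))
  · exact (((List.singleton_sublist.2 (m0 1)).append (List.singleton_sublist.2 (m0 0)))).trans
      (List.sublist_append_right _ _)
  · exact (List.singleton_sublist.2 (m0 0)).append
      ((List.singleton_sublist.2 (m0 1)).trans (List.sublist_append_left _ _))
  · simp [List.count_cons, List.count_append, List.count_replicate]
  · simp [List.count_cons, List.count_append, List.count_replicate]
    omega
  · simp [List.count_append, List.count_replicate]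
    omega
  · simp [List.count_append, List.count_replicate]
    omega
  · have e1 : (0 :: (List.replicate (n + 1) 1 ++ [0])).count 0 = 2 := by
      simp [List.count_cons, List.count_append, List.count_replicate]
    have e2 : (List.replicate (n + 1) 0 ++ (List.replicate (n + 1) 1 ++
        List.replicate (n + 1) 0)).count 0 = 2 + n * 2 := by
      simp [List.count_append, List.count_replicate]
      omega
    rw [e1, e2]
    simp [Nat.ModEq]
  · have e1 : (0 :: (List.replicate (n + 1) 1 ++ [0])).count 1 = n + 1 := by
      simp [List.count_cons, List.count_append, List.count_replicate]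
    have e2 : (List.replicate (n + 1) 0 ++ (List.replicate (n + 1) 1 ++
        List.replicate (n + 1) 0)).count 1 = n + 1 := by
      simp [List.count_append, List.count_replicate]
    rw [e1, e2]

end Pool.Agent.MWX
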