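import Pool.Agent.Helper57_MWX.VA

/-!
# The identity `x a x t a ≈ x^(n+1) a x t a` and its partner for the other kind (block MWX)

The lemmas `gA`, `gB`: if the class of `x a x t a` (of `a t x a x`) contains a word which is not half
thin, then the identity holds, up to one exceptional family.
-/

set_option autoImplicit false

namespace Pool.Agent.MWX

open Pool.Agent.Helper14_MV Pool.Agent.Helper2_MV Pool.Agent.Helper79_MWD

variable {β : FIC} {n : ℕ}

/-- the facts used in this file -/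
structure LL (n : ℕ) (β : FIC) : Prop where
  pos : 1 ≤ n
  per : RR β (Z 2) (Z (n + 2))
  iso : Iso3 β
  md : ModF β
  r : RR β [0, 0, 2, 0] (Z 2 ++ 2 :: Z (n + 1))
  lx : RR β [0, 3, 2, 0, 3] [3, 0, 2, 0, 3]
  rx : RR β [0, 3, 2, 0, 3] [0, 3, 2, 3, 0]

theorem ll_of {n : ℕ} {β : FIC} (h : Helper61_MWD.LRW n β) : LL n β :=
  ⟨h.pos, h.per, h.iso, h.md, h.r, h.lx, h.rx⟩

/-! ### powers -/

theorem zp1 (H : LL n β) (i : ℕ) : RR β (Z (i + 2)) (Z (i + 2 + n)) := by
  have h := rr_left (Z i) H.per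
  rw [← z_add, ← z_add] at h
  have e : i + (n + 2) = i + 2 + n := by omega
  rw [e] at h
  exact h

theorem zpm (H : LL n β) (i m : ℕ) : RR β (Z (i + 2)) (Z (i + 2 + n * m)) := by
  induction m with
  | zero => exact RR.refl _
  | succ m ih =>
    have h := zp1 H (i + n * m)
    have e1 : i + n * m + 2 = i + 2 + n * m := by omega
    have e2 : i + n * m + 2 + n = i + 2 + n * (m + 1) := by rw [Nat.mul_succ]; omega
    rw [e2, e1] at h
    exact RR.tr ih h

theorem zcap (H : LL n β) {i j : ℕ} (hi : 2 ≤ i) (hj : 2 ≤ j) (h : i ≡ j [MOD n]) :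
    RR β (Z i) (Z j) := by
  rcases Nat.le_total i j with hij | hij
  · obtain ⟨m, hm⟩ := (Nat.modEq_iff_dvd' hij).1 h
    obtain ⟨i', rfl⟩ : ∃ i', i = i' + 2 := ⟨i - 2, by omega⟩
    have e : j = i' + 2 + n * m := by omega
    rw [e]
    exact zpm H i' m
  · obtain ⟨m, hm⟩ := (Nat.modEq_iff_dvd' hij).1 h.symm
    obtain ⟨j', rfl⟩ : ∃ j', j = j' + 2 := ⟨j - 2, by omega⟩
    have e : i = j' + 2 + n * m := by omega
    rw [e]
    exact (zpm H j' m).symm

theorem cap_i (H : LL n β) {i i' : ℕ} (hi : 2 ≤ i) (hj : 2 ≤ i') (h : i ≡ i' [MOD n])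
    (j k l : ℕ) : RR β (V i j k l) (V i' j k l) := by
  have h1 := rr_right (1 :: (Z j ++ 2 :: (Z k ++ 1 :: Z l))) (zcap H hi hj h)
  exact h1

theorem cap_j (H : LL n β) {j j' : ℕ} (hi : 2 ≤ j) (hj : 2 ≤ j') (h : j ≡ j' [MOD n])
    (i k l : ℕ) : RR β (V i j k l) (V i j' k l) := by
  have h1 := rr_left (Z i ++ [1]) (rr_right (2 :: (Z k ++ 1 :: Z l)) (zcap H hi hj h))
  unfold V
  simpa only [List.append_assoc, List.cons_append, List.nil_append] using h1

theorem cap_k (H : LL n β) {k k' : ℕ} (hi : 2 ≤ k) (hj : 2 ≤ k') (h : k ≡ k' [MOD n])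
    (i j l : ℕ) : RR β (V i j k l) (V i j k' l) := by
  have h1 := rr_left (Z i ++ 1 :: (Z j ++ [2])) (rr_right (1 :: Z l) (zcap H hi hj h))
  unfold V
  simpa only [List.append_assoc, List.cons_append, List.nil_append] using h1

theorem cap_l (H : LL n β) {l l' : ℕ} (hi : 2 ≤ l) (hj : 2 ≤ l') (h : l ≡ l' [MOD n])
    (i j k : ℕ) : RR β (V i j k l) (V i j k l') := by
  have h1 := rr_left (Z i ++ 1 :: (Z j ++ 2 :: (Z k ++ [1]))) (zcap H hi hj h)
  unfold V
  simpa only [List.append_assoc, List.cons_append, List.nil_append] using h1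

/-! ### free exchanges -/

theorem lxg (H : LL n β) (p q t : List ℕ) (x y : ℕ) :
    RR β (p ++ x :: y :: (t ++ x :: y :: q)) (p ++ y :: x :: (t ++ x :: y :: q)) := by
  have h := rr_ctx (RR.sub (fun c => if c = 0 then [x] else if c = 3 then [y] else t) H.lx) p q
  simpa [List.flatMap_cons] using h

theorem rxg (H : LL n β) (p q t : List ℕ) (x y : ℕ) :
    RR β (p ++ x :: y :: (t ++ x :: y :: q)) (p ++ x :: y :: (t ++ y :: x :: q)) := by
  have h := rr_ctx (RR.sub (fun c => if c = 0 then [x] else if c = 3 then [y] else t) H.rx) p q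
  simpa [List.flatMap_cons] using h

theorem z_succ' (k : ℕ) (L : List ℕ) : Z (k + 1) ++ L = Z k ++ 0 :: L := by
  rw [z_add]
  simp

/-- one step in the first block -/
theorem st1 (H : LL n β) {i j k l : ℕ} (h : 1 ≤ k + l) :
    RR β (V i (j + 1) k l) (V (i + 1) j k l) := by
  rcases k with _ | k
  · obtain ⟨l', rfl⟩ : ∃ l', l = l' + 1 := ⟨l - 1, by omega⟩
    have h1 := lxg H (Z i) (Z l') (Z j ++ [2]) 1 0
    have e1 : V i (j + 1) 0 (l' + 1) = Z i ++ 1 :: 0 :: ((Z j ++ [2]) ++ 1 :: 0 :: Z l') := by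
      unfold V
      simp [List.replicate_succ]
    have e2 : V (i + 1) j 0 (l' + 1) = Z i ++ 0 :: 1 :: ((Z j ++ [2]) ++ 1 :: 0 :: Z l') := by
      unfold V
      rw [z_succ']
      simp [List.replicate_succ]
    rw [e1, e2]
    exact h1
  · have h1 := (lxg H (Z i) (Z l) (Z j ++ 2 :: Z k) 0 1).symm
    have e1 : V i (j + 1) (k + 1) l = Z i ++ 1 :: 0 :: ((Z j ++ 2 :: Z k) ++ 0 :: 1 :: Z l) := by
      unfold V
      rw [z_succ' k]
      simp [List.replicate_succ]
    have e2 : V (i + 1) j (k + 1) l = Z i ++ 0 :: 1 :: ((Z j ++ 2 :: Z k) ++ 0 :: 1 :: Z l) := by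
      unfold V
      rw [z_succ' i, z_succ' k]
      simp
    rw [e1, e2]
    exact h1

/-- one step in the second block -/
theorem st2 (H : LL n β) {i j k l : ℕ} (h : 1 ≤ i + j) :
    RR β (V i j k (l + 1)) (V i j (k + 1) l) := by
  rcases j with _ | j
  · obtain ⟨i', rfl⟩ : ∃ i', i = i' + 1 := ⟨i - 1, by omega⟩
    have h1 := (rxg H (Z i') (Z l) (2 :: Z k) 0 1).symm
    have e1 : V (i' + 1) 0 k (l + 1) = Z i' ++ 0 :: 1 :: ((2 :: Z k) ++ 1 :: 0 :: Z l) := by
      unfold V
      rw [z_succ' i']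
      simp [List.replicate_succ]
    have e2 : V (i' + 1) 0 (k + 1) l = Z i' ++ 0 :: 1 :: ((2 :: Z k) ++ 0 :: 1 :: Z l) := by
      unfold V
      rw [z_succ' i', z_succ' k]
      simp
    rw [e1, e2]
    exact h1
  · have h1 := rxg H (Z i) (Z l) (Z j ++ 2 :: Z k) 1 0
    have e1 : V i (j + 1) k (l + 1) = Z i ++ 1 :: 0 :: ((Z j ++ 2 :: Z k) ++ 1 :: 0 :: Z l) := by
      unfold V
      simp [List.replicate_succ]
    have e2 : V i (j + 1) (k + 1) l = Z i ++ 1 :: 0 :: ((Z j ++ 2 :: Z k) ++ 0 :: 1 :: Z l) := by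
      unfold V
      rw [z_succ' k]
      simp [List.replicate_succ]
    rw [e1, e2]
    exact h1

theorem free1 (H : LL n β) {i j k l : ℕ} (h : 1 ≤ k + l) : RR β (V i j k l) (V (i + j) 0 k l) := by
  induction j generalizing i with
  | zero => exact RR.refl _
  | succ j ih =>
    have h1 := ih (i := i + 1)
    have e : i + 1 + j = i + (j + 1) := by omega
    rw [e] at h1
    exact RR.tr (st1 H h) h1

theorem free2 (H : LL n β) {i j k l : ℕ} (h : 1 ≤ i + j) : RR β (V i j k l) (V i j (k + l) 0) := by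
  induction l generalizing k with
  | zero => exact RR.refl _
  | succ l ih =>
    have h1 := ih (k := k + 1)
    have e : k + 1 + l = k + (l + 1) := by omega
    rw [e] at h1
    exact RR.tr (st2 H h) h1

/-! ### deletion of `a` -/

theorem del_a {i j k l i' j' k' l' : ℕ} (h : RR β (V i j k l) (V i' j' k' l')) :
    RR β (Z (i + j) ++ 2 :: Z (k + l)) (Z (i' + j') ++ 2 :: Z (k' + l')) := by
  have h1 := rrv_sub [] [2] h
  have e : ∀ i j k l : ℕ, Z i ++ ([] ++ (Z j ++ ([2] ++ (Z k ++ ([] ++ Z l))))) =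
      Z (i + j) ++ 2 :: Z (k + l) := by
    intro i j k l
    rw [z_add, z_add]
    simp only [List.nil_append, List.append_assoc, List.cons_append]
  rw [e, e] at h1
  exact h1

/-- substitution of `T` for `2` in an identity with the letters `0`, `2` -/
theorem sub_t (T : List ℕ) {i k i' k' : ℕ} (h : RR β (Z i ++ 2 :: Z k) (Z i' ++ 2 :: Z k')) :
    RR β (Z i ++ (T ++ Z k)) (Z i' ++ (T ++ Z k')) := by
  have h1 := RR.sub (g3 [1] T) h
  rw [List.flatMap_append, List.flatMap_append, List.flatMap_cons, List.flatMap_cons,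
    z_sub (by rfl), z_sub (by rfl), z_sub (by rfl), z_sub (by rfl)] at h1
  exact h1

/-! ### kind A -/

/-- `x a x t a ≈ x^(n+1) a x t a` -/
def GA (n : ℕ) (β : FIC) : Prop := RR β (V 1 1 0 0) (V (n + 1) 1 0 0)

theorem gA_i (H : LL n β) {i j k l : ℕ} (h : RR β (V 1 1 0 0) (V i j k l)) (hi : 2 ≤ i) :
    GA n β := by
  have h1 := v_left n h
  have h2 : RR β (V (n + i) j k l) (V i j k l) :=
    cap_i H (by omega) hi (by simp [Nat.ModEq]) j k l
  exact (RR.tr h1 (RR.tr h2 h.symm)).symm

theorem gA_j (H : LL n β) {j : ℕ} (h : RR β (V 1 1 0 0) (V 0 j 0 0)) (hj : 2 ≤ j) : GA n β := by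
  have key : ∀ p q, RR β (V (p + 1) (1 + q) 0 0) (V 0 (1 + q + (p + 1) * (j - 1)) 0 0) := by
    intro p
    induction p with
    | zero =>
      intro q
      have h1 := v_mid q 0 h
      have e : j + q = 1 + q + (0 + 1) * (j - 1) := by omega
      rw [e] at h1
      exact h1
    | succ p ih =>
      intro q
      have h1 := v_left (p + 1) (v_mid q 0 h)
      have e1 : j + q = 1 + (q + (j - 1)) := by omega
      have h2 := ih (q + (j - 1))
      have e2 : 1 + (q + (j - 1)) + (p + 1) * (j - 1) = 1 + q + (p + 1 + 1) * (j - 1) := by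
        rw [Nat.add_mul (p + 1) 1 (j - 1)]
        omega
      rw [e2] at h2
      rw [e1] at h1
      exact RR.tr h1 h2
  have h1 := key n 0
  have h2 : RR β (V 0 (1 + 0 + (n + 1) * (j - 1)) 0 0) (V 0 j 0 0) := by
    apply cap_j H _ hj
    · have e : 1 + 0 + (n + 1) * (j - 1) = j + n * (j - 1) := by
        rw [Nat.add_mul]
        omega
      rw [e]
      simp [Nat.ModEq]
    · have e : 1 + 0 + (n + 1) * (j - 1) = j + n * (j - 1) := by
        rw [Nat.add_mul]
        omega
      rw [e]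
      omega
  exact (RR.tr h1 (RR.tr h2 h.symm)).symm

/-- **gA** -/
theorem gA (H : LL n β) {i j k l : ℕ} (h : RR β (V 1 1 0 0) (V i j k l))
    (h1 : ¬ (i = 1 ∧ 1 ≤ j ∧ k = 0 ∧ l = 0)) (h2 : ¬ (i = 0 ∧ j = 0 ∧ 1 ≤ k ∧ 1 ≤ l)) :
    GA n β := by
  have ht := v_total H.iso h (by omega)
  have hd := del_a h
  rcases Nat.eq_zero_or_pos (k + l) with hkl | hkl
  · have hk : k = 0 := by omega
    have hl : l = 0 := by omega
    subst hk hl
    rcases Nat.lt_or_ge i 2 with hi | hi
    · have hi0 : i = 0 := by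
        by_contra hne
        have hi1 : i = 1 := by omega
        omega
      subst hi0
      exact gA_j H h (by omega)
    · exact gA_i H h hi
  · rcases Nat.lt_or_ge (i + j) 2 with hij | hij
    · rcases Nat.eq_zero_or_pos (i + j) with hij0 | hij0
      · have hi : i = 0 := by omega
        have hj : j = 0 := by omega
        subst hi hj
        have hs : k = 0 ∨ l = 0 := by omega
        rcases hs with rfl | rfl
        · have h3 := sub_t [1, 2] hd
          -- `x² T ≈ T x^(k+l)`
          have h4 := rr_left [1] (sub_t [2, 1] hd)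
          have e1 : [1] ++ (Z (1 + 1) ++ ([2, 1] ++ Z (0 + 0))) = V 0 2 0 0 := by
            unfold V; simp
          have e2 : [1] ++ (Z (0 + 0) ++ ([2, 1] ++ Z (0 + l))) = V 0 0 0 l := by
            unfold V; simp
          rw [e1, e2] at h4
          exact gA_j H (RR.tr h h4.symm) (le_refl 2)
        · have h4 := rr_left [1] (rr_right [1] (sub_t [2] hd))
          have e1 : [1] ++ (Z (1 + 1) ++ ([2] ++ Z (0 + 0)) ++ [1]) = V 0 2 0 0 := by
            unfold V; simp
          have e2 : [1] ++ (Z (0 + 0) ++ ([2] ++ Z (k + 0)) ++ [1]) = V 0 0 k 0 := by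
            unfold V; simp
          rw [e1, e2] at h4
          exact gA_j H (RR.tr h h4.symm) (le_refl 2)
      · have hij1 : i + j = 1 := by omega
        have h3 := free1 H (i := i) (j := j) (k := k) (l := l) hkl
        rw [hij1] at h3
        have h4 := free2 H (i := 1) (j := 0) (k := k) (l := l) (by omega)
        have h5 := rr_right [1] (sub_t [1, 2] hd)
        have e1 : Z (1 + 1) ++ ([1, 2] ++ Z (0 + 0)) ++ [1] = V 2 0 0 0 := by
          unfold V; simp
        have e2 : Z (i + j) ++ ([1, 2] ++ Z (k + l)) ++ [1] = V 1 0 (k + l) 0 := by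
          rw [hij1]
          unfold V; simp
        rw [e1, e2] at h5
        exact gA_i H (RR.tr h (RR.tr h3 (RR.tr h4 h5.symm))) (le_refl 2)
    · exact gA_i H (RR.tr h (free1 H hkl)) hij

/-! ### kind B -/

/-- `a t x a x ≈ a t x^(n+1) a x` -/
def GB (n : ℕ) (β : FIC) : Prop := RR β (V 0 0 1 1) (V 0 0 (n + 1) 1)

theorem gB_k (H : LL n β) {i j k l : ℕ} (h : RR β (V 0 0 1 1) (V i j k l)) (hk : 2 ≤ k) :
    GB n β := by
  have h1 := v_mid 0 n h
  have h2 : RR β (V i (j + 0) (n + k) l) (V i j k l) :=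
    cap_k H (by omega) hk (by simp [Nat.ModEq]) i j l
  exact (RR.tr h1 (RR.tr h2 h.symm)).symm

theorem gB_l (H : LL n β) {l : ℕ} (h : RR β (V 0 0 1 1) (V 0 0 0 l)) (hl : 2 ≤ l) : GB n β := by
  have key : ∀ p q, RR β (V 0 0 (p + 1) (1 + q)) (V 0 0 0 (1 + q + (p + 1) * (l - 1))) := by
    intro p
    induction p with
    | zero =>
      intro q
      have h1 := v_right q h
      have e : l + q = 1 + q + (0 + 1) * (l - 1) := by omega
      rw [e] at h1
      exact h1
    | succ p ih =>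
      intro q
      have h1 := v_mid 0 (p + 1) (v_right q h)
      have e1 : l + q = 1 + (q + (l - 1)) := by omega
      have h2 := ih (q + (l - 1))
      have e2 : 1 + (q + (l - 1)) + (p + 1) * (l - 1) = 1 + q + (p + 1 + 1) * (l - 1) := by
        rw [Nat.add_mul (p + 1) 1 (l - 1)]
        omega
      rw [e2] at h2
      rw [e1] at h1
      exact RR.tr h1 h2
  have h1 := key n 0
  have h2 : RR β (V 0 0 0 (1 + 0 + (n + 1) * (l - 1))) (V 0 0 0 l) := by
    apply cap_l H _ hl
    · have e : 1 + 0 + (n + 1) * (l - 1) = l + n * (l - 1) := by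
        rw [Nat.add_mul]
        omega
      rw [e]
      simp [Nat.ModEq]
    · have e : 1 + 0 + (n + 1) * (l - 1) = l + n * (l - 1) := by
        rw [Nat.add_mul]
        omega
      rw [e]
      omega
  exact (RR.tr h1 (RR.tr h2 h.symm)).symm

/-- `x²tx ≈ x²tx^(n+1)` in the words `V` -/
theorem r_v (H : LL n β) {s : ℕ} (hs : 2 ≤ s) : RR β (V s 0 1 0) (V s 0 (n + 1) 0) := by
  have h0 : RR β (Z 2 ++ 2 :: Z 1) (Z 2 ++ 2 :: Z (n + 1)) := H.r
  obtain ⟨s', rfl⟩ : ∃ s', s = s' + 2 := ⟨s - 2, by omega⟩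
  have h1 := rr_left (Z s') (rr_right [1] (sub_t [1, 2] h0))
  have e1 : Z s' ++ (Z 2 ++ ([1, 2] ++ Z 1) ++ [1]) = V (s' + 2) 0 1 0 := by
    unfold V
    rw [z_add]
    simp only [List.append_assoc, List.cons_append, List.nil_append, List.replicate_zero]
  have e2 : Z s' ++ (Z 2 ++ ([1, 2] ++ Z (n + 1)) ++ [1]) = V (s' + 2) 0 (n + 1) 0 := by
    unfold V
    rw [z_add s' 2]
    simp only [List.append_assoc, List.cons_append, List.nil_append, List.replicate_zero]
  rw [e1, e2] at h1
  exact h1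

/-- **gB** -/
theorem gB (H : LL n β) {i j k l : ℕ} (h : RR β (V 0 0 1 1) (V i j k l))
    (h1 : ¬ (i = 0 ∧ j = 0 ∧ k = 1 ∧ 1 ≤ l)) (h2 : ¬ (1 ≤ i ∧ 1 ≤ j ∧ k = 0 ∧ l = 0)) :
    GB n β := by
  have ht := v_total H.iso h (by omega)
  have hd := del_a h
  rcases Nat.lt_or_ge k 2 with hk | hk
  · rcases Nat.eq_zero_or_pos (i + j) with hij | hij
    · have hi : i = 0 := by omega
      have hj : j = 0 := by omega
      subst hi hj
      rcases Nat.eq_zero_or_pos k with hk0 | hk0
      · subst hk0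
        exact gB_l H h (by omega)
      · exfalso
        omega
    · rcases Nat.eq_zero_or_pos (k + l) with hkl | hkl
      · have hk0 : k = 0 := by omega
        have hl0 : l = 0 := by omega
        subst hk0 hl0
        have hs : i = 0 ∨ j = 0 := by omega
        rcases hs with rfl | rfl
        · -- `t x² ≈ x^j t`
          have h4 := rr_left [1] (rr_right [1] (sub_t [2] hd))
          have e1 : [1] ++ (Z (0 + 0) ++ ([2] ++ Z (1 + 1)) ++ [1]) = V 0 0 2 0 := by
            unfold V; simp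
          have e2 : [1] ++ (Z (0 + j) ++ ([2] ++ Z (0 + 0)) ++ [1]) = V 0 j 0 0 := by
            unfold V; simp
          rw [e1, e2] at h4
          exact gB_k H (RR.tr h h4.symm) (le_refl 2)
        · have h4 := rr_right [1] (sub_t [1, 2] hd)
          have e1 : Z (0 + 0) ++ ([1, 2] ++ Z (1 + 1)) ++ [1] = V 0 0 2 0 := by
            unfold V; simp
          have e2 : Z (i + 0) ++ ([1, 2] ++ Z (0 + 0)) ++ [1] = V i 0 0 0 := by
            unfold V; simp
          rw [e1, e2] at h4
          exact gB_k H (RR.tr h h4.symm) (le_refl 2)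
      · have h3 := free2 H (i := i) (j := j) (k := k) (l := l) hij
        rcases Nat.lt_or_ge (k + l) 2 with hkl2 | hkl2
        · have hkl1 : k + l = 1 := by omega
          have hij2 : 2 ≤ i + j := by
            by_contra hc
            have hij1 : i + j = 1 := by omega
            rw [hij1, hkl1] at hd
            have h5 : RR β [0, 2, 0] [2, 0, 0] := hd.symm
            have h6 := iso_aba H.iso (by decide) h5
            simp at h6
          rw [hkl1] at h3
          have h4 := free1 H (i := i) (j := j) (k := 1) (l := 0) (by omega)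
          exact gB_k H (RR.tr h (RR.tr h3 (RR.tr h4 (r_v H hij2)))) (by have := H.pos; omega)
        · exact gB_k H (RR.tr h h3) hkl2
  · exact gB_k H h hk

end Pool.Agent.MWX
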