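import Pool.Agent.Helper57_MWX.HTF

/-!
# `a t x a x ≈ a t x^(n+1) a x` (block MWX)
-/

set_option autoImplicit false

namespace Pool.Agent.MWX

open Pool.Agent.Helper14_MV Pool.Agent.Helper2_MV Pool.Agent.Helper79_MWD Pool.Agent.MVD

variable {β : FIC} {n : ℕ}

/-- a word which is not half thin -/
theorem halfB (H : LL n β) : ∃ i j k l m, RR β (V5 1 5 2 0 0 1 1 0) (V5 1 5 2 i j k l m) ∧
    ¬ (i = 0 ∧ j = 0 ∧ k = 1 ∧ 1 ≤ l ∧ m = 0) := by
  obtain ⟨w', hw, hn⟩ := n2q H.md H.iso (P := [0]) (Q := []) (m := 1) (le_refl 1)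
    (List.Perm.refl _)
  rw [bwB] at hw
  obtain ⟨i, j, k, l, m, rfl⟩ := v5_shape H.iso (c := 1) (t := 5) (s := 2) (by omega) (by omega)
    (by omega) (by decide) hw
  refine ⟨i, j, k, l, m, hw, ?_⟩
  rintro ⟨rfl, rfl, rfl, h1, rfl⟩
  apply hn
  refine ⟨l, h1, ?_⟩
  unfold V5
  simp [Wm, Bw, zs]

/-- the world with `x²t ≈ tx²` -/
theorem gb_sq (H : LL n β) {i j : ℕ} (h : RR β (V 0 0 1 1) (V i j 0 0)) (hi : 1 ≤ i)
    (hj : 1 ≤ j) : GB n β := by
  have hd := del_a h
  have hsq : RR β [0, 0, 2] [2, 0, 0] := by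
    have h2 := rr_right [2] (RR.filter (fun x => decide (x = 0)) hd)
    have e1 : (Z (0 + 0) ++ 2 :: Z (1 + 1)).filter (fun x => decide (x = 0)) ++ [2] =
        [0, 0, 2] := by decide
    have e2 : (Z (i + j) ++ 2 :: Z (0 + 0)).filter (fun x => decide (x = 0)) ++ [2] =
        Z (i + j) ++ 2 :: Z (0 + 0) := by
      rw [List.filter_append, List.filter_cons_of_neg (by decide), z_filter0, z_filter0]
      simp
    rw [e1, e2] at h2
    exact RR.tr h2 hd.symm
  -- words with `i, j ≥ 1`, `i + j ≥ 3`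
  have big : ∀ i j, RR β (V 0 0 1 1) (V i j 0 0) → (2 ≤ i ∨ 2 ≤ j) → GB n β := by
    intro i j h hij
    rcases hij with hi | hj
    · obtain ⟨i', rfl⟩ : ∃ i', i = i' + 2 := ⟨i - 2, by omega⟩
      exact gB_k H (RR.tr h (sq_k hsq)) (by omega)
    · obtain ⟨j', rfl⟩ : ∃ j', j = j' + 2 := ⟨j - 2, by omega⟩
      exact gB_k H (RR.tr h (RR.tr (sq_j hsq).symm (sq_k hsq))) (by omega)
  by_cases hb : 2 ≤ i ∨ 2 ≤ j
  · exact big i j h hb
  obtain ⟨i', j', k', l', m', hw, hn'⟩ := witB H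
  have hw' := v5_B hw
  by_cases c1 : i' = 0 ∧ j' = 0 ∧ k' = 1 ∧ 1 ≤ l' + m'
  · obtain ⟨rfl, rfl, rfl, hl⟩ := c1
    by_cases hl2 : 2 ≤ l' + m'
    · obtain ⟨l'', hl''⟩ : ∃ l'', l' + m' = l'' + 2 := ⟨l' + m' - 2, by omega⟩
      rw [hl''] at hw'
      exact gB_k H (RR.tr hw' (RR.tr (sq_l hsq).symm (sq_k hsq))) (by omega)
    · exfalso
      exact hn' ⟨by omega, btw_of (by omega) (Or.inr (Or.inr (Or.inr ⟨rfl, rfl, rfl⟩)))⟩
  by_cases c2 : 1 ≤ i' ∧ 1 ≤ j' ∧ k' = 0 ∧ l' + m' = 0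
  · obtain ⟨hi', hj', rfl, hlm⟩ := c2
    rw [hlm] at hw'
    by_cases hb' : 2 ≤ i' ∨ 2 ≤ j'
    · exact big i' j' hw' hb'
    · exfalso
      exact hn' ⟨by omega, btw_of (by omega) (Or.inl ⟨by omega, by omega⟩)⟩
  · exact gB H hw' (fun hh => c1 hh) (fun hh => c2 hh)

/-- the world in which `x` may return behind the simple letter -/
theorem gb_e (H : LL n β) {l : ℕ} (hl : 2 ≤ l) (h : RR β (V 0 0 1 1) (V 0 0 1 l)) : GB n β := by
  have iter : ∀ q, RR β (V 0 0 1 1) (V 0 0 1 (1 + q * (l - 1))) := by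
    intro q
    induction q with
    | zero => simpa using RR.refl (β := β) (V 0 0 1 1)
    | succ q ih =>
      have h1 := v_right (q * (l - 1)) h
      have e : l + q * (l - 1) = 1 + (q + 1) * (l - 1) := by
        rw [Nat.add_mul]
        omega
      rw [e] at h1
      exact RR.tr ih h1
  have hE : ∀ L, 2 ≤ L → L ≡ 1 [MOD n] → RR β (V 0 0 1 1) (V 0 0 1 L) := by
    intro L hL hL1
    have hn1 : 1 ≤ n * (l - 1) := Nat.mul_pos H.pos (by omega)
    refine RR.tr (iter n) (cap_l H (by omega) hL ?_ 0 0 1)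
    refine Nat.ModEq.trans ?_ hL1.symm
    simp [Nat.ModEq]
  have hk := hte H.md H.iso
  unfold KE at hk
  push Not at hk
  obtain ⟨w, w', hww, ⟨i, j, hi, rfl⟩, hs⟩ := hk
  have hf : (1 :: 2 :: (Z 1 ++ 1 :: (Z i ++ 4 :: Z j))).filter (fun x => decide (x ≠ 0)) =
      [1, 2, 1, 4] := by
    rw [List.filter_cons_of_pos (by decide), List.filter_cons_of_pos (by decide),
      List.filter_append, List.filter_cons_of_pos (by decide), List.filter_append,
      List.filter_cons_of_pos (by decide), z_filter, z_filter, z_filter]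
    rfl
  obtain ⟨i', j', k', l', m', rfl⟩ := v5_shape H.iso (c := 1) (t := 2) (s := 4) (by omega)
    (by omega) (by omega) hf hww
  -- deletion of `4`
  have del4 : ∀ a b c d e, (V5 1 2 4 a b c d e).flatMap (fun c => if c = 4 then [] else [c]) =
      V a b c (d + e) := by
    intro a b c d e
    unfold V5 V
    rw [List.flatMap_append, List.flatMap_cons, List.flatMap_append, List.flatMap_cons,
      List.flatMap_append, List.flatMap_cons, List.flatMap_append, List.flatMap_cons,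
      z_sub (by rfl), z_sub (by rfl), z_sub (by rfl), z_sub (by rfl), z_sub (by rfl), z_add]
    simp
  have hv : RR β (V5 1 2 4 0 0 1 i j) (V5 1 2 4 i' j' k' l' m') := hww
  have h1 := RR.sub (fun c => if c = 4 then [] else [c]) hv
  rw [del4, del4] at h1
  have hn0 : 1 ≤ n * (i + j) := Nat.mul_pos H.pos (by omega)
  have hle : i + j ≤ n * (i + j) := Nat.le_mul_of_pos_left _ H.pos
  obtain ⟨p, hp⟩ : ∃ p, i + j + p = n * (i + j) + 1 := ⟨n * (i + j) + 1 - (i + j), by omega⟩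
  have h2 := v_right p h1
  have h3 : RR β (V 0 0 1 1) (V 0 0 1 (i + j + p)) := by
    apply hE
    · omega
    · rw [hp]
      simp [Nat.ModEq]
  have h4 := RR.tr h3 h2
  by_cases c1 : i' = 0 ∧ j' = 0 ∧ k' = 1 ∧ 1 ≤ l' + m' + p
  · obtain ⟨rfl, rfl, rfl, -⟩ := c1
    have hl' : l' = 0 := by
      by_contra hne
      exact hs ⟨l', m', by omega, rfl⟩
    subst hl'
    -- `4 ↦ a`, `a`, `r` deleted, the prefix `a r`
    have h5 := rr_left [1, 2] (RR.sub (fun c => if c = 0 then [0] else if c = 4 then [1] else [])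
      hv)
    have e : ∀ d e, [1, 2] ++ (V5 1 2 4 0 0 1 d e).flatMap
        (fun c => if c = 0 then [0] else if c = 4 then [1] else []) = V 0 0 (1 + d) e := by
      intro d e
      unfold V5 V
      rw [List.flatMap_append, List.flatMap_cons, List.flatMap_append, List.flatMap_cons,
        List.flatMap_append, List.flatMap_cons, List.flatMap_append, List.flatMap_cons,
        z_sub (by rfl), z_sub (by rfl), z_sub (by rfl), z_sub (by rfl), z_add 1 d]
      simp
    rw [e, e] at h5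
    have h6 := v_total H.iso h5 (by omega)
    have hm1 : 1 ≤ m' := by omega
    have hle' : m' ≤ n * m' := Nat.le_mul_of_pos_left _ H.pos
    obtain ⟨p', hp'⟩ : ∃ p', m' + p' = n * m' + 1 := ⟨n * m' + 1 - m', by omega⟩
    have h7 := v_right p' h5
    have h8 : RR β (V 0 0 1 1) (V 0 0 (1 + 0) (m' + p')) := by
      apply hE
      · omega
      · rw [hp']
        simp [Nat.ModEq]
    exact gB_k H (RR.tr h8 h7.symm) (by omega)
  · exact gB H h4 (fun hh => c1 hh) (fun hh => by omega)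

/-- **the identity for kind B** -/
theorem gb (H : LL n β) : GB n β := by
  obtain ⟨i, j, k, l, m, h, hn⟩ := halfB H
  have hv := v5_B h
  by_cases c1 : i = 0 ∧ j = 0 ∧ k = 1 ∧ 1 ≤ l + m
  · obtain ⟨rfl, rfl, rfl, hlm⟩ := c1
    have hlm2 : 2 ≤ l + m := by
      by_contra hc
      have hm : m = 1 := by
        by_contra hm
        exact hn ⟨rfl, rfl, rfl, by omega, by omega⟩
      have hl : l = 0 := by omega
      subst hm hl
      have h1 := RR.sub (fun c => if c = 0 then [0] else if c = 2 then [2] else []) h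
      have h2 : RR β [0, 0, 2] [0, 2, 0] := h1
      exact absurd (iso_aba H.iso (by decide) h2.symm) (by decide)
    exact gb_e H hlm2 hv
  by_cases c2 : 1 ≤ i ∧ 1 ≤ j ∧ k = 0 ∧ l + m = 0
  · obtain ⟨hi, hj, rfl, hlm⟩ := c2
    rw [hlm] at hv
    exact gb_sq H hv hi hj
  · exact gB H hv (fun hh => c1 hh) (fun hh => c2 hh)

end Pool.Agent.MWX
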