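import Pool.Agent.Helper57_MWX.GA

/-!
# `x a x t a ≈ x^(n+1) a x t a` (block MWX)
-/

set_option autoImplicit false

namespace Pool.Agent.MWX

open Pool.Agent.Helper14_MV Pool.Agent.Helper2_MV Pool.Agent.Helper79_MWD Pool.Agent.MVD

variable {β : FIC} {n : ℕ}

/-- `x^i a x^j t x^k a x^l s x^m` -/
def V5 (c t s : ℕ) (i j k l m : ℕ) : List ℕ :=
  Z i ++ c :: (Z j ++ t :: (Z k ++ c :: (Z l ++ s :: Z m)))

theorem v5_shape (H : Iso3 β) {c t s : ℕ} (hct : c ≠ t)
    (hcs : c ≠ s) (hts : t ≠ s) {w w' : List ℕ}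
    (hw : w.filter (fun x => decide (x ≠ 0)) = [c, t, c, s]) (h : RR β w w') :
    ∃ i j k l m, w' = V5 c t s i j k l m := by
  have h1 := h.filter (fun x => decide (x ≠ 0))
  rw [hw] at h1
  have h2 := rig4 H hct hcs hts h1
  obtain ⟨i, w1, e1, h3⟩ := peel h2
  obtain ⟨j, w2, e2, h4⟩ := peel h3
  obtain ⟨k, w3, e3, h5⟩ := peel h4
  obtain ⟨l, w4, e4, h6⟩ := peel h5
  obtain ⟨m, e5⟩ := peel0 h6
  exact ⟨i, j, k, l, m, by rw [e1, e2, e3, e4, e5]; rfl⟩

/-- kind A: deletion of the last simple letter -/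
theorem v5_A {i j k l m : ℕ} (h : RR β (V5 1 2 5 1 1 0 0 0) (V5 1 2 5 i j k l m)) :
    RR β (V 1 1 0 0) (V i j k (l + m)) := by
  have h1 := RR.sub (fun c => if c = 5 then [] else [c]) h
  have key : ∀ i j k l m, (V5 1 2 5 i j k l m).flatMap (fun c => if c = 5 then [] else [c]) =
      V i j k (l + m) := by
    intro i j k l m
    unfold V5 V
    rw [List.flatMap_append, List.flatMap_cons, List.flatMap_append, List.flatMap_cons,
      List.flatMap_append, List.flatMap_cons, List.flatMap_append, List.flatMap_cons,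
      z_sub (by rfl), z_sub (by rfl), z_sub (by rfl), z_sub (by rfl), z_sub (by rfl), z_add]
    simp
  rw [key, key] at h1
  exact h1

/-- kind B: deletion of the last simple letter and a new name of the other -/
theorem v5_B {i j k l m : ℕ} (h : RR β (V5 1 5 2 0 0 1 1 0) (V5 1 5 2 i j k l m)) :
    RR β (V 0 0 1 1) (V i j k (l + m)) := by
  have h1 := RR.sub (fun c => if c = 5 then [2] else if c = 2 then [] else [c]) h
  have key : ∀ i j k l m, (V5 1 5 2 i j k l m).flatMap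
      (fun c => if c = 5 then [2] else if c = 2 then [] else [c]) = V i j k (l + m) := by
    intro i j k l m
    unfold V5 V
    rw [List.flatMap_append, List.flatMap_cons, List.flatMap_append, List.flatMap_cons,
      List.flatMap_append, List.flatMap_cons, List.flatMap_append, List.flatMap_cons,
      z_sub (by rfl), z_sub (by rfl), z_sub (by rfl), z_sub (by rfl), z_sub (by rfl), z_add]
    simp
  rw [key, key] at h1
  exact h1

/-- `a` has an occurrence between two occurrences of `x`, if there are exactly two -/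
theorem btw_of {c t s : ℕ} {i j k l m : ℕ}
    (h2 : i + (j + (k + (l + m))) = 2)
    (h : (i = 1 ∧ j = 1) ∨ (i = 1 ∧ j = 0 ∧ k + l + m = 1) ∨ (i = 0 ∧ j = 1 ∧ l + m = 1) ∨
      (i = 0 ∧ j = 0 ∧ k = 1)) : Btw 0 c (V5 c t s i j k l m) := by
  unfold V5
  rcases h with ⟨rfl, rfl⟩ | ⟨rfl, rfl, h⟩ | ⟨rfl, rfl, h⟩ | ⟨rfl, rfl, rfl⟩
  · refine ⟨[], [c], t :: (Z k ++ c :: (Z l ++ s :: Z m)), ?_, by simp⟩
    simp
  · rcases Nat.eq_zero_or_pos k with hk | hk
    · subst hk
      rcases Nat.eq_zero_or_pos l with hl | hl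
      · have hm : m = 1 := by omega
        subst hl hm
        exact ⟨[], [c, t, c, s], [], by simp, by simp⟩
      · have hl1 : l = 1 := by omega
        have hm : m = 0 := by omega
        subst hl1 hm
        exact ⟨[], [c, t, c], [s], by simp, by simp⟩
    · have hk1 : k = 1 := by omega
      have hl : l = 0 := by omega
      have hm : m = 0 := by omega
      subst hk1 hl hm
      exact ⟨[], [c, t], [c, s], by simp, by simp⟩
  · have hk : k = 0 := by omega
    subst hk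
    rcases Nat.eq_zero_or_pos l with hl | hl
    · have hm : m = 1 := by omega
      subst hl hm
      exact ⟨[c], [t, c, s], [], by simp, by simp⟩
    · have hl1 : l = 1 := by omega
      have hm : m = 0 := by omega
      subst hl1 hm
      exact ⟨[c], [t, c], [s], by simp, by simp⟩
  · rcases Nat.eq_zero_or_pos l with hl | hl
    · have hm : m = 1 := by omega
      subst hl hm
      exact ⟨[c, t], [c, s], [], by simp, by simp⟩
    · have hl1 : l = 1 := by omega
      have hm : m = 0 := by omega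
      subst hl1 hm
      exact ⟨[c, t], [c], [s], by simp, by simp⟩

theorem v5_count {c t s : ℕ} (hc : c ≠ 0) (ht : t ≠ 0) (hs : s ≠ 0) (i j k l m : ℕ) :
    (V5 c t s i j k l m).count 0 = i + (j + (k + (l + m))) := by
  unfold V5
  simp only [List.count_append, List.count_cons, List.count_replicate, beq_iff_eq, hc, ht, hs,
    if_false, beq_self_eq_true, if_true]
  omega

/-! ### `x²t ≈ tx²` -/

/-- `x²` is central -/
theorem sq_move {T : List ℕ} (h : RR β [0, 0, 2] [2, 0, 0]) (p q : List ℕ) :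
    RR β (p ++ 0 :: 0 :: (T ++ q)) (p ++ (T ++ 0 :: 0 :: q)) := by
  have h1 := rr_ctx (RR.sub (g3 [1] T) h) p q
  have e1 : ([0, 0, 2] : List ℕ).flatMap (g3 [1] T) = 0 :: 0 :: T := by simp [g3]
  have e2 : ([2, 0, 0] : List ℕ).flatMap (g3 [1] T) = T ++ [0, 0] := by simp [g3]
  rw [e1, e2] at h1
  simpa using h1

theorem z2 (i : ℕ) (L : List ℕ) : Z (i + 2) ++ L = Z i ++ 0 :: 0 :: L := by
  rw [z_add i 2, List.append_assoc]
  rfl

theorem z2' (i : ℕ) (L : List ℕ) : Z (i + 2) ++ L = 0 :: 0 :: (Z i ++ L) := rfl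

/-- `x²` from the second block to the front -/
theorem sq_k {i j k l : ℕ} (h : RR β [0, 0, 2] [2, 0, 0]) :
    RR β (V (i + 2) j k l) (V i j (k + 2) l) := by
  have h1 := sq_move (T := 1 :: (Z j ++ [2])) h (Z i) (Z k ++ 1 :: Z l)
  have e1 : Z i ++ 0 :: 0 :: (1 :: (Z j ++ [2]) ++ (Z k ++ 1 :: Z l)) = V (i + 2) j k l := by
    unfold V
    rw [z2 i]
    simp only [List.append_assoc, List.cons_append, List.nil_append]
  have e2 : Z i ++ (1 :: (Z j ++ [2]) ++ 0 :: 0 :: (Z k ++ 1 :: Z l)) = V i j (k + 2) l := by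
    unfold V
    rw [z2' k]
    simp only [List.append_assoc, List.cons_append, List.nil_append]
  rw [e1, e2] at h1
  exact h1

theorem sq_j {i j k l : ℕ} (h : RR β [0, 0, 2] [2, 0, 0]) :
    RR β (V (i + 2) j k l) (V i (j + 2) k l) := by
  have h1 := sq_move (T := [1]) h (Z i) (Z j ++ 2 :: (Z k ++ 1 :: Z l))
  have e1 : Z i ++ 0 :: 0 :: ([1] ++ (Z j ++ 2 :: (Z k ++ 1 :: Z l))) = V (i + 2) j k l := by
    unfold V
    rw [z2 i]
    simp only [List.append_assoc, List.cons_append, List.nil_append]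
  have e2 : Z i ++ ([1] ++ 0 :: 0 :: (Z j ++ 2 :: (Z k ++ 1 :: Z l))) = V i (j + 2) k l := by
    unfold V
    rw [z2' j]
    simp only [List.append_assoc, List.cons_append, List.nil_append]
  rw [e1, e2] at h1
  exact h1

theorem sq_l {i j k l : ℕ} (h : RR β [0, 0, 2] [2, 0, 0]) :
    RR β (V (i + 2) j k l) (V i j k (l + 2)) := by
  have h1 := sq_move (T := 1 :: (Z j ++ 2 :: (Z k ++ [1]))) h (Z i) (Z l)
  have e1 : Z i ++ 0 :: 0 :: (1 :: (Z j ++ 2 :: (Z k ++ [1])) ++ Z l) = V (i + 2) j k l := by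
    unfold V
    rw [z2 i]
    simp only [List.append_assoc, List.cons_append, List.nil_append]
  have e2 : Z i ++ (1 :: (Z j ++ 2 :: (Z k ++ [1])) ++ 0 :: 0 :: Z l) = V i j k (l + 2) := by
    unfold V
    have e0 : Z (l + 2) = 0 :: 0 :: Z l := rfl
    rw [e0]
    simp only [List.append_assoc, List.cons_append, List.nil_append]
  rw [e1, e2] at h1
  exact h1

/-! ### the identity for kind A -/

theorem bwA : bw [] [0] 1 = V5 1 2 5 1 1 0 0 0 := by decide

theorem bwB : bw [0] [] 1 = V5 1 5 2 0 0 1 1 0 := by decide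

/-- a word which is not thin -/
theorem witA (H : LL n β) : ∃ i j k l m, RR β (V5 1 2 5 1 1 0 0 0) (V5 1 2 5 i j k l m) ∧
    ¬ (i + (j + (k + (l + m))) = 2 ∧ Btw 0 1 (V5 1 2 5 i j k l m)) := by
  obtain ⟨w', hw, hn⟩ := Pool.Agent.MWD.H11.n2tF β H.md H.iso [] [0] 1 (le_refl 1)
    (List.Perm.refl _)
  rw [bwA] at hw
  obtain ⟨i, j, k, l, m, rfl⟩ := v5_shape H.iso (c := 1) (t := 2) (s := 5) (by omega) (by omega)
    (by omega) (by decide) hw
  refine ⟨i, j, k, l, m, hw, ?_⟩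
  rintro ⟨h1, h2⟩
  apply hn
  refine ⟨?_, ?_⟩
  · rw [v5_count (by omega) (by omega) (by omega)]
    exact h1
  · intro e he
    have he0 : e = 0 := by omega
    subst he0
    exact h2

theorem witB (H : LL n β) : ∃ i j k l m, RR β (V5 1 5 2 0 0 1 1 0) (V5 1 5 2 i j k l m) ∧
    ¬ (i + (j + (k + (l + m))) = 2 ∧ Btw 0 1 (V5 1 5 2 i j k l m)) := by
  obtain ⟨w', hw, hn⟩ := Pool.Agent.MWD.H11.n2tF β H.md H.iso [0] [] 1 (le_refl 1)
    (List.Perm.refl _)
  rw [bwB] at hw
  obtain ⟨i, j, k, l, m, rfl⟩ := v5_shape H.iso (c := 1) (t := 5) (s := 2) (by omega) (by omega)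
    (by omega) (by decide) hw
  refine ⟨i, j, k, l, m, hw, ?_⟩
  rintro ⟨h1, h2⟩
  apply hn
  refine ⟨?_, ?_⟩
  · rw [v5_count (by omega) (by omega) (by omega)]
    exact h1
  · intro e he
    have he0 : e = 0 := by omega
    subst he0
    exact h2

/-- a word which is not half thin -/
theorem halfA (H : LL n β) : ∃ i j k l, RR β (V 1 1 0 0) (V i j k l) ∧
    ¬ (i = 1 ∧ 1 ≤ j ∧ k = 0 ∧ l = 0) := by
  obtain ⟨w', hw, hn⟩ := n2q H.md H.iso (P := []) (Q := [0]) (m := 1) (le_refl 1)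
    (List.Perm.refl _)
  rw [bwA] at hw
  obtain ⟨i, j, k, l, m, rfl⟩ := v5_shape H.iso (c := 1) (t := 2) (s := 5) (by omega) (by omega)
    (by omega) (by decide) hw
  refine ⟨i, j, k, l + m, v5_A hw, ?_⟩
  rintro ⟨rfl, h1, rfl, h2⟩
  have hl : l = 0 := by omega
  have hm : m = 0 := by omega
  subst hl hm
  apply hn
  refine ⟨j, h1, ?_⟩
  unfold V5
  simp [Wm, Bw, zs]

/-- **the identity for kind A** -/
theorem ga (H : LL n β) : GA n β := by
  obtain ⟨i, j, k, l, h, hn⟩ := halfA H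
  by_cases h1 : i = 0 ∧ j = 0 ∧ 1 ≤ k ∧ 1 ≤ l
  · obtain ⟨rfl, rfl, hk, hl⟩ := h1
    -- `x²` is central
    have hd := del_a h
    have hsq : RR β [0, 0, 2] [2, 0, 0] := by
      have h2 := rr_left [2] (RR.filter (fun x => decide (x = 0)) hd)
      have e1 : [2] ++ (Z (1 + 1) ++ 2 :: Z (0 + 0)).filter (fun x => decide (x = 0)) =
          [2, 0, 0] := by decide
      have e2 : [2] ++ (Z (0 + 0) ++ 2 :: Z (k + l)).filter (fun x => decide (x = 0)) =
          2 :: Z (k + l) := by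
        rw [List.filter_append, List.filter_cons_of_neg (by decide), z_filter0, z_filter0]
        rfl
      rw [e1, e2] at h2
      exact RR.tr hd h2.symm
    by_cases hk2 : 2 ≤ k
    · obtain ⟨k', rfl⟩ : ∃ k', k = k' + 2 := ⟨k - 2, by omega⟩
      exact gA_i H (RR.tr h (sq_k hsq).symm) (by omega)
    by_cases hl2 : 2 ≤ l
    · obtain ⟨l', rfl⟩ : ∃ l', l = l' + 2 := ⟨l - 2, by omega⟩
      exact gA_i H (RR.tr h (sq_l hsq).symm) (by omega)
    obtain ⟨i', j', k', l', m', hw, hn'⟩ := witA H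
    have hw' := v5_A hw
    by_cases c1 : i' = 1 ∧ 1 ≤ j' ∧ k' = 0 ∧ l' + m' = 0
    · obtain ⟨rfl, hj, rfl, hlm⟩ := c1
      by_cases hj2 : 2 ≤ j'
      · obtain ⟨j'', rfl⟩ : ∃ j'', j' = j'' + 2 := ⟨j' - 2, by omega⟩
        exact gA_i H (RR.tr hw' (sq_j hsq).symm) (by omega)
      · exfalso
        apply hn'
        refine ⟨by omega, btw_of (by omega) (Or.inl ⟨rfl, by omega⟩)⟩
    by_cases c2 : i' = 0 ∧ j' = 0 ∧ 1 ≤ k' ∧ 1 ≤ l' + m'
    · obtain ⟨rfl, rfl, hk', hl'⟩ := c2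
      by_cases hk2' : 2 ≤ k'
      · obtain ⟨k'', rfl⟩ : ∃ k'', k' = k'' + 2 := ⟨k' - 2, by omega⟩
        exact gA_i H (RR.tr hw' (sq_k hsq).symm) (by omega)
      by_cases hl2' : 2 ≤ l' + m'
      · obtain ⟨l'', hl''⟩ : ∃ l'', l' + m' = l'' + 2 := ⟨l' + m' - 2, by omega⟩
        rw [hl''] at hw'
        exact gA_i H (RR.tr hw' (sq_l hsq).symm) (by omega)
      exfalso
      apply hn'
      refine ⟨by omega, btw_of (by omega)
        (Or.inr (Or.inr (Or.inr ⟨rfl, rfl, by omega⟩)))⟩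
    · exact gA H hw' (fun hh => c1 hh) (fun hh => c2 hh)
  · exact gA H h hn h1

end Pool.Agent.MWX
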