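import Pool.Agent.Helper57_MWX.Loc
import Pool.Agent.MVO.Split

/-!
# Two letter facts of the world with `xy t xy ≈ yx t xy` (block MWX)

`hb : BL β → HB β`: the finite list `BL` implies that two words with two multiple letters and the
same shapes are related if they have the same state in the only common block.
-/

namespace Pool.Agent.MWX

open Pool.Agent.Helper14_MV Pool.Agent.Helper2_MV Pool.Agent.MVO Pool.Agent.MWL Pool.Agent.MWS
  Pool.Agent.MWF Pool.Agent.MWN

variable {β : FIC}

/-! ### lists with two letters -/

theorem sorted_of {x y : ℕ} (hxy : x ≠ y) (w : List ℕ) (hw : ∀ c ∈ w, c = x ∨ c = y)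
    (h : ¬ List.Sublist [y, x] w) :
    w = List.replicate (w.count x) x ++ List.replicate (w.count y) y := by
  induction w with
  | nil => rfl
  | cons c w ih =>
    have h2 := ih (fun d hd => hw d (by simp [hd])) (fun h' => h (h'.cons _))
    rcases hw c (by simp) with rfl | rfl
    · rw [List.count_cons_self, List.count_cons_of_ne hxy, List.replicate_succ, List.cons_append,
        ← h2]
    · have hx : x ∉ w := fun hx => h (List.Sublist.cons₂ _ (List.singleton_sublist.2 hx))
      have h0 : w.count x = 0 := List.count_eq_zero.2 hx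
      rw [h0] at h2
      rw [List.count_cons_self, List.count_cons_of_ne hxy.symm, h0, List.replicate_succ]
      simpa using h2

/-- a word with both letters contains an adjacent pair -/
theorem adj_pair {x y : ℕ} (hxy : x ≠ y) (w : List ℕ) (hw : ∀ c ∈ w, c = x ∨ c = y)
    (hx : x ∈ w) (hy : y ∈ w) :
    (∃ A B, w = A ++ x :: y :: B) ∨ (∃ A B, w = A ++ y :: x :: B) := by
  induction w with
  | nil => simp at hx
  | cons c w ih =>
    have hw' : ∀ d ∈ w, d = x ∨ d = y := fun d hd => hw d (by simp [hd])
    by_cases hxw : x ∈ w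
    · by_cases hyw : y ∈ w
      · rcases ih hw' hxw hyw with ⟨A, B, h⟩ | ⟨A, B, h⟩
        · exact Or.inl ⟨c :: A, B, by rw [h]; rfl⟩
        · exact Or.inr ⟨c :: A, B, by rw [h]; rfl⟩
      · have hc : c = y := by
          rcases List.mem_cons.1 hy with h | h
          · exact h.symm
          · exact absurd h hyw
        subst hc
        rcases w with _ | ⟨d, w⟩
        · simp at hxw
        · rcases hw' d (by simp) with rfl | rfl
          · exact Or.inr ⟨[], w, rfl⟩
          · exact absurd (by simp) hyw
    · have hc : c = x := by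
        rcases List.mem_cons.1 hx with h | h
        · exact h.symm
        · exact absurd h hxw
      subst hc
      have hyw : y ∈ w := by
        rcases List.mem_cons.1 hy with h | h
        · exact absurd h.symm hxy
        · exact h
      rcases w with _ | ⟨d, w⟩
      · simp at hyw
      · rcases hw' d (by simp) with rfl | rfl
        · exact absurd (by simp) hxw
        · exact Or.inl ⟨[], w, rfl⟩

/-! ### sorting in a context which allows exchanges -/

/-- `w` and `w'` are equivalent in the context `P _ S` -/
def QQ (β : FIC) (P S w w' : List ℕ) : Prop := RR β (P ++ (w ++ S)) (P ++ (w' ++ S))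

theorem QQ.tr {P S a b c : List ℕ} (h : QQ β P S a b) (h' : QQ β P S b c) : QQ β P S a c :=
  RR.tr h h'

theorem QQ.sy {P S a b : List ℕ} (h : QQ β P S a b) : QQ β P S b a := RR.symm h

theorem QQ.of {P S a b : List ℕ} (h : RR β a b) : QQ β P S a b := by
  have := rr_ctx h P S
  simpa [QQ] using this

theorem swap_ctx (H : BL β) {x y : ℕ} {P S : List ℕ}
    (hc : (∃ A B, P = A ++ x :: y :: B) ∨ (∃ A B, P = A ++ y :: x :: B) ∨
      (∃ A B, S = A ++ x :: y :: B) ∨ (∃ A B, S = A ++ y :: x :: B)) (u v : List ℕ) :
    QQ β P S (u ++ x :: y :: v) (u ++ y :: x :: v) := by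
  unfold QQ
  rcases hc with ⟨A, B, h⟩ | ⟨A, B, h⟩ | ⟨A, B, h⟩ | ⟨A, B, h⟩
  · have := rxc H A (v ++ S) (B ++ u) x y
    rw [h]; simpa using this
  · have := (rxc H A (v ++ S) (B ++ u) y x).symm
    rw [h]; simpa using this
  · have := lxc H (P ++ u) B (v ++ A) x y
    rw [h]; simpa using this
  · have := (lxc H (P ++ u) B (v ++ A) y x).symm
    rw [h]; simpa using this

theorem move_rep {x y : ℕ} {P S : List ℕ}
    (hs : ∀ u v, QQ β P S (u ++ x :: y :: v) (u ++ y :: x :: v)) (a : ℕ) (u v : List ℕ) :
    QQ β P S (u ++ y :: (List.replicate a x ++ v)) (u ++ (List.replicate a x ++ y :: v)) := by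
  induction a generalizing u with
  | zero => exact RR.refl _
  | succ a ih =>
    have h1 := (hs u (List.replicate a x ++ v)).sy
    have h2 := ih (u ++ [x])
    have h1' : QQ β P S (u ++ y :: (List.replicate (a + 1) x ++ v))
        (u ++ [x] ++ y :: (List.replicate a x ++ v)) := by
      simpa [List.replicate_succ, QQ] using h1
    have h2' : QQ β P S (u ++ [x] ++ y :: (List.replicate a x ++ v))
        (u ++ (List.replicate (a + 1) x ++ y :: v)) := by
      simpa [List.replicate_succ, QQ] using h2
    exact h1'.tr h2'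

theorem sort_ctx {x y : ℕ} (hxy : x ≠ y) {P S : List ℕ}
    (hs : ∀ u v, QQ β P S (u ++ x :: y :: v) (u ++ y :: x :: v)) (w : List ℕ)
    (hw : ∀ c ∈ w, c = x ∨ c = y) (u : List ℕ) :
    QQ β P S (u ++ w) (u ++ (List.replicate (w.count x) x ++ List.replicate (w.count y) y)) := by
  induction w generalizing u with
  | nil => exact RR.refl _
  | cons c w ih =>
    have h2 := ih (fun d hd => hw d (by simp [hd])) (u ++ [c])
    rcases hw c (by simp) with rfl | rfl
    · rw [List.count_cons_self, List.count_cons_of_ne hxy, List.replicate_succ]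
      simpa [QQ] using h2
    · rw [List.count_cons_self, List.count_cons_of_ne hxy.symm]
      have h3 := move_rep hs (w.count x) u (List.replicate (w.count c) c)
      have h2' : QQ β P S (u ++ c :: w) (u ++ c :: (List.replicate (w.count x) x ++
          List.replicate (w.count c) c)) := by simpa [QQ] using h2
      have h3' : QQ β P S (u ++ c :: (List.replicate (w.count x) x ++
          List.replicate (w.count c) c)) (u ++ (List.replicate (w.count x) x ++
          List.replicate (w.count c + 1) c)) := by simpa [List.replicate_succ] using h3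
      exact h2'.tr h3'

/-- equal capped counts -/
def Eqc (a a' : ℕ) : Prop := a = a' ∨ (2 ≤ a ∧ 2 ≤ a')

theorem cap_xy (H : BL β) {x y a a' b b' : ℕ} (ha : Eqc a a') (hb : Eqc b b') :
    RR β (List.replicate a x ++ List.replicate b y) (List.replicate a' x ++ List.replicate b' y) :=
  (rep_cap H x ha).append (rep_cap H y hb)

/-- `x^(p+1) y x^(q+1) ≈ x²yx²` if `y` occurs in the context -/
theorem mid_ctx (H : BL β) {x y : ℕ} {P S : List ℕ} (hy : y ∈ P ∨ y ∈ S) (p q : ℕ) :
    QQ β P S (List.replicate (p + 1) x ++ y :: List.replicate (q + 1) x) [x, x, y, x, x] := by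
  have h2 : RR β (List.replicate (p + 2) x ++ y :: List.replicate (q + 2) x) [x, x, y, x, x] := by
    have h := (rep_two H x p).append ((RR.refl (β := β) [y]).append (rep_two H x q))
    simpa using h
  refine QQ.tr ?_ (QQ.of h2)
  unfold QQ
  have e1 : ∀ T : List ℕ, List.replicate (p + 1) x ++ y :: (List.replicate (q + 1) x ++ T) =
      List.replicate p x ++ x :: y :: x :: (List.replicate q x ++ T) := by
    intro T
    rw [List.replicate_succ', List.replicate_succ]
    simp
  have e2 : ∀ T : List ℕ, List.replicate (p + 2) x ++ y :: (List.replicate (q + 2) x ++ T) =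
      List.replicate p x ++ x :: x :: y :: x :: x :: (List.replicate q x ++ T) := by
    intro T
    rw [List.replicate_succ', List.replicate_succ', List.replicate_succ, List.replicate_succ]
    simp
  rcases hy with hy | hy
  · obtain ⟨A, B, rfl⟩ := List.append_of_mem hy
    have h := h1dc H A (List.replicate q x ++ S) (B ++ List.replicate p x) x y
    have e1' := e1 S
    have e2' := e2 S
    have l1 : A ++ y :: B ++ (List.replicate (p + 1) x ++ y :: List.replicate (q + 1) x ++ S) =
        A ++ y :: (B ++ List.replicate p x ++ x :: y :: x :: (List.replicate q x ++ S)) := by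
      rw [List.append_assoc (List.replicate (p + 1) x), List.cons_append, e1']
      simp
    have l2 : A ++ y :: B ++ (List.replicate (p + 2) x ++ y :: List.replicate (q + 2) x ++ S) =
        A ++ y :: (B ++ List.replicate p x ++ x :: x :: y :: x :: x ::
          (List.replicate q x ++ S)) := by
      rw [List.append_assoc (List.replicate (p + 2) x), List.cons_append, e2']
      simp
    rw [l1, l2]; exact h
  · obtain ⟨A, B, rfl⟩ := List.append_of_mem hy
    have h := h1c H (P ++ List.replicate p x) B (List.replicate q x ++ A) x y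
    have e1' := e1 (A ++ y :: B)
    have e2' := e2 (A ++ y :: B)
    have l1 : P ++ (List.replicate (p + 1) x ++ y :: List.replicate (q + 1) x ++
        (A ++ y :: B)) = P ++ List.replicate p x ++ x :: y :: x ::
          (List.replicate q x ++ A ++ y :: B) := by
      rw [List.append_assoc (List.replicate (p + 1) x), List.cons_append, e1']
      simp
    have l2 : P ++ (List.replicate (p + 2) x ++ y :: List.replicate (q + 2) x ++
        (A ++ y :: B)) = P ++ List.replicate p x ++ x :: x :: y :: x :: x ::
          (List.replicate q x ++ A ++ y :: B) := by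
      rw [List.append_assoc (List.replicate (p + 2) x), List.cons_append, e2']
      simp
    rw [l1, l2]; exact h

/-- one block, the case of a single common block -/
theorem one_block (H : BL β) {P S w w' : List ℕ}
    (hw : ∀ c ∈ w, c = 0 ∨ c = 1) (hw' : ∀ c ∈ w', c = 0 ∨ c = 1)
    (h0 : Eqc (w.count 0) (w'.count 0)) (h1 : Eqc (w.count 1) (w'.count 1))
    (g0 : w.count 0 = 1 → 0 ∈ P ∨ 0 ∈ S) (g1 : w.count 1 = 1 → 1 ∈ P ∨ 1 ∈ S)
    (f0 : Fst false w ↔ Fst false w') (f1 : Fst true w ↔ Fst true w') : QQ β P S w w' := by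
  have n01 : (0 : ℕ) ≠ 1 := by decide
  by_cases c0 : Fst false w
  · have c0' := f0.1 c0
    have e := sorted_of n01 w hw (by simpa [Fst] using c0)
    have e' := sorted_of n01 w' hw' (by simpa [Fst] using c0')
    rw [e, e']
    exact QQ.of (cap_xy H h0 h1)
  by_cases c1 : Fst true w
  · have c1' := f1.1 c1
    have e := sorted_of n01.symm w (fun c hc => (hw c hc).symm) (by simpa [Fst] using c1)
    have e' := sorted_of n01.symm w' (fun c hc => (hw' c hc).symm) (by simpa [Fst] using c1')
    rw [e, e']
    exact QQ.of (cap_xy H h1 h0)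
  have c0' : ¬ Fst false w' := fun h => c0 (f0.2 h)
  have c1' : ¬ Fst true w' := fun h => c1 (f1.2 h)
  -- the sorted words are excluded
  have ex0 : ∀ v : List ℕ, ¬ Fst false v → ∀ a b, v ≠ List.replicate a 0 ++ List.replicate b 1 := by
    intro v hv a b e
    apply hv
    unfold Fst
    rw [e]
    intro h
    have hs : List.Pairwise (fun c d : ℕ => c ≤ d) (List.replicate a 0 ++ List.replicate b 1) := by
      rw [List.pairwise_append]
      refine ⟨List.pairwise_replicate.2 (Or.inr le_rfl), List.pairwise_replicate.2 (Or.inr le_rfl),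
        ?_⟩
      intro c hc d hd
      rw [List.eq_of_mem_replicate hc]
      exact Nat.zero_le _
    have := hs.sublist h
    simp at this
  have ex1 : ∀ v : List ℕ, ¬ Fst true v → ∀ a b, v ≠ List.replicate b 1 ++ List.replicate a 0 := by
    intro v hv a b e
    apply hv
    unfold Fst
    rw [e]
    intro h
    have hs : List.Pairwise (fun c d : ℕ => d ≤ c) (List.replicate b 1 ++ List.replicate a 0) := by
      rw [List.pairwise_append]
      refine ⟨List.pairwise_replicate.2 (Or.inr le_rfl), List.pairwise_replicate.2 (Or.inr le_rfl),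
        ?_⟩
      intro c hc d hd
      rw [List.eq_of_mem_replicate hd]
      exact Nat.zero_le _
    have := hs.sublist h
    simp at this
  have t := tt H n01 w hw
  have t' := tt H n01 w' hw'
  have cr : ∀ x y : ℕ, x ≠ y → ∀ p q, (List.replicate (p + 1) x ++ y ::
      List.replicate (q + 1) x).count y = 1 := by
    intro x y hxy p q
    simp [List.count_replicate, hxy]
  have cr2 : ∀ x y : ℕ, x ≠ y → ∀ p q, 2 ≤ (List.replicate (p + 1) x ++ y ::
      List.replicate (q + 1) x).count x := by
    intro x y hxy p q
    simp [List.count_cons, hxy.symm]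
    omega
  rcases t with ⟨a, b, e⟩ | ⟨a, b, e⟩ | ⟨p, q, e⟩ | ⟨p, q, e⟩ | ⟨k0, k1, e⟩
  · exact absurd e (ex0 w c0 a b)
  · exact absurd e (ex1 w c1 a b)
  · have e1 : w.count 1 = 1 := by rw [e]; exact cr 0 1 n01 p q
    have e0 : 2 ≤ w.count 0 := by rw [e]; exact cr2 0 1 n01 p q
    have hc := mid_ctx H (x := 0) (y := 1) (P := P) (S := S) (g1 e1) p q
    rcases t' with ⟨a, b, e'⟩ | ⟨a, b, e'⟩ | ⟨p', q', e'⟩ | ⟨p', q', e'⟩ | ⟨k0, k1, e'⟩
    · exact absurd e' (ex0 w' c0' a b)
    · exact absurd e' (ex1 w' c1' a b)
    · rw [e, e']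
      exact hc.tr (mid_ctx H (x := 0) (y := 1) (P := P) (S := S) (g1 e1) p' q').sy
    · exfalso
      have e2 : w'.count 0 = 1 := by rw [e']; exact cr 1 0 n01.symm p' q'
      unfold Eqc at h0; omega
    · exfalso
      unfold Eqc at h1; omega
  · have e1 : w.count 0 = 1 := by rw [e]; exact cr 1 0 n01.symm p q
    have e0 : 2 ≤ w.count 1 := by rw [e]; exact cr2 1 0 n01.symm p q
    have hc := mid_ctx H (x := 1) (y := 0) (P := P) (S := S) (g0 e1) p q
    rcases t' with ⟨a, b, e'⟩ | ⟨a, b, e'⟩ | ⟨p', q', e'⟩ | ⟨p', q', e'⟩ | ⟨k0, k1, e'⟩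
    · exact absurd e' (ex0 w' c0' a b)
    · exact absurd e' (ex1 w' c1' a b)
    · exfalso
      have e2 : w'.count 1 = 1 := by rw [e']; exact cr 0 1 n01 p' q'
      unfold Eqc at h1; omega
    · rw [e, e']
      exact hc.tr (mid_ctx H (x := 1) (y := 0) (P := P) (S := S) (g0 e1) p' q').sy
    · exfalso
      unfold Eqc at h0; omega
  · rcases t' with ⟨a, b, e'⟩ | ⟨a, b, e'⟩ | ⟨p', q', e'⟩ | ⟨p', q', e'⟩ | ⟨k0', k1', e'⟩
    · exact absurd e' (ex0 w' c0' a b)
    · exact absurd e' (ex1 w' c1' a b)
    · exfalso
      have e2 : w'.count 1 = 1 := by rw [e']; exact cr 0 1 n01 p' q'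
      unfold Eqc at h1; omega
    · exfalso
      have e2 : w'.count 0 = 1 := by rw [e']; exact cr 1 0 n01.symm p' q'
      unfold Eqc at h0; omega
    · exact QQ.of (RR.tr e e'.symm)

/-- a block without one of the letters -/
theorem pure_block (H : BL β) {P S w w' : List ℕ}
    (hw : ∀ c ∈ w, c = 0 ∨ c = 1) (hw' : ∀ c ∈ w', c = 0 ∨ c = 1)
    (h0 : Eqc (w.count 0) (w'.count 0)) (h1 : Eqc (w.count 1) (w'.count 1))
    (hn : 0 ∉ w ∨ 1 ∉ w) : QQ β P S w w' := by
  have n01 : (0 : ℕ) ≠ 1 := by decide
  have z : ∀ c : ℕ, Eqc (w.count c) (w'.count c) → c ∉ w → c ∉ w' := by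
    intro c hc hcw
    have : w.count c = 0 := List.count_eq_zero.2 hcw
    apply List.count_eq_zero.1
    unfold Eqc at hc; omega
  have e : w = List.replicate (w.count 0) 0 ++ List.replicate (w.count 1) 1 := by
    apply sorted_of n01 w hw
    intro h
    rcases hn with hn | hn
    · exact hn (h.subset (by simp))
    · exact hn (h.subset (by simp))
  have e' : w' = List.replicate (w'.count 0) 0 ++ List.replicate (w'.count 1) 1 := by
    apply sorted_of n01 w' hw'
    intro h
    rcases hn with hn | hn
    · exact z 0 h0 hn (h.subset (by simp))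
    · exact z 1 h1 hn (h.subset (by simp))
  rw [e, e']
  exact QQ.of (cap_xy H h0 h1)

/-! ### words in blocks -/

theorem sh_mem {k : ℕ} {U V : ℕ → List ℕ} {c : ℕ} (h : Sh k (ty U c) (ty V c)) {j : ℕ}
    (hj : j ≤ k) : c ∈ U j ↔ c ∈ V j := by
  have := h j hj
  unfold ty at this
  rw [← List.count_pos_iff, ← List.count_pos_iff]
  omega

theorem sh_symm {k : ℕ} {a b : ℕ → ℕ} (h : Sh k a b) : Sh k b a := by
  intro j hj
  rcases h j hj with h | h
  · exact Or.inl h.symm
  · exact Or.inr ⟨h.2, h.1⟩

/-- the blocks before `n` are taken from `V`, the others from `U` -/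
def mixB (n : ℕ) (U V : ℕ → List ℕ) : ℕ → List ℕ := fun j => if j < n then V j else U j

theorem mix_step (k n : ℕ) (hn : n ≤ k) (U V : ℕ → List ℕ) :
    asm k (mixB n U V) = pre (mixB n U V) n ++ (U n ++ suf (mixB n U V) n (k - n)) ∧
    asm k (mixB (n + 1) U V) = pre (mixB n U V) n ++ (V n ++ suf (mixB n U V) n (k - n)) := by
  constructor
  · rw [asm_split hn]
    simp [mixB]
  · rw [asm_split hn]
    rw [pre_congr (B' := mixB n U V) (fun j hj => by
        simp only [mixB]; rw [if_pos (by omega), if_pos hj]),
      suf_congr (B' := mixB n U V) (fun j h1 _ => by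
        simp only [mixB]; rw [if_neg (by omega), if_neg (by omega)])]
    simp [mixB]

theorem hst_of (H : BL β) : Hst β := by
  intro k U V hU hV tU tV s0 s1 hst
  have n01 : (0 : ℕ) ≠ 1 := by decide
  have key : ∀ n ≤ k + 1, RR β (asm k U) (asm k (mixB n U V)) := by
    intro n
    induction n with
    | zero =>
      intro _
      have : asm k (mixB 0 U V) = asm k U := asm_congr (fun j _ => by simp [mixB])
      rw [this]; exact RR.refl _
    | succ n ih =>
      intro hn
      have hnk : n ≤ k := by omega
      refine RR.tr (ih (by omega)) ?_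
      obtain ⟨e1, e2⟩ := mix_step k n hnk U V
      rw [e1, e2]
      set B := mixB n U V with hB
      -- membership in the blocks of B
      have hBm : ∀ c, c = 0 ∨ c = 1 → ∀ j ≤ k, (c ∈ B j ↔ c ∈ U j) := by
        intro c hc j hj
        by_cases h : j < n
        · have : B j = V j := by simp [hB, mixB, h]
          rw [this]
          rcases hc with rfl | rfl
          · exact (sh_mem s0 hj).symm
          · exact (sh_mem s1 hj).symm
        · have : B j = U j := by simp [hB, mixB, h]
          rw [this]
      have hBt : ∀ j ≤ k, ∀ c ∈ B j, c = 0 ∨ c = 1 := by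
        intro j hj c hc
        by_cases h : j < n
        · have : B j = V j := by simp [hB, mixB, h]
          rw [this] at hc; exact tV j hj c hc
        · have : B j = U j := by simp [hB, mixB, h]
          rw [this] at hc; exact tU j hj c hc
      have hw := tU n hnk
      have hw' := tV n hnk
      have e0 : Eqc ((U n).count 0) ((V n).count 0) := s0 n hnk
      have e1' : Eqc ((U n).count 1) ((V n).count 1) := s1 n hnk
      change QQ β (pre B n) (suf B n (k - n)) (U n) (V n)
      by_cases hc : 0 ∉ U n ∨ 1 ∉ U n
      · exact pure_block H hw hw' e0 e1' hc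
      push_neg at hc
      by_cases ho : ∀ j ≤ k, j ≠ n → 0 ∉ U j ∨ 1 ∉ U j
      · -- the only common block
        obtain ⟨f0, f1⟩ := hst n hnk ho
        have mul : ∀ c, c = 0 ∨ c = 1 → c ∈ U n → (U n).count c = 1 →
            c ∈ pre B n ∨ c ∈ suf B n (k - n) := by
          intro c hc01 hcU hc1
          have hm := hU.ml n hnk c hcU
          -- another block with c
          by_contra hcon
          push_neg at hcon
          have : ∀ j ≤ k, j ≠ n → (U j).count c = 0 := by
            intro j hj hjn
            rw [List.count_eq_zero]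
            intro hcj
            have hcB : c ∈ B j := (hBm c hc01 j hj).2 hcj
            rcases Nat.lt_or_gt_of_ne hjn with h | h
            · exact hcon.1 (mem_pre.2 (Or.inr ⟨j, h, hcB⟩))
            · exact hcon.2 (mem_suf.2 (Or.inr ⟨j, h, by omega, hcB⟩))
          have hs : deg k (fun j => (U j).count c) = (U n).count c := by
            unfold deg
            rw [Finset.sum_eq_single n]
            · intro j hj hjn
              exact this j (by have := Finset.mem_range.1 hj; omega) hjn
            · intro h
              exact absurd (Finset.mem_range.2 (by omega)) h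
          rw [hs] at hm
          omega
        exact one_block H hw hw' e0 e1' (fun h => mul 0 (Or.inl rfl) hc.1 h)
          (fun h => mul 1 (Or.inr rfl) hc.2 h) f0 f1
      · -- another common block
        push_neg at ho
        obtain ⟨j, hj, hjn, hj0, hj1⟩ := ho
        have g0 := (hBm 0 (Or.inl rfl) j hj).2 hj0
        have g1 := (hBm 1 (Or.inr rfl) j hj).2 hj1
        have hp := adj_pair n01 (B j) (hBt j hj) g0 g1
        have hctx : (∃ A C, pre B n = A ++ 0 :: 1 :: C) ∨ (∃ A C, pre B n = A ++ 1 :: 0 :: C) ∨
            (∃ A C, suf B n (k - n) = A ++ 0 :: 1 :: C) ∨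
            (∃ A C, suf B n (k - n) = A ++ 1 :: 0 :: C) := by
          rcases Nat.lt_or_gt_of_ne hjn with h | h
          · obtain ⟨R, hR⟩ := pre_split (B := B) h
            rcases hp with ⟨A, C, hAC⟩ | ⟨A, C, hAC⟩
            · exact Or.inl ⟨pre B j ++ A, C ++ R, by rw [hR, hAC]; simp⟩
            · exact Or.inr (Or.inl ⟨pre B j ++ A, C ++ R, by rw [hR, hAC]; simp⟩)
          · obtain ⟨R, R', hR⟩ := suf_split (B := B) (i := n) (j := j) (r := k - n) h (by omega)
            rcases hp with ⟨A, C, hAC⟩ | ⟨A, C, hAC⟩
            · exact Or.inr (Or.inr (Or.inl ⟨R ++ A, C ++ R', by rw [hR, hAC]; simp⟩))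
            · exact Or.inr (Or.inr (Or.inr ⟨R ++ A, C ++ R', by rw [hR, hAC]; simp⟩))
        have hs : ∀ u v, QQ β (pre B n) (suf B n (k - n)) (u ++ 0 :: 1 :: v) (u ++ 1 :: 0 :: v) :=
          fun u v => swap_ctx H hctx u v
        have q1 := sort_ctx n01 hs (U n) hw []
        have q2 := sort_ctx n01 hs (V n) hw' []
        exact (QQ.tr q1 (QQ.of (cap_xy H e0 e1'))).tr q2.sy
  have h := key (k + 1) (le_refl _)
  have e : asm k (mixB (k + 1) U V) = asm k V :=
    asm_congr (fun j hj => by simp only [mixB]; rw [if_pos (by omega)])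
  rw [e] at h
  exact h

/-- **HB**: the two letter facts of base (h) -/
theorem hb (H : BL β) : HB β := ⟨H.ap, H.rr, hst_of H⟩

end Pool.Agent.MWX
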