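import Pool.Agent.Helper57_MWX.HbS
import Pool.Agent.MWNP.Defs

/-!
# The two letter base of the LR world, all periods, if the residues cross (block MWX)

`hbn : LL n β → (x³yxty ≈ x²yx²ty) → (ytxyx³ ≈ ytx²yx²) → HBP n β`.
-/

set_option autoImplicit false

namespace Pool.Agent.MWX

open Pool.Agent.Helper14_MV Pool.Agent.Helper2_MV Pool.Agent.MVO Pool.Agent.MWL Pool.Agent.MWS
  Pool.Agent.MWF Pool.Agent.MWN Pool.Agent.MWNP

variable {β : FIC} {n : ℕ}

/-! ### crossing -/

theorem a1 (H : LL n β) (p q : ℕ) : RR β (V (p + 1) (q + 1) 0 0) (V (p + 1 + n) (q + 1) 0 0) := by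
  have h := v_left p (v_mid q 0 (ga H))
  have e1 : 1 + q = q + 1 := Nat.add_comm 1 q
  have e2 : p + (n + 1) = p + 1 + n := by omega
  rw [e1, e2] at h
  exact h

theorem a2 (H : LL n β) (p q : ℕ) : RR β (V (p + 1) (q + 1) 0 0) (V (p + 1) (q + 1 + n) 0 0) := by
  have h0 := a1 H 0 n
  have e0 : 0 + 1 + n = n + 1 := by omega
  rw [e0] at h0
  have h1 : RR β (V 1 1 0 0) (V 1 (n + 1) 0 0) := RR.tr (h1n H) h0.symm
  have h := v_left p (v_mid q 0 h1)
  have e1 : 1 + q = q + 1 := Nat.add_comm 1 q
  have e2 : n + 1 + q = q + 1 + n := by omega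
  rw [e1, e2] at h
  exact h

theorem a3 (H : LL n β) (hc : RR β (V 3 1 0 0) (V 2 2 0 0)) (p q : ℕ) :
    RR β (V (p + 2) (q + 1) 0 0) (V (p + 1) (q + 2) 0 0) := by
  have hn := H.pos
  have h1 := a1 H (p + 1) q
  have h2 := v_left (p + n - 1) (v_mid q 0 hc)
  have h3 := (a1 H p (q + 1)).symm
  have e1 : p + n - 1 + 3 = p + 1 + 1 + n := by omega
  have e2 : p + n - 1 + 2 = p + 1 + n := by omega
  have e3 : 1 + q = q + 1 := Nat.add_comm 1 q
  have e4 : 2 + q = q + 1 + 1 := by omega
  rw [e1, e2, e3, e4] at h2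
  exact RR.tr h1 (RR.tr h2 h3)

theorem a4 (H : LL n β) (hc : RR β (V 3 1 0 0) (V 2 2 0 0)) (p q : ℕ) :
    RR β (V (p + 1) (q + 1) 0 0) (V 1 (p + q + 1) 0 0) := by
  induction p generalizing q with
  | zero =>
    have e : 0 + q + 1 = q + 1 := by omega
    rw [e]
    exact RR.refl _
  | succ p ih =>
    have h1 := a3 H hc p q
    have h2 := ih (q + 1)
    have e : p + (q + 1) + 1 = p + 1 + q + 1 := by omega
    rw [e] at h2
    exact RR.tr h1 h2

theorem a5 (H : LL n β) {s s' : ℕ} (h : s ≡ s' [MOD n]) :
    RR β (V 1 (s + 1) 0 0) (V 1 (s' + 1) 0 0) := by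
  have key : ∀ s m, RR β (V 1 (s + 1) 0 0) (V 1 (s + n * m + 1) 0 0) := by
    intro s m
    induction m with
    | zero => exact RR.refl _
    | succ m ih =>
      have h1 := a2 H 0 (s + n * m)
      have e : s + n * m + 1 + n = s + n * (m + 1) + 1 := by rw [Nat.mul_succ]; omega
      rw [e] at h1
      exact RR.tr ih h1
  rcases Nat.le_total s s' with hs | hs
  · obtain ⟨m, hm⟩ := (Nat.modEq_iff_dvd' hs).1 h
    have e : s' = s + n * m := by omega
    rw [e]
    exact key s m
  · obtain ⟨m, hm⟩ := (Nat.modEq_iff_dvd' hs).1 h.symm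
    have e : s = s' + n * m := by omega
    rw [e]
    exact (key s' m).symm

theorem mA (H : LL n β) (hc : RR β (V 3 1 0 0) (V 2 2 0 0)) {p q p' q' : ℕ}
    (h : p + q ≡ p' + q' [MOD n]) : RR β (V (p + 1) (q + 1) 0 0) (V (p' + 1) (q' + 1) 0 0) :=
  RR.tr (a4 H hc p q) (RR.tr (a5 H h) (a4 H hc p' q').symm)

theorem b1 (H : LL n β) (p q : ℕ) : RR β (V 0 0 (p + 1) (q + 1)) (V 0 0 (p + 1 + n) (q + 1)) := by
  have h := v_mid 0 p (v_right q (gb H))
  have e1 : 1 + q = q + 1 := Nat.add_comm 1 q
  have e2 : p + (n + 1) = p + 1 + n := by omega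
  rw [e1, e2] at h
  exact h

theorem b2 (H : LL n β) (p q : ℕ) : RR β (V 0 0 (p + 1) (q + 1)) (V 0 0 (p + 1) (q + 1 + n)) := by
  have h0 := b1 H 0 n
  have e0 : 0 + 1 + n = n + 1 := by omega
  rw [e0] at h0
  have h1 : RR β (V 0 0 1 1) (V 0 0 1 (n + 1)) := RR.tr (h1dn H) h0.symm
  have h := v_mid 0 p (v_right q h1)
  have e1 : 1 + q = q + 1 := Nat.add_comm 1 q
  have e2 : n + 1 + q = q + 1 + n := by omega
  rw [e1, e2] at h
  exact h

theorem b3 (H : LL n β) (hc : RR β (V 0 0 1 3) (V 0 0 2 2)) (p q : ℕ) :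
    RR β (V 0 0 (p + 2) (q + 1)) (V 0 0 (p + 1) (q + 2)) := by
  have hn := H.pos
  have h1 := b2 H (p + 1) q
  have h2 := (v_mid 0 p (v_right (q + n - 1) hc)).symm
  have h3 := (b2 H p (q + 1)).symm
  have e1 : 3 + (q + n - 1) = q + 1 + 1 + n := by omega
  have e2 : 2 + (q + n - 1) = q + 1 + n := by omega
  rw [e1, e2] at h2
  exact RR.tr h1 (RR.tr h2 h3)

theorem b4 (H : LL n β) (hc : RR β (V 0 0 1 3) (V 0 0 2 2)) (p q : ℕ) :
    RR β (V 0 0 (p + 1) (q + 1)) (V 0 0 1 (p + q + 1)) := by
  induction p generalizing q with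
  | zero =>
    have e : 0 + q + 1 = q + 1 := by omega
    rw [e]
    exact RR.refl _
  | succ p ih =>
    have h1 := b3 H hc p q
    have h2 := ih (q + 1)
    have e : p + (q + 1) + 1 = p + 1 + q + 1 := by omega
    rw [e] at h2
    exact RR.tr h1 h2

theorem b5 (H : LL n β) {s s' : ℕ} (h : s ≡ s' [MOD n]) :
    RR β (V 0 0 1 (s + 1)) (V 0 0 1 (s' + 1)) := by
  have key : ∀ s m, RR β (V 0 0 1 (s + 1)) (V 0 0 1 (s + n * m + 1)) := by
    intro s m
    induction m with
    | zero => exact RR.refl _
    | succ m ih =>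
      have h1 := b2 H 0 (s + n * m)
      have e : s + n * m + 1 + n = s + n * (m + 1) + 1 := by rw [Nat.mul_succ]; omega
      rw [e] at h1
      exact RR.tr ih h1
  rcases Nat.le_total s s' with hs | hs
  · obtain ⟨m, hm⟩ := (Nat.modEq_iff_dvd' hs).1 h
    have e : s' = s + n * m := by omega
    rw [e]
    exact key s m
  · obtain ⟨m, hm⟩ := (Nat.modEq_iff_dvd' hs).1 h.symm
    have e : s = s' + n * m := by omega
    rw [e]
    exact (key s' m).symm

theorem mB (H : LL n β) (hc : RR β (V 0 0 1 3) (V 0 0 2 2)) {p q p' q' : ℕ}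
    (h : p + q ≡ p' + q' [MOD n]) : RR β (V 0 0 (p + 1) (q + 1)) (V 0 0 (p' + 1) (q' + 1)) :=
  RR.tr (b4 H hc p q) (RR.tr (b5 H h) (b4 H hc p' q').symm)

/-! ### in a context -/

/-- equal counts, or two counts of at least `2` which are congruent -/
def Eqn (n a a' : ℕ) : Prop := a = a' ∨ (2 ≤ a ∧ 2 ≤ a' ∧ a ≡ a' [MOD n])

theorem rep_sub {g : ℕ → List ℕ} {x : ℕ} (i : ℕ) (h : g 0 = [x]) :
    (Z i).flatMap g = List.replicate i x := by
  induction i with
  | zero => rfl
  | succ i ih =>
    have e : Z (i + 1) = 0 :: Z i := rfl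
    rw [e, List.flatMap_cons, ih, h]
    rfl

theorem rep_capn (H : LL n β) (x : ℕ) {a a' : ℕ} (h : Eqn n a a') :
    RR β (List.replicate a x) (List.replicate a' x) := by
  rcases h with h | ⟨h1, h2, h3⟩
  · rw [h]; exact RR.refl _
  · have h4 := RR.sub (fun _ => [x]) (zcap H h1 h2 h3)
    rw [rep_sub _ rfl, rep_sub _ rfl] at h4
    exact h4

theorem cap_xyn (H : LL n β) {x y a a' b b' : ℕ} (ha : Eqn n a a') (hb : Eqn n b b') :
    RR β (List.replicate a x ++ List.replicate b y) (List.replicate a' x ++ List.replicate b' y) :=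
  (rep_capn H x ha).append (rep_capn H y hb)

theorem swap_n (H : LL n β) {x y : ℕ} {P S : List ℕ}
    (hc : (∃ A B, P = A ++ x :: y :: B) ∨ (∃ A B, P = A ++ y :: x :: B) ∨
      (∃ A B, S = A ++ x :: y :: B) ∨ (∃ A B, S = A ++ y :: x :: B)) (u v : List ℕ) :
    QQ β P S (u ++ x :: y :: v) (u ++ y :: x :: v) := by
  unfold QQ
  rcases hc with ⟨A, B, h⟩ | ⟨A, B, h⟩ | ⟨A, B, h⟩ | ⟨A, B, h⟩
  · have := rxg H A (v ++ S) (B ++ u) x y
    rw [h]; simpa using this
  · have := (rxg H A (v ++ S) (B ++ u) y x).symm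
    rw [h]; simpa using this
  · have := lxg H (P ++ u) B (v ++ A) x y
    rw [h]; simpa using this
  · have := (lxg H (P ++ u) B (v ++ A) y x).symm
    rw [h]; simpa using this

/-- a substitution -/
def s3n (x y : ℕ) (t : List ℕ) : ℕ → List ℕ := fun c => if c = 0 then [x] else if c = 1 then [y]
  else t

theorem v_sub3 (x y : ℕ) (t : List ℕ) (i j k l : ℕ) : (V i j k l).flatMap (s3n x y t) =
    List.replicate i x ++ (y :: (List.replicate j x ++ (t ++ (List.replicate k x ++
      (y :: List.replicate l x))))) := by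
  unfold V
  rw [List.flatMap_append, List.flatMap_cons, List.flatMap_append, List.flatMap_cons,
    List.flatMap_append, List.flatMap_cons, rep_sub i (x := x) rfl, rep_sub j (x := x) rfl,
    rep_sub k (x := x) rfl, rep_sub l (x := x) rfl]
  simp [s3n]

/-- `x^(p+1) y x^(q+1) ≈ x^(p'+1) y x^(q'+1)` if `y` occurs in the context -/
theorem mid_n (H : LL n β) (hc : RR β (V 3 1 0 0) (V 2 2 0 0))
    (hc' : RR β (V 0 0 1 3) (V 0 0 2 2)) {x y : ℕ} {P S : List ℕ} (hy : y ∈ P ∨ y ∈ S)
    {p q p' q' : ℕ} (h : p + q ≡ p' + q' [MOD n]) :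
    QQ β P S (List.replicate (p + 1) x ++ y :: List.replicate (q + 1) x)
      (List.replicate (p' + 1) x ++ y :: List.replicate (q' + 1) x) := by
  unfold QQ
  rcases hy with hy | hy
  · obtain ⟨A, B, rfl⟩ := List.append_of_mem hy
    have h1 := rr_ctx (RR.sub (s3n x y B) (mB H hc' h)) A S
    rw [v_sub3, v_sub3] at h1
    simpa using h1
  · obtain ⟨A, B, rfl⟩ := List.append_of_mem hy
    have h1 := rr_ctx (RR.sub (s3n x y A) (mA H hc h)) P B
    rw [v_sub3, v_sub3] at h1
    simpa using h1

/-! ### words in two letters with at least two occurrences -/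

theorem first_bd {x y : ℕ} (w : List ℕ) (hw : ∀ c ∈ w, c = x ∨ c = y) (hy : y ∈ w) :
    ∃ p v, w = List.replicate p x ++ y :: v := by
  induction w with
  | nil => simp at hy
  | cons c w ih =>
    by_cases hc : c = y
    · exact ⟨0, w, by rw [hc]; rfl⟩
    · have hcx : c = x := by
        rcases hw c (by simp) with h | h
        · exact h
        · exact absurd h hc
      have hy' : y ∈ w := by
        rcases List.mem_cons.1 hy with h | h
        · exact absurd h.symm hc
        · exact h
      obtain ⟨p, v, e⟩ := ih (fun d hd => hw d (by simp [hd])) hy'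
      exact ⟨p + 1, v, by rw [e, hcx]; rfl⟩

theorem not_sub_sorted {x y : ℕ} (hxy : x ≠ y) (a b : ℕ) :
    ¬ List.Sublist [y, x] (List.replicate a x ++ List.replicate b y) := by
  intro h
  have hs : List.Pairwise (fun c d : ℕ => ¬ (c = y ∧ d = x))
      (List.replicate a x ++ List.replicate b y) := by
    rw [List.pairwise_append]
    refine ⟨List.pairwise_replicate.2 (Or.inr (by rintro ⟨h1, -⟩; exact hxy h1)),
      List.pairwise_replicate.2 (Or.inr (by rintro ⟨-, h1⟩; exact hxy h1.symm)), ?_⟩
    intro c hc d hd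
    rw [List.eq_of_mem_replicate hc]
    rintro ⟨h1, -⟩
    exact hxy h1
  have := hs.sublist h
  simp at this

theorem eq_rep {x y : ℕ} {v : List ℕ} (hv : ∀ c ∈ v, c = x ∨ c = y) (hx : x ∉ v) :
    v = List.replicate v.length y := by
  apply List.eq_replicate_of_mem
  intro c hc
  rcases hv c hc with h | h
  · exact absurd (h ▸ hc) hx
  · exact h

theorem cnt_rep_ne {x y : ℕ} (hxy : x ≠ y) (p : ℕ) : (List.replicate p x).count y = 0 := by
  rw [List.count_eq_zero]
  intro h
  exact hxy (List.eq_of_mem_replicate h).symm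

/-- sorting in a context with an adjacent pair -/
theorem sortn (H : LL n β) {x y : ℕ} (hxy : x ≠ y) {P S : List ℕ}
    (hc : (∃ A B, P = A ++ x :: y :: B) ∨ (∃ A B, P = A ++ y :: x :: B) ∨
      (∃ A B, S = A ++ x :: y :: B) ∨ (∃ A B, S = A ++ y :: x :: B)) {u v : List ℕ}
    (hu : ∀ c ∈ u, c = x ∨ c = y) (hv : ∀ c ∈ v, c = x ∨ c = y) (h1 : u.count x = v.count x)
    (h2 : u.count y = v.count y) : QQ β P S u v := by
  have q1 := sort_ctx hxy (fun a b => swap_n H hc a b) u hu []
  have q2 := sort_ctx hxy (fun a b => swap_n H hc a b) v hv []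
  rw [h1, h2] at q1
  exact QQ.tr q1 q2.sy

/-- the canonical word -/
theorem canon (H : LL n β) {x y : ℕ} (hxy : x ≠ y) {P S w : List ℕ}
    (hw : ∀ c ∈ w, c = x ∨ c = y) (s1 : List.Sublist [y, x] w) (s2 : List.Sublist [x, y] w)
    (hx : 2 ≤ w.count x) (hy : 2 ≤ w.count y) :
    QQ β P S w (x :: y :: (List.replicate (w.count x - 1) x ++
      List.replicate (w.count y - 1) y)) := by
  have hxm : x ∈ w := List.count_pos_iff.1 (by omega)
  have hym : y ∈ w := List.count_pos_iff.1 (by omega)
  -- words which begin with `x`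
  have key : ∀ w : List ℕ, (∀ c ∈ w, c = x ∨ c = y) → List.Sublist [y, x] w → 2 ≤ w.count x →
      2 ≤ w.count y → ∀ p v, w = List.replicate (p + 1) x ++ y :: v →
      QQ β P S w (x :: y :: (List.replicate (w.count x - 1) x ++
        List.replicate (w.count y - 1) y)) := by
    intro w hw s1 hx hy p v e
    have hv : ∀ c ∈ v, c = x ∨ c = y := fun c hc => hw c (by rw [e]; simp [hc])
    have cx : w.count x = p + 1 + v.count x := by
      rw [e]
      simp [List.count_cons, hxy.symm]
    have cy : w.count y = 1 + v.count y := by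
      rw [e]
      simp [cnt_rep_ne hxy]
      omega
    have hxv : 1 ≤ v.count x := by
      by_contra hcon
      have h0 : x ∉ v := List.count_eq_zero.1 (by omega)
      have h1 := eq_rep hv h0
      apply not_sub_sorted hxy (p + 1) (v.length + 1)
      have e2 : List.replicate (p + 1) x ++ List.replicate (v.length + 1) y = w := by
        rw [e, List.replicate_succ (a := y), ← h1]
      rw [e2]
      exact s1
    have hyv : 1 ≤ v.count y := by omega
    obtain ⟨c, hc⟩ : ∃ c, v.count x = c + 1 := ⟨v.count x - 1, by omega⟩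
    obtain ⟨d, hd⟩ : ∃ d, v.count y = d + 1 := ⟨v.count y - 1, by omega⟩
    -- step 1
    have q1 : QQ β (P ++ (List.replicate (p + 1) x ++ [y])) S v
        (List.replicate (c + 1) x ++ List.replicate (d + 1) y) := by
      apply sortn H hxy _ hv
      · intro e' he'
        rcases List.mem_append.1 he' with h | h
        · exact Or.inl (List.eq_of_mem_replicate h)
        · exact Or.inr (List.eq_of_mem_replicate h)
      · rw [List.count_append, List.count_replicate_self, cnt_rep_ne hxy.symm, hc]
      · rw [List.count_append, List.count_replicate_self, cnt_rep_ne hxy, hd]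
        omega
      · refine Or.inl ⟨P ++ List.replicate p x, [], ?_⟩
        rw [List.replicate_succ']
        simp
    -- step 2
    have q2 : QQ β P (List.replicate (c + 1) x ++ List.replicate (d + 1) y ++ S)
        (List.replicate (p + 1) x ++ [y]) (x :: y :: List.replicate p x) := by
      apply sortn H hxy
      · refine Or.inr (Or.inr (Or.inl ⟨List.replicate c x, List.replicate d y ++ S, ?_⟩))
        rw [List.replicate_succ', List.replicate_succ]
        simp
      · intro e' he'
        rcases List.mem_append.1 he' with h | h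
        · exact Or.inl (List.eq_of_mem_replicate h)
        · exact Or.inr (by simpa using h)
      · intro e' he'
        rcases List.mem_cons.1 he' with h | h
        · exact Or.inl h
        · rcases List.mem_cons.1 h with h | h
          · exact Or.inr h
          · exact Or.inl (List.eq_of_mem_replicate h)
      · simp [List.count_cons, hxy.symm]
      · simp [List.count_cons, cnt_rep_ne hxy, hxy]
    unfold QQ at q1 q2 ⊢
    have e1 : P ++ (w ++ S) = P ++ (List.replicate (p + 1) x ++ [y]) ++ (v ++ S) := by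
      rw [e]; simp
    have e2 : P ++ (List.replicate (p + 1) x ++ [y]) ++
        (List.replicate (c + 1) x ++ List.replicate (d + 1) y ++ S) =
        P ++ (List.replicate (p + 1) x ++ [y] ++
          (List.replicate (c + 1) x ++ List.replicate (d + 1) y ++ S)) := by simp
    have e3 : P ++ (x :: y :: List.replicate p x ++
        (List.replicate (c + 1) x ++ List.replicate (d + 1) y ++ S)) =
        P ++ (x :: y :: (List.replicate (w.count x - 1) x ++
          List.replicate (w.count y - 1) y) ++ S) := by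
      have f1 : w.count x - 1 = p + (c + 1) := by omega
      have f2 : w.count y - 1 = d + 1 := by omega
      rw [f1, f2, List.replicate_add p]
      simp only [List.append_assoc, List.cons_append]
    rw [e1, ← e3]
    rw [e2] at q1
    exact RR.tr q1 q2
  obtain ⟨p, v, e⟩ := first_bd w hw hym
  rcases p with _ | p
  · -- the word begins with `y`
    obtain ⟨p', v', e'⟩ := first_bd w (fun c hc => (hw c hc).symm) hxm
    rcases p' with _ | p'
    · exfalso
      rw [e'] at e
      simp only [List.replicate_zero, List.nil_append, List.cons.injEq] at e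
      exact hxy e.1
    have hv' : ∀ c ∈ v', c = x ∨ c = y := fun c hc => hw c (by rw [e']; simp [hc])
    have cy : w.count y = p' + 1 + v'.count y := by
      rw [e']
      simp [List.count_cons, hxy]
    have cx : w.count x = 1 + v'.count x := by
      rw [e']
      simp [cnt_rep_ne hxy.symm]
      omega
    have hyv : 1 ≤ v'.count y := by
      by_contra hcon
      have h0 : y ∉ v' := List.count_eq_zero.1 (by omega)
      have h1 := eq_rep (fun c hc => (hv' c hc).symm) h0
      apply not_sub_sorted hxy.symm (p' + 1) (v'.length + 1)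
      have e2 : List.replicate (p' + 1) y ++ List.replicate (v'.length + 1) x = w := by
        rw [e', List.replicate_succ (a := x), ← h1]
      rw [e2]
      exact s2
    have hxv : 1 ≤ v'.count x := by omega
    obtain ⟨c, hc⟩ : ∃ c, v'.count x = c + 1 := ⟨v'.count x - 1, by omega⟩
    obtain ⟨d, hd⟩ : ∃ d, v'.count y = d + 1 := ⟨v'.count y - 1, by omega⟩
    have q1 : QQ β (P ++ (List.replicate (p' + 1) y ++ [x])) S v'
        (List.replicate (c + 1) x ++ List.replicate (d + 1) y) := by
      apply sortn H hxy _ hv'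
      · intro e' he'
        rcases List.mem_append.1 he' with h | h
        · exact Or.inl (List.eq_of_mem_replicate h)
        · exact Or.inr (List.eq_of_mem_replicate h)
      · rw [List.count_append, List.count_replicate_self, cnt_rep_ne hxy.symm, hc]
      · rw [List.count_append, List.count_replicate_self, cnt_rep_ne hxy, hd]
        omega
      · refine Or.inr (Or.inl ⟨P ++ List.replicate p' y, [], ?_⟩)
        rw [List.replicate_succ']
        simp
    have q2 : QQ β P (List.replicate (c + 1) x ++ List.replicate (d + 1) y ++ S)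
        (List.replicate (p' + 1) y ++ [x]) (x :: List.replicate (p' + 1) y) := by
      apply sortn H hxy
      · refine Or.inr (Or.inr (Or.inl ⟨List.replicate c x, List.replicate d y ++ S, ?_⟩))
        rw [List.replicate_succ', List.replicate_succ]
        simp
      · intro e' he'
        rcases List.mem_append.1 he' with h | h
        · exact Or.inr (List.eq_of_mem_replicate h)
        · exact Or.inl (by simpa using h)
      · intro e' he'
        rcases List.mem_cons.1 he' with h | h
        · exact Or.inl h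
        · exact Or.inr (List.eq_of_mem_replicate h)
      · simp [List.count_cons, cnt_rep_ne hxy.symm]
      · simp [List.count_cons, hxy]
    -- the new word begins with `x`
    have e4 : (x :: List.replicate (p' + 1) y) ++
        (List.replicate (c + 1) x ++ List.replicate (d + 1) y) =
        List.replicate (0 + 1) x ++ y :: (List.replicate p' y ++
          (List.replicate (c + 1) x ++ List.replicate (d + 1) y)) := by
      simp [List.replicate_succ]
    have q3 := key ((x :: List.replicate (p' + 1) y) ++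
        (List.replicate (c + 1) x ++ List.replicate (d + 1) y)) (by
        intro e' he'
        rcases List.mem_append.1 he' with h | h
        · rcases List.mem_cons.1 h with h | h
          · exact Or.inl h
          · exact Or.inr (List.eq_of_mem_replicate h)
        · rcases List.mem_append.1 h with h | h
          · exact Or.inl (List.eq_of_mem_replicate h)
          · exact Or.inr (List.eq_of_mem_replicate h)) (by
        rw [e4]
        have : List.Sublist [y, x] (y :: (List.replicate p' y ++
          (List.replicate (c + 1) x ++ List.replicate (d + 1) y))) := by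
          refine List.Sublist.cons_cons _ (List.singleton_sublist.2 ?_)
          simp
        exact this.trans (List.sublist_append_right _ _)) (by
        simp [List.count_cons, cnt_rep_ne hxy.symm]) (by
        simp [List.count_cons, cnt_rep_ne hxy, hxy]; omega) 0 _ e4
    have c1 : ((x :: List.replicate (p' + 1) y) ++
        (List.replicate (c + 1) x ++ List.replicate (d + 1) y)).count x = w.count x := by
      simp [List.count_cons, cnt_rep_ne hxy.symm]; omega
    have c2 : ((x :: List.replicate (p' + 1) y) ++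
        (List.replicate (c + 1) x ++ List.replicate (d + 1) y)).count y = w.count y := by
      simp [List.count_cons, cnt_rep_ne hxy, hxy]; omega
    rw [c1, c2] at q3
    refine QQ.tr ?_ q3
    unfold QQ at q1 q2 ⊢
    have e1 : P ++ (w ++ S) = P ++ (List.replicate (p' + 1) y ++ [x]) ++ (v' ++ S) := by
      rw [e']; simp
    have e2 : P ++ (List.replicate (p' + 1) y ++ [x]) ++
        (List.replicate (c + 1) x ++ List.replicate (d + 1) y ++ S) =
        P ++ (List.replicate (p' + 1) y ++ [x] ++
          (List.replicate (c + 1) x ++ List.replicate (d + 1) y ++ S)) := by simp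
    have e3 : P ++ (x :: List.replicate (p' + 1) y ++
        (List.replicate (c + 1) x ++ List.replicate (d + 1) y ++ S)) =
        P ++ ((x :: List.replicate (p' + 1) y) ++
          (List.replicate (c + 1) x ++ List.replicate (d + 1) y) ++ S) := by
      simp only [List.append_assoc]
    rw [e1, ← e3]
    rw [e2] at q1
    exact RR.tr q1 q2
  · exact key w hw s1 hx hy p v e

/-- two words with the same counts, both not sorted -/
theorem uns (H : LL n β) {x y : ℕ} (hxy : x ≠ y) {P S w w' : List ℕ}
    (hw : ∀ c ∈ w, c = x ∨ c = y) (s1 : List.Sublist [y, x] w) (s2 : List.Sublist [x, y] w)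
    (hw' : ∀ c ∈ w', c = x ∨ c = y) (s1' : List.Sublist [y, x] w') (s2' : List.Sublist [x, y] w')
    (hx : 2 ≤ w.count x) (hy : 2 ≤ w.count y) (e1 : w.count x = w'.count x)
    (e2 : w.count y = w'.count y) : QQ β P S w w' := by
  have q1 := canon H hxy (P := P) (S := S) hw s1 s2 hx hy
  have q2 := canon H hxy (P := P) (S := S) hw' s1' s2' (by omega) (by omega)
  rw [e1, e2] at q1
  exact q1.tr q2.sy

/-- the word `x y^b x^(a-1)` -/
def Uw (x y a b : ℕ) : List ℕ := x :: (List.replicate b y ++ List.replicate (a - 1) x)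

theorem uw_mem {x y a b : ℕ} : ∀ c ∈ Uw x y a b, c = x ∨ c = y := by
  intro c hc
  unfold Uw at hc
  rcases List.mem_cons.1 hc with h | h
  · exact Or.inl h
  · rcases List.mem_append.1 h with h | h
    · exact Or.inr (List.eq_of_mem_replicate h)
    · exact Or.inl (List.eq_of_mem_replicate h)

theorem uw_cx {x y a b : ℕ} (hxy : x ≠ y) (ha : 1 ≤ a) : (Uw x y a b).count x = a := by
  unfold Uw
  rw [List.count_cons_self, List.count_append, cnt_rep_ne hxy.symm, List.count_replicate_self]
  omega

theorem uw_cy {x y a b : ℕ} (hxy : x ≠ y) : (Uw x y a b).count y = b := by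
  unfold Uw
  rw [List.count_cons_of_ne hxy, List.count_append, cnt_rep_ne hxy, List.count_replicate_self]
  omega

theorem uw_s1 {x y a b : ℕ} (ha : 2 ≤ a) (hb : 1 ≤ b) : List.Sublist [y, x] (Uw x y a b) := by
  unfold Uw
  refine List.Sublist.cons _ ?_
  have h1 : List.Sublist [y] (List.replicate b y) :=
    List.singleton_sublist.2 (List.mem_replicate.2 ⟨by omega, rfl⟩)
  have h2 : List.Sublist [x] (List.replicate (a - 1) x) :=
    List.singleton_sublist.2 (List.mem_replicate.2 ⟨by omega, rfl⟩)
  exact h1.append h2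

theorem uw_s2 {x y a b : ℕ} (hb : 1 ≤ b) : List.Sublist [x, y] (Uw x y a b) := by
  unfold Uw
  refine List.Sublist.cons_cons _ (List.singleton_sublist.2 ?_)
  rw [List.mem_append]
  exact Or.inl (List.mem_replicate.2 ⟨by omega, rfl⟩)

/-- both letters heavy in the block, not sorted -/
theorem heavy2 (H : LL n β) {P S w w' : List ℕ}
    (hw : ∀ c ∈ w, c = 0 ∨ c = 1) (hw' : ∀ c ∈ w', c = 0 ∨ c = 1)
    (s1 : List.Sublist [1, 0] w) (s2 : List.Sublist [0, 1] w)
    (s1' : List.Sublist [1, 0] w') (s2' : List.Sublist [0, 1] w')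
    (h0 : 2 ≤ w.count 0) (h1 : 2 ≤ w.count 1) (h0' : 2 ≤ w'.count 0) (h1' : 2 ≤ w'.count 1)
    (e0 : w.count 0 ≡ w'.count 0 [MOD n]) (e1 : w.count 1 ≡ w'.count 1 [MOD n]) :
    QQ β P S w w' := by
  have n01 : (0 : ℕ) ≠ 1 := by decide
  -- `w ~ 0 1^b 0^(a-1) ~ 0 1^b' 0^(a-1) ~ 1 0^a 1^(b'-1) ~ 1 0^a' 1^(b'-1) ~ w'`
  have q1 : QQ β P S w (Uw 0 1 (w.count 0) (w.count 1)) :=
    uns H n01 hw s1 s2 uw_mem (uw_s1 h0 (by omega)) (uw_s2 (by omega)) h0 h1
      (uw_cx n01 (by omega)).symm (uw_cy n01).symm
  have q2 : QQ β P S (Uw 0 1 (w.count 0) (w.count 1)) (Uw 0 1 (w.count 0) (w'.count 1)) := by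
    apply QQ.of
    unfold Uw
    exact rr_left [0] ((rep_capn H 1 (Or.inr ⟨h1, h1', e1⟩)).append (RR.refl _))
  have q3 : QQ β P S (Uw 0 1 (w.count 0) (w'.count 1)) (Uw 1 0 (w'.count 1) (w.count 0)) :=
    uns H n01 uw_mem (uw_s1 h0 (by omega)) (uw_s2 (by omega))
      (fun c hc => (uw_mem c hc).symm) (uw_s2 (by omega)) (uw_s1 h1' (by omega))
      (by rw [uw_cx n01 (by omega)]; exact h0) (by rw [uw_cy n01]; exact h1')
      (by rw [uw_cx n01 (by omega), uw_cy n01.symm])
      (by rw [uw_cy n01, uw_cx n01.symm (by omega)])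
  have q4 : QQ β P S (Uw 1 0 (w'.count 1) (w.count 0)) (Uw 1 0 (w'.count 1) (w'.count 0)) := by
    apply QQ.of
    unfold Uw
    exact rr_left [1] ((rep_capn H 0 (Or.inr ⟨h0, h0', e0⟩)).append (RR.refl _))
  have q5 : QQ β P S (Uw 1 0 (w'.count 1) (w'.count 0)) w' :=
    uns H n01 (fun c hc => (uw_mem c hc).symm) (uw_s2 (by omega)) (uw_s1 h1' (by omega))
      hw' s1' s2' (by rw [uw_cy n01.symm]; exact h0') (by rw [uw_cx n01.symm (by omega)]; exact h1')
      (uw_cy n01.symm) (uw_cx n01.symm (by omega))
  exact q1.tr (q2.tr (q3.tr (q4.tr q5)))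

end Pool.Agent.MWX
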