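import Pool.Agent.Helper57_MWX.HA

/-!
# A half thin local letter which may return behind the simple letter (block MWX)

`x = 0`, `a = 1`, `r = 2`, `s = 3`, `t = 4`.  If `xyx` is an isoterm and the modular law holds above
`β`, then the set of the words `a r x a x^i t x^j`, `i ≥ 1`, is not kept by `β`.
-/

set_option autoImplicit false

namespace Pool.Agent.MWX

open Pool.Agent.Helper14_MV Pool.Agent.Helper2_MV Pool.Agent.Helper79_MWD Pool.Agent.MVD

variable {β : FIC} {n : ℕ}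

/-- the words `a r x a x^i t x^j`, `i ≥ 1` -/
def SE (w : List ℕ) : Prop :=
  ∃ i j, 1 ≤ i ∧ w = 1 :: 2 :: (Z 1 ++ 1 :: (Z i ++ 4 :: Z j))

/-- all words with the letters `a r a s t` different from `x` -/
def W6 (c0 c1 c2 c3 c4 c5 : ℕ) : List ℕ :=
  Z c0 ++ 1 :: (Z c1 ++ 2 :: (Z c2 ++ 1 :: (Z c3 ++ 3 :: (Z c4 ++ 4 :: Z c5))))

theorem zeq {a b c d : ℕ} {L L' : List ℕ} (hc : c ≠ 0) (hd : d ≠ 0)
    (h : Z a ++ c :: L = Z b ++ d :: L') : a = b ∧ c = d ∧ L = L' := by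
  induction a generalizing b with
  | zero =>
    rcases b with _ | b
    · simpa using h
    · exfalso
      have h1 : c :: L = 0 :: (Z b ++ d :: L') := h
      simp only [List.cons.injEq] at h1
      exact hc h1.1
  | succ a ih =>
    rcases b with _ | b
    · exfalso
      have h1 : 0 :: (Z a ++ c :: L) = d :: L' := h
      simp only [List.cons.injEq] at h1
      exact hd h1.1.symm
    · have h1 : 0 :: (Z a ++ c :: L) = 0 :: (Z b ++ d :: L') := h
      simp only [List.cons.injEq, true_and] at h1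
      obtain ⟨e1, e2, e3⟩ := ih h1
      exact ⟨by omega, e2, e3⟩

theorem zeq0 {a b : ℕ} (h : Z a = Z b) : a = b := by
  have := congrArg List.length h
  simpa using this

theorem w6_inj {c0 c1 c2 c3 c4 c5 d0 d1 d2 d3 d4 d5 : ℕ}
    (h : W6 c0 c1 c2 c3 c4 c5 = W6 d0 d1 d2 d3 d4 d5) :
    c0 = d0 ∧ c1 = d1 ∧ c2 = d2 ∧ c3 = d3 ∧ c4 = d4 ∧ c5 = d5 := by
  unfold W6 at h
  obtain ⟨e0, -, h⟩ := zeq (by omega) (by omega) h
  obtain ⟨e1, -, h⟩ := zeq (by omega) (by omega) h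
  obtain ⟨e2, -, h⟩ := zeq (by omega) (by omega) h
  obtain ⟨e3, -, h⟩ := zeq (by omega) (by omega) h
  obtain ⟨e4, -, h⟩ := zeq (by omega) (by omega) h
  exact ⟨e0, e1, e2, e3, e4, zeq0 h⟩

theorem se_num {c0 c1 c2 c3 c4 : ℕ}
    (h : SE (Z c0 ++ 1 :: (Z c1 ++ 2 :: (Z c2 ++ 1 :: (Z c3 ++ 4 :: Z c4))))) :
    c0 = 0 ∧ c1 = 0 ∧ c2 = 1 ∧ 1 ≤ c3 := by
  obtain ⟨i, j, hi, h⟩ := h
  have h' : Z c0 ++ 1 :: (Z c1 ++ 2 :: (Z c2 ++ 1 :: (Z c3 ++ 4 :: Z c4))) =
      Z 0 ++ 1 :: (Z 0 ++ 2 :: (Z 1 ++ 1 :: (Z i ++ 4 :: Z j))) := h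
  obtain ⟨e0, -, h'⟩ := zeq (by omega) (by omega) h'
  obtain ⟨e1, -, h'⟩ := zeq (by omega) (by omega) h'
  obtain ⟨e2, -, h'⟩ := zeq (by omega) (by omega) h'
  obtain ⟨e3, -, h'⟩ := zeq (by omega) (by omega) h'
  exact ⟨e0, e1, e2, by omega⟩

theorem w6_sub {g : ℕ → List ℕ} (h : g 0 = [0]) (c0 c1 c2 c3 c4 c5 : ℕ) :
    (W6 c0 c1 c2 c3 c4 c5).flatMap g = Z c0 ++ (g 1 ++ (Z c1 ++ (g 2 ++ (Z c2 ++ (g 1 ++ (Z c3 ++
      (g 3 ++ (Z c4 ++ (g 4 ++ Z c5))))))))) := by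
  unfold W6
  rw [List.flatMap_append, List.flatMap_cons, List.flatMap_append, List.flatMap_cons,
    List.flatMap_append, List.flatMap_cons, List.flatMap_append, List.flatMap_cons,
    List.flatMap_append, List.flatMap_cons, z_sub h, z_sub h, z_sub h, z_sub h, z_sub h, z_sub h]

/-- a substitution -/
def g5 (A R S T : List ℕ) : ℕ → List ℕ := fun c =>
  if c = 0 then [0] else if c = 1 then A else if c = 2 then R else if c = 3 then S else T

theorem w6_rr (A R S T : List ℕ) {c0 c1 c2 c3 c4 c5 d0 d1 d2 d3 d4 d5 : ℕ}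
    (h : RR β (W6 c0 c1 c2 c3 c4 c5) (W6 d0 d1 d2 d3 d4 d5)) :
    RR β (Z c0 ++ (A ++ (Z c1 ++ (R ++ (Z c2 ++ (A ++ (Z c3 ++ (S ++ (Z c4 ++ (T ++ Z c5))))))))))
      (Z d0 ++ (A ++ (Z d1 ++ (R ++ (Z d2 ++ (A ++ (Z d3 ++ (S ++ (Z d4 ++ (T ++ Z d5)))))))))) := by
  have h1 := RR.sub (g5 A R S T) h
  rw [w6_sub (by rfl), w6_sub (by rfl)] at h1
  exact h1

theorem w6_filter (c0 c1 c2 c3 c4 c5 : ℕ) :
    (W6 c0 c1 c2 c3 c4 c5).filter (fun x => decide (x ≠ 0)) = [1, 2, 1, 3, 4] := by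
  unfold W6
  rw [List.filter_append, List.filter_cons_of_pos (by simp), List.filter_append,
    List.filter_cons_of_pos (by simp), List.filter_append, List.filter_cons_of_pos (by simp),
    List.filter_append, List.filter_cons_of_pos (by simp), List.filter_append,
    List.filter_cons_of_pos (by simp), z_filter, z_filter, z_filter, z_filter, z_filter, z_filter]
  rfl

theorem w6_shape (H : Iso3 β) {c0 c1 c2 c3 c4 c5 : ℕ} {w' : List ℕ}
    (h : RR β (W6 c0 c1 c2 c3 c4 c5) w') : ∃ d0 d1 d2 d3 d4 d5, w' = W6 d0 d1 d2 d3 d4 d5 := by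
  have h1 := h.filter (fun x => decide (x ≠ 0))
  rw [w6_filter] at h1
  have h2 : w'.filter (fun x => decide (x ≠ 0)) = [1, 2, 1, 3, 4] :=
    rig_snoc H (w := [1, 2, 1]) (b := 3) (c := 4) (by decide) (by decide) (by decide)
      (fun l hl => rig4 H (by decide) (by decide) (by decide) hl) h1
  obtain ⟨i, w1, e1, h3⟩ := peel h2
  obtain ⟨j, w2, e2, h4⟩ := peel h3
  obtain ⟨k, w3, e3, h5⟩ := peel h4
  obtain ⟨l, w4, e4, h6⟩ := peel h5
  obtain ⟨m, w5, e5, h7⟩ := peel h6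
  obtain ⟨o, e6⟩ := peel0 h7
  exact ⟨i, j, k, l, m, o, by rw [e1, e2, e3, e4, e5, e6]; rfl⟩

/-! ### the three languages -/

def YT (w : List ℕ) : Prop := ∃ u v q j, u + v = 1 ∧ 2 ≤ q + j ∧ w = W6 0 0 u v q j

def YB (w : List ℕ) : Prop :=
  ∃ p q j, (2 ≤ p ∨ (p = 1 ∧ 2 ≤ q + j)) ∧ w = W6 0 0 0 p q j

def YA (w : List ℕ) : Prop := ∃ q j, 2 ≤ q + j ∧ w = W6 0 0 0 1 q j

theorem yab (w : List ℕ) (h : YA w) : YB w ∧ YT w := by
  obtain ⟨q, j, h1, rfl⟩ := h
  exact ⟨⟨1, q, j, Or.inr ⟨rfl, h1⟩, rfl⟩, ⟨0, 1, q, j, rfl, h1, rfl⟩⟩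

theorem yba (w : List ℕ) (hB : YB w) (hT : YT w) : YA w := by
  obtain ⟨p, q, j, _, rfl⟩ := hB
  obtain ⟨u, v, q', j', huv, h2, h⟩ := hT
  obtain ⟨-, -, e2, e3, -, -⟩ := w6_inj h
  have hv : v = 1 := by omega
  subst hv
  have hu : u = 0 := by omega
  subst hu
  exact ⟨q', j', h2, h⟩

/-- the set `SE` is kept -/
def KE (β : FIC) : Prop := ∀ w w', RR β w w' → SE w → SE w'

theorem tail2 (H : Iso3 β) {m k p : ℕ} (h : RR β (Z p ++ 3 :: Z m) (Z 1 ++ 3 :: Z k))
    (hm : 3 ≤ p + m) : 2 ≤ k := by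
  by_contra hk
  rcases Nat.eq_zero_or_pos k with hk0 | hk0
  · subst hk0
    have h1 : RR β [0, 3] (Z p ++ 3 :: Z m) := h.symm
    have h2 := congrArg List.length (iso_ab H (by decide) h1)
    simp at h2
    omega
  · have hk1 : k = 1 := by omega
    subst hk1
    have h1 : RR β [0, 3, 0] (Z p ++ 3 :: Z m) := h.symm
    have h2 := congrArg List.length (iso_aba H (by decide) h1)
    simp at h2
    omega

theorem del_ar {c0 c1 c2 c3 c4 c5 d0 d1 d2 d3 d4 d5 : ℕ}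
    (h : RR β (W6 c0 c1 c2 c3 c4 c5) (W6 d0 d1 d2 d3 d4 d5)) :
    RR β (Z (c0 + (c1 + (c2 + c3))) ++ 3 :: (Z (c4 + c5)))
      (Z (d0 + (d1 + (d2 + d3))) ++ 3 :: (Z (d4 + d5))) := by
  have h1 := w6_rr [] [] [3] [] h
  have e : ∀ a b c d f g : ℕ, Z a ++ ([] ++ (Z b ++ ([] ++ (Z c ++ ([] ++ (Z d ++
      ([3] ++ (Z f ++ ([] ++ Z g))))))))) = Z (a + (b + (c + d))) ++ 3 :: (Z (f + g)) := by
    intro a b c d f g
    rw [z_add, z_add, z_add, z_add]
    simp only [List.nil_append, List.append_assoc, List.cons_append]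
  rw [e, e] at h1
  exact h1

theorem keepT (H : Iso3 β) (K : KE β) {w w' : List ℕ} (h : RR β w w') (hw : YT w) : YT w' := by
  obtain ⟨u, v, q, j, huv, h2, rfl⟩ := hw
  obtain ⟨c0, c1, c2, c3, c4, c5, rfl⟩ := w6_shape H h
  -- first projection
  have k1 : c0 = 0 ∧ c1 = 0 ∧ v + c2 = 1 := by
    have h1 := w6_rr [1] (2 :: Z v) [0] [4] h
    have hs : SE (Z 0 ++ ([1] ++ (Z 0 ++ ((2 :: Z v) ++ (Z u ++ ([1] ++ (Z v ++ ([0] ++ (Z q ++
        ([4] ++ Z j)))))))))) := by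
      refine ⟨v + (1 + q), j, by omega, ?_⟩
      have e : Z 1 = Z v ++ Z u := by
        rw [← z_add]
        congr 1
        omega
      rw [e, z_add v, z_add 1]
      simp only [List.nil_append, List.append_assoc, List.cons_append, List.replicate_zero,
        List.replicate_one]
    have h3 := K _ _ h1 hs
    have e : Z c0 ++ ([1] ++ (Z c1 ++ ((2 :: Z v) ++ (Z c2 ++ ([1] ++ (Z c3 ++ ([0] ++ (Z c4 ++
        ([4] ++ Z c5))))))))) = Z c0 ++ 1 :: (Z c1 ++ 2 :: (Z (v + c2) ++ 1 ::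
          (Z (c3 + (1 + c4)) ++ 4 :: Z c5))) := by
      rw [z_add v, z_add c3, z_add 1]
      simp only [List.nil_append, List.append_assoc, List.cons_append,
        List.replicate_one]
    rw [e] at h3
    obtain ⟨a1, a2, a3, -⟩ := se_num h3
    exact ⟨a1, a2, a3⟩
  obtain ⟨rfl, rfl, hc2⟩ := k1
  have k2 : c2 + c3 = 1 := by
    have h1 := rr_left [1, 2] (w6_rr [] [] [1] [0, 4] h)
    have hs : SE ([1, 2] ++ (Z 0 ++ ([] ++ (Z 0 ++ ([] ++ (Z u ++ ([] ++ (Z v ++ ([1] ++ (Z q ++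
        ([0, 4] ++ Z j))))))))))) := by
      refine ⟨q + 1, j, by omega, ?_⟩
      have e : Z 1 = Z u ++ Z v := by
        rw [← z_add]
        congr 1
        omega
      rw [e, z_add q]
      simp only [List.nil_append, List.append_assoc, List.cons_append, List.replicate_zero,
        List.replicate_one]
    have h3 := K _ _ h1 hs
    have e : [1, 2] ++ (Z 0 ++ ([] ++ (Z 0 ++ ([] ++ (Z c2 ++ ([] ++ (Z c3 ++ ([1] ++ (Z c4 ++
        ([0, 4] ++ Z c5)))))))))) = Z 0 ++ 1 :: (Z 0 ++ 2 :: (Z (c2 + c3) ++ 1 ::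
          (Z (c4 + 1) ++ 4 :: Z c5))) := by
      rw [z_add c2, z_add c4]
      simp only [List.nil_append, List.append_assoc, List.cons_append, List.replicate_zero,
        List.replicate_one]
    rw [e] at h3
    exact (se_num h3).2.2.1
  have h4 := del_ar h
  have e5 : 0 + (0 + (u + v)) = 1 := by omega
  have e6 : 0 + (0 + (c2 + c3)) = 1 := by omega
  rw [e5, e6] at h4
  exact ⟨c2, c3, c4, c5, k2, tail2 H h4 (by omega), rfl⟩

theorem keepB (H : Iso3 β) (K : KE β) {w w' : List ℕ} (h : RR β w w') (hw : YB w) : YB w' := by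
  obtain ⟨p, q, j, hp, rfl⟩ := hw
  obtain ⟨c0, c1, c2, c3, c4, c5, rfl⟩ := w6_shape H h
  have k1 : c0 = 0 ∧ c1 = 0 ∧ c2 = 0 := by
    have h1 := w6_rr [1] [2, 0] [] [4] h
    have hs : SE (Z 0 ++ ([1] ++ (Z 0 ++ ([2, 0] ++ (Z 0 ++ ([1] ++ (Z p ++ ([] ++ (Z q ++
        ([4] ++ Z j)))))))))) := by
      refine ⟨p + q, j, by omega, ?_⟩
      rw [z_add p]
      simp only [List.nil_append, List.append_assoc, List.cons_append, List.replicate_zero,
        List.replicate_one]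
    have h3 := K _ _ h1 hs
    have e : Z c0 ++ ([1] ++ (Z c1 ++ ([2, 0] ++ (Z c2 ++ ([1] ++ (Z c3 ++ ([] ++ (Z c4 ++
        ([4] ++ Z c5))))))))) = Z c0 ++ 1 :: (Z c1 ++ 2 :: (Z (1 + c2) ++ 1 ::
          (Z (c3 + c4) ++ 4 :: Z c5))) := by
      rw [z_add 1, z_add c3]
      simp only [List.nil_append, List.append_assoc, List.cons_append,
        List.replicate_one]
    rw [e] at h3
    obtain ⟨a1, a2, a3, -⟩ := se_num h3
    exact ⟨a1, a2, by omega⟩
  obtain ⟨rfl, rfl, rfl⟩ := k1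
  rcases hp with hp | ⟨rfl, hp⟩
  · have k2 : 1 ≤ c3 := by
      have h1 := rr_left [1, 2, 0, 1] (w6_rr [] [] [4] [] h)
      have hs : SE ([1, 2, 0, 1] ++ (Z 0 ++ ([] ++ (Z 0 ++ ([] ++ (Z 0 ++ ([] ++ (Z p ++ ([4] ++
          (Z q ++ ([] ++ Z j))))))))))) := by
        refine ⟨p, q + j, by omega, ?_⟩
        rw [z_add q]
        simp only [List.nil_append, List.cons_append, List.replicate_zero,
          List.replicate_one]
      have h3 := K _ _ h1 hs
      have e : [1, 2, 0, 1] ++ (Z 0 ++ ([] ++ (Z 0 ++ ([] ++ (Z 0 ++ ([] ++ (Z c3 ++ ([4] ++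
          (Z c4 ++ ([] ++ Z c5)))))))))) = Z 0 ++ 1 :: (Z 0 ++ 2 :: (Z 1 ++ 1 ::
            (Z c3 ++ 4 :: Z (c4 + c5)))) := by
        rw [z_add c4]
        simp only [List.nil_append, List.cons_append, List.replicate_zero,
          List.replicate_one]
      rw [e] at h3
      exact (se_num h3).2.2.2
    by_cases hc3 : 2 ≤ c3
    · exact ⟨c3, c4, c5, Or.inl hc3, rfl⟩
    · have hc : c3 = 1 := by omega
      subst hc
      have h4 := del_ar h
      have e5 : 0 + (0 + (0 + p)) = p := by omega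
      have e6 : 0 + (0 + (0 + 1)) = 1 := by omega
      rw [e5, e6] at h4
      have h5 : 3 ≤ p + (q + j) ∨ p + (q + j) = 2 := by omega
      rcases h5 with h5 | h5
      · exact ⟨1, c4, c5, Or.inr ⟨rfl, tail2 H h4 h5⟩, rfl⟩
      · -- `x² s ≈ x s x^k`
        have hp2 : p = 2 := by omega
        have hq : q + j = 0 := by omega
        rw [hp2, hq] at h4
        refine ⟨1, c4, c5, Or.inr ⟨rfl, ?_⟩, rfl⟩
        by_contra hk
        rcases Nat.eq_zero_or_pos (c4 + c5) with hk0 | hk0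
        · rw [hk0] at h4
          have h6 : RR β [0, 3] (Z 2 ++ 3 :: Z 0) := h4.symm
          exact absurd (iso_ab H (by decide) h6) (by decide)
        · have hk1 : c4 + c5 = 1 := by omega
          rw [hk1] at h4
          have h6 : RR β [0, 3, 0] (Z 2 ++ 3 :: Z 0) := h4.symm
          exact absurd (iso_aba H (by decide) h6) (by decide)
  · have hT : YT (W6 0 0 0 1 q j) := ⟨0, 1, q, j, rfl, hp, rfl⟩
    obtain ⟨u, v, q', j', huv, h2, h3⟩ := keepT H K h hT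
    obtain ⟨-, -, e2, e3, e4, e5⟩ := w6_inj h3
    exact ⟨c3, c4, c5, Or.inr ⟨by omega, by omega⟩, rfl⟩

/-! ### counting -/

theorem w6_count (c0 c1 c2 c3 c4 c5 x : ℕ) (hx : x ≠ 0) :
    (W6 c0 c1 c2 c3 c4 c5).count x = (if x = 1 then 2 else 0) + (if x = 2 then 1 else 0) +
      (if x = 3 then 1 else 0) + (if x = 4 then 1 else 0) := by
  unfold W6
  simp only [List.count_append, List.count_cons, List.count_replicate, beq_iff_eq,
    if_neg (Ne.symm hx), @eq_comm ℕ 1 x, @eq_comm ℕ 2 x, @eq_comm ℕ 3 x, @eq_comm ℕ 4 x]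
  split_ifs <;> omega

theorem w6_two {c0 c1 c2 c3 c4 c5 x : ℕ} (h : 2 ≤ (W6 c0 c1 c2 c3 c4 c5).count x) :
    x = 0 ∨ x = 1 := by
  by_contra hc
  push Not at hc
  rw [w6_count _ _ _ _ _ _ _ hc.1] at h
  rw [if_neg hc.2] at h
  split_ifs at h <;> omega

theorem w6_three {c0 c1 c2 c3 c4 c5 x : ℕ} (h : 3 ≤ (W6 c0 c1 c2 c3 c4 c5).count x) :
    x = 0 := by
  by_contra hc
  rw [w6_count _ _ _ _ _ _ _ hc] at h
  split_ifs at h <;> omega

theorem z_of {L : List ℕ} (h : ∀ x ∈ L, x = 0) : L = Z L.length := List.eq_replicate_of_mem h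

/-- the position of `φ a`, if it contains the letter `a`: `W = a r ..` -/
theorem head1 {u v q j : ℕ} {M A B N : List ℕ}
    (h : W6 0 0 u v q j = M ++ (A ++ (B ++ (A ++ N)))) (hA : 1 ∈ A)
    (h2 : ∀ x ∈ A, x = 0 ∨ x = 1) : M = [] ∧ A = [1] ∧ 1 ∉ B ∧ 1 ∉ N := by
  have hc := congrArg (List.count 1) h
  rw [w6_count _ _ _ _ _ _ _ (by omega)] at hc
  simp only [List.count_append, if_true] at hc
  have h1 : 1 ≤ A.count 1 := List.one_le_count_iff.2 hA
  have hM : M.count 1 = 0 := by simp at hc; omega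
  have hB : B.count 1 = 0 := by simp at hc; omega
  have hN : N.count 1 = 0 := by simp at hc; omega
  have hA1 : A.count 1 = 1 := by simp at hc; omega
  have hh : W6 0 0 u v q j = 1 :: 2 :: (Z u ++ 1 :: (Z v ++ 3 :: (Z q ++ 4 :: Z j))) := rfl
  rw [hh] at h
  have hM0 : M = [] := by
    rcases M with _ | ⟨m, M⟩
    · rfl
    · simp only [List.cons_append, List.cons.injEq] at h
      rw [← h.1] at hM
      simp at hM
  subst hM0
  rcases A with _ | ⟨a, A⟩
  · simp at hA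
  · simp only [List.nil_append, List.cons_append, List.cons.injEq] at h
    obtain ⟨ha, h⟩ := h
    subst ha
    rcases A with _ | ⟨b, A⟩
    · exact ⟨rfl, rfl, List.count_eq_zero.1 hB, List.count_eq_zero.1 hN⟩
    · simp only [List.cons_append, List.cons.injEq] at h
      have h3 := h2 b (by simp)
      omega

theorem z_le {e v c : ℕ} {L L' : List ℕ} (hc : c ≠ 0) (h : Z e ++ L = Z v ++ c :: L') : e ≤ v := by
  induction e generalizing v with
  | zero => omega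
  | succ e ih =>
    rcases v with _ | v
    · exfalso
      have h1 : 0 :: (Z e ++ L) = c :: L' := h
      simp only [List.cons.injEq] at h1
      exact hc h1.1.symm
    · have h1 : 0 :: (Z e ++ L) = 0 :: (Z v ++ c :: L') := h
      simp only [List.cons.injEq, true_and] at h1
      have := ih h1
      omega

theorem z_comm (a b : ℕ) (L : List ℕ) : Z a ++ (Z b ++ L) = Z b ++ (Z a ++ L) := by
  rw [← List.append_assoc, ← List.append_assoc, ← z_add, ← z_add, Nat.add_comm]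

/-! ### the identity `a r a x² s ≈ a r x² a s` -/

def J2l : List ℕ := [1, 2, 1, 0, 0, 3]
def J2r : List ℕ := [1, 2, 0, 0, 1, 3]
def J8l : List ℕ := [1, 2, 1, 0, 3, 0, 0, 4]
def J8r : List ℕ := [1, 2, 0, 1, 3, 0, 0, 4]

theorem j2l_sub (φ : ℕ → List ℕ) : J2l.flatMap φ = φ 1 ++ (φ 2 ++ (φ 1 ++ (φ 0 ++ (φ 0 ++ φ 3)))) := by
  simp [J2l, List.flatMap_cons]

theorem j2r_sub (φ : ℕ → List ℕ) : J2r.flatMap φ = φ 1 ++ (φ 2 ++ (φ 0 ++ (φ 0 ++ (φ 1 ++ φ 3)))) := by
  simp [J2r, List.flatMap_cons]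

theorem j8l_sub (φ : ℕ → List ℕ) : J8l.flatMap φ =
    φ 1 ++ (φ 2 ++ (φ 1 ++ (φ 0 ++ (φ 3 ++ (φ 0 ++ (φ 0 ++ φ 4)))))) := by
  simp [J8l, List.flatMap_cons]

theorem j8r_sub (φ : ℕ → List ℕ) : J8r.flatMap φ =
    φ 1 ++ (φ 2 ++ (φ 0 ++ (φ 1 ++ (φ 3 ++ (φ 0 ++ (φ 0 ++ φ 4)))))) := by
  simp [J8r, List.flatMap_cons]

/-- letters with two occurrences go to `x`, `a` -/
theorem j_two {l : List ℕ} {φ : ℕ → List ℕ} {M N : List ℕ} {c0 c1 c2 c3 c4 c5 z : ℕ}
    (h : W6 c0 c1 c2 c3 c4 c5 = M ++ (l.flatMap φ ++ N)) (hz : 2 ≤ l.count z) :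
    ∀ x ∈ φ z, x = 0 ∨ x = 1 := by
  intro x hx
  apply w6_two (c0 := c0) (c1 := c1) (c2 := c2) (c3 := c3) (c4 := c4) (c5 := c5)
  have := le_count_flatMap φ hx l
  rw [h, List.count_append, List.count_append]
  omega

theorem j_three {l : List ℕ} {φ : ℕ → List ℕ} {M N : List ℕ} {c0 c1 c2 c3 c4 c5 z : ℕ}
    (h : W6 c0 c1 c2 c3 c4 c5 = M ++ (l.flatMap φ ++ N)) (hz : 3 ≤ l.count z) :
    ∀ x ∈ φ z, x = 0 := by
  intro x hx
  apply w6_three (c0 := c0) (c1 := c1) (c2 := c2) (c3 := c3) (c4 := c4) (c5 := c5)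
  have := le_count_flatMap φ hx l
  rw [h, List.count_append, List.count_append]
  omega

/-- a square consists of letters `x` -/
theorem sq_zero {u v q j : ℕ} {M X N : List ℕ} (h : W6 0 0 u v q j = M ++ (X ++ (X ++ N)))
    (h2 : ∀ x ∈ X, x = 0 ∨ x = 1) : ∀ x ∈ X, x = 0 := by
  have h1 : 1 ∉ X := by
    intro h1
    have h3 := head1 (M := M) (A := X) (B := []) (N := N) (by simpa using h) h1 h2
    obtain ⟨rfl, rfl, -, -⟩ := h3
    have hh : W6 0 0 u v q j = 1 :: 2 :: (Z u ++ 1 :: (Z v ++ 3 :: (Z q ++ 4 :: Z j))) := rfl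
    rw [hh] at h
    simp at h
  intro x hx
  rcases h2 x hx with h3 | h3
  · exact h3
  · exact absurd (h3 ▸ hx) h1

theorem stepJ2 (φ : ℕ → List ℕ) (M N : List ℕ)
    (h : YT (M ++ (J2l.flatMap φ ++ N)) ∨ YT (M ++ (J2r.flatMap φ ++ N))) :
    J2l.flatMap φ = J2r.flatMap φ := by
  have main : ∀ e, φ 0 = Z e → (1 ∈ φ 1 → e = 0) → (∀ x ∈ φ 1, x = 0 ∨ x = 1) →
      J2l.flatMap φ = J2r.flatMap φ := by
    intro e he h0 h2
    rw [j2l_sub, j2r_sub, he]
    by_cases h1 : 1 ∈ φ 1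
    · rw [h0 h1]
      simp
    · have h3 : φ 1 = Z (φ 1).length := z_of (fun x hx => by
        rcases h2 x hx with h4 | h4
        · exact h4
        · exact absurd (h4 ▸ hx) h1)
      rw [h3]
      congr 2
      rw [z_comm (φ 1).length e, z_comm (φ 1).length e]
  rcases h with ⟨u, v, q, j, huv, hqj, hw⟩ | ⟨u, v, q, j, huv, hqj, hw⟩
  · have a0 := j_two (z := 0) hw.symm (by decide)
    have a1 := j_two (z := 1) hw.symm (by decide)
    rw [j2l_sub] at hw
    have z0 : ∀ x ∈ φ 0, x = 0 := by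
      apply sq_zero (M := M ++ (φ 1 ++ (φ 2 ++ φ 1))) (N := φ 3 ++ N) (u := u) (v := v) (q := q)
        (j := j) _ a0
      rw [← hw]
      simp only [List.append_assoc]
    refine main _ (z_of z0) ?_ a1
    intro h1
    obtain ⟨rfl, hA, hB, hN⟩ := head1 (M := M) (A := φ 1) (B := φ 2)
      (N := φ 0 ++ (φ 0 ++ (φ 3 ++ N))) (u := u) (v := v) (q := q) (j := j)
      (by rw [← hw]; simp only [List.append_assoc]) h1 a1
    rw [hA, z_of z0] at hw
    have hh : W6 0 0 u v q j = 1 :: 2 :: (Z u ++ 1 :: (Z v ++ 3 :: (Z q ++ 4 :: Z j))) := rfl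
    rw [hh] at hw
    simp only [List.append_assoc, List.cons_append, List.nil_append, List.cons.injEq,
      true_and] at hw
    have h4 : φ 2 ++ 1 :: (Z (φ 0).length ++ (Z (φ 0).length ++ (φ 3 ++ N))) =
        (2 :: Z u) ++ 1 :: (Z v ++ 3 :: (Z q ++ 4 :: Z j)) := hw
    obtain ⟨-, h5⟩ := split_unique hB (by simp) h4
    rw [← List.append_assoc, ← z_add] at h5
    have := z_le (by omega) h5
    omega
  · have a0 := j_two (z := 0) hw.symm (by decide)
    have a1 := j_two (z := 1) hw.symm (by decide)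
    rw [j2r_sub] at hw
    have z0 : ∀ x ∈ φ 0, x = 0 := by
      apply sq_zero (M := M ++ (φ 1 ++ φ 2)) (N := φ 1 ++ (φ 3 ++ N)) (u := u) (v := v) (q := q)
        (j := j) _ a0
      rw [← hw]
      simp only [List.append_assoc]
    refine main _ (z_of z0) ?_ a1
    intro h1
    obtain ⟨rfl, hA, hB, hN⟩ := head1 (M := M) (A := φ 1) (B := φ 2 ++ (φ 0 ++ φ 0))
      (N := φ 3 ++ N) (u := u) (v := v) (q := q) (j := j)
      (by rw [← hw]; simp only [List.append_assoc]) h1 a1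
    rw [hA] at hw
    have hh : W6 0 0 u v q j = 1 :: 2 :: (Z u ++ 1 :: (Z v ++ 3 :: (Z q ++ 4 :: Z j))) := rfl
    rw [hh] at hw
    simp only [List.append_assoc, List.cons_append, List.nil_append, List.cons.injEq,
      true_and] at hw
    have h4 : (φ 2 ++ (φ 0 ++ φ 0)) ++ 1 :: (φ 3 ++ N) =
        (2 :: Z u) ++ 1 :: (Z v ++ 3 :: (Z q ++ 4 :: Z j)) := by
      simpa only [List.append_assoc, List.cons_append] using hw
    obtain ⟨h5, -⟩ := split_unique hB (by simp) h4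
    have h6 := congrArg (List.count 0) h5
    rw [z_of z0] at h6
    simp only [List.count_append, List.count_cons, List.count_replicate, beq_self_eq_true,
      if_true] at h6
    simp at h6
    omega

theorem stepJ8 (φ : ℕ → List ℕ) (M N : List ℕ) :
    YT (M ++ (J8l.flatMap φ ++ N)) ↔ YT (M ++ (J8r.flatMap φ ++ N)) := by
  have eqs : (∀ x ∈ φ 0, x = 0) → (∀ x ∈ φ 1, x = 0 ∨ x = 1) → 1 ∉ φ 1 →
      J8l.flatMap φ = J8r.flatMap φ := by
    intro h0 h2 h1
    have h3 : φ 1 = Z (φ 1).length := z_of (fun x hx => by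
      rcases h2 x hx with h4 | h4
      · exact h4
      · exact absurd (h4 ▸ hx) h1)
    rw [j8l_sub, j8r_sub, h3, z_of h0]
    congr 2
    rw [z_comm (φ 1).length]
  by_cases hx : φ 0 = []
  · rw [j8l_sub, j8r_sub, hx]
    simp
  have hpos : 1 ≤ (φ 0).length := List.length_pos_iff.2 hx
  constructor
  · intro h
    obtain ⟨u, v, q, j, huv, hqj, hw⟩ := h
    have a0 := j_three (z := 0) hw.symm (by decide)
    have a1 := j_two (z := 1) hw.symm (by decide)
    by_cases h1 : 1 ∈ φ 1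
    · rw [j8l_sub] at hw
      obtain ⟨rfl, hA, hB, hN⟩ := head1 (M := M) (A := φ 1) (B := φ 2)
        (N := φ 0 ++ (φ 3 ++ (φ 0 ++ (φ 0 ++ (φ 4 ++ N))))) (u := u) (v := v) (q := q) (j := j)
        (by rw [← hw]; simp only [List.append_assoc]) h1 a1
      rw [j8r_sub]
      rw [hA] at hw ⊢
      have hh : W6 0 0 u v q j = 1 :: 2 :: (Z u ++ 1 :: (Z v ++ 3 :: (Z q ++ 4 :: Z j))) := rfl
      rw [hh] at hw
      simp only [List.append_assoc, List.cons_append, List.nil_append, List.cons.injEq,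
        true_and] at hw
      have h4 : φ 2 ++ 1 :: (φ 0 ++ (φ 3 ++ (φ 0 ++ (φ 0 ++ (φ 4 ++ N))))) =
          (2 :: Z u) ++ 1 :: (Z v ++ 3 :: (Z q ++ 4 :: Z j)) := hw
      obtain ⟨h5, h6⟩ := split_unique hB (by simp) h4
      have h7 : Z (φ 0).length ++ (φ 3 ++ (φ 0 ++ (φ 0 ++ (φ 4 ++ N)))) =
          Z v ++ 3 :: (Z q ++ 4 :: Z j) := by
        rw [← z_of a0]
        exact h6
      have h8 := z_le (by omega) h7
      have hv : v = 1 := by omega
      have hl : (φ 0).length = 1 := by omega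
      have hu : u = 0 := by omega
      subst hv hu
      rw [hl] at h7
      have h9 : φ 3 ++ (φ 0 ++ (φ 0 ++ (φ 4 ++ N))) = 3 :: (Z q ++ 4 :: Z j) :=
        List.append_cancel_left h7
      have h10 : φ 0 = [0] := by rw [z_of a0, hl]; rfl
      refine ⟨1, 0, q, j, rfl, hqj, ?_⟩
      have e : [] ++ (([1] ++ (φ 2 ++ (φ 0 ++ ([1] ++ (φ 3 ++ (φ 0 ++ (φ 0 ++ φ 4))))))) ++ N) =
          1 :: (φ 2 ++ (φ 0 ++ 1 :: (φ 3 ++ (φ 0 ++ (φ 0 ++ (φ 4 ++ N)))))) := by
        simp only [List.append_assoc, List.cons_append, List.nil_append]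
      rw [e, h9, h5, h10]
      rfl
    · rw [← eqs a0 a1 h1]
      exact ⟨u, v, q, j, huv, hqj, hw⟩
  · intro h
    obtain ⟨u, v, q, j, huv, hqj, hw⟩ := h
    have a0 := j_three (z := 0) hw.symm (by decide)
    have a1 := j_two (z := 1) hw.symm (by decide)
    by_cases h1 : 1 ∈ φ 1
    · rw [j8r_sub] at hw
      obtain ⟨rfl, hA, hB, hN⟩ := head1 (M := M) (A := φ 1) (B := φ 2 ++ φ 0)
        (N := φ 3 ++ (φ 0 ++ (φ 0 ++ (φ 4 ++ N)))) (u := u) (v := v) (q := q) (j := j)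
        (by rw [← hw]; simp only [List.append_assoc]) h1 a1
      rw [j8l_sub]
      rw [hA] at hw ⊢
      have hh : W6 0 0 u v q j = 1 :: 2 :: (Z u ++ 1 :: (Z v ++ 3 :: (Z q ++ 4 :: Z j))) := rfl
      rw [hh] at hw
      simp only [List.append_assoc, List.cons_append, List.nil_append, List.cons.injEq,
        true_and] at hw
      have h4 : (φ 2 ++ φ 0) ++ 1 :: (φ 3 ++ (φ 0 ++ (φ 0 ++ (φ 4 ++ N)))) =
          (2 :: Z u) ++ 1 :: (Z v ++ 3 :: (Z q ++ 4 :: Z j)) := by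
        simpa only [List.append_assoc, List.cons_append] using hw
      obtain ⟨h5, h6⟩ := split_unique hB (by simp) h4
      have h7 := congrArg (List.count 0) h5
      rw [z_of a0] at h7
      simp only [List.count_append, List.count_cons, List.count_replicate, beq_self_eq_true,
        if_true] at h7
      simp at h7
      have hu : u = 1 := by omega
      have hl : (φ 0).length = 1 := by omega
      have hv : v = 0 := by omega
      subst hv hu
      have h10 : φ 0 = [0] := by rw [z_of a0, hl]; rfl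
      have h11 : φ 2 = [2] := by
        rw [h10] at h5
        have h12 : φ 2 ++ [0] = [2] ++ [0] := h5
        exact List.append_cancel_right h12
      refine ⟨0, 1, q, j, rfl, hqj, ?_⟩
      have e : [] ++ (([1] ++ (φ 2 ++ ([1] ++ (φ 0 ++ (φ 3 ++ (φ 0 ++ (φ 0 ++ φ 4))))))) ++ N) =
          1 :: (φ 2 ++ 1 :: (φ 0 ++ (φ 3 ++ (φ 0 ++ (φ 0 ++ (φ 4 ++ N)))))) := by
        simp only [List.append_assoc, List.cons_append, List.nil_append]
      rw [e, h6, h11, h10]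
      rfl
    · rw [eqs a0 a1 h1]
      exact ⟨u, v, q, j, huv, hqj, hw⟩

end Pool.Agent.MWX
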