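import Pool.Agent.Helper57_MWX.HTE
import Pool.Agent.Helper21_MVD.PEN
import Pool.Agent.Helper32_MVD.GEN

/-!
# The pentagon for half thin local letters of kind B (block MWX)
-/

set_option autoImplicit false

namespace Pool.Agent.MWX

open Pool.Agent.Helper14_MV Pool.Agent.Helper2_MV Pool.Agent.Helper79_MWD Pool.Agent.MVD

variable {β : FIC} {n : ℕ}

/-- moves of letters `0` keep `YB` -/
theorem stepD' {M X G G' N : List ℕ} (hX : ∀ a ∈ X, a = 0) (hX' : X ≠ [])
    (hf : G.filter (fun x => decide (x ≠ 0)) = G'.filter (fun x => decide (x ≠ 0)))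
    (hc : G.count 0 = G'.count 0) (hc' : 1 ≤ G.count 0)
    (h : YB (M ++ (X ++ (G ++ (X ++ N))))) : YB (M ++ (X ++ (G' ++ (X ++ N)))) := by
  obtain ⟨p, q, j, hp, hw⟩ := h
  obtain ⟨d, X', rfl⟩ := List.exists_cons_of_ne_nil hX'
  have hd : d = 0 := hX d (by simp)
  subst hd
  have e0 : ([1, 2, 1] : List ℕ) ++ (Z p ++ 3 :: (Z q ++ 4 :: Z j)) =
      M ++ ((0 :: X') ++ (G ++ ((0 :: X') ++ N))) := by
    rw [hw]
    rfl
  obtain ⟨M1, hM, e2⟩ : ∃ M1, M = [1, 2, 1] ++ M1 ∧
      Z p ++ 3 :: (Z q ++ 4 :: Z j) = M1 ++ ((0 :: X') ++ (G ++ ((0 :: X') ++ N))) := by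
    rw [List.append_eq_append_iff] at e0
    rcases e0 with ⟨a', h1, h2⟩ | ⟨c', h1, h2⟩
    · exact ⟨a', h1, h2⟩
    · rcases c' with _ | ⟨y, c'⟩
      · exact ⟨[], by simp [h1], by simpa using h2.symm⟩
      · exfalso
        simp only [List.cons_append, List.cons.injEq] at h2
        have h3 : (0 : ℕ) ∈ ([1, 2, 1] : List ℕ) := by
          rw [h1, ← h2.1]
          simp
        simp at h3
  have hlf : (Z p ++ 3 :: (Z q ++ 4 :: Z j)).filter (fun x => decide (x ≠ 0)) = [3, 4] := by
    rw [List.filter_append, List.filter_cons_of_pos (by decide), List.filter_append,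
      List.filter_cons_of_pos (by decide), z_filter, z_filter, z_filter]
    rfl
  have hl2 : (M1 ++ ((0 :: X') ++ (G' ++ ((0 :: X') ++ N)))).filter
      (fun x => decide (x ≠ 0)) = [3, 4] := by
    rw [← hlf, e2]
    simp only [List.filter_append, hf]
  obtain ⟨p', w1, e3, h3⟩ := peel hl2
  obtain ⟨q', w2, e4, h4⟩ := peel h3
  obtain ⟨j', e5⟩ := peel0 h4
  rw [e4, e5] at e3
  have hcount : p' + (q' + j') = p + (q + j) := by
    have h5 := congrArg (List.count 0) e2
    have h6 := congrArg (List.count 0) e3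
    simp only [List.count_append, List.count_cons, List.count_replicate, beq_self_eq_true,
      if_true] at h5 h6
    simp at h5 h6
    omega
  have hge : 3 ≤ p + (q + j) := by
    have h5 := congrArg (List.count 0) e2
    simp only [List.count_append, List.count_cons, List.count_replicate, beq_self_eq_true,
      if_true] at h5
    simp at h5
    omega
  have hp1 : 1 ≤ p' := by
    by_contra h0
    have h0' : p' = 0 := by omega
    subst h0'
    rcases M1 with _ | ⟨y, M1⟩
    · simp at e3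
    · have h7 : y = 3 := by
        simp only [List.cons_append, List.replicate_zero, List.nil_append, List.cons.injEq] at e3
        exact e3.1
      obtain ⟨p1, rfl⟩ : ∃ p1, p = p1 + 1 := ⟨p - 1, by omega⟩
      have e6 : 0 :: (Z p1 ++ 3 :: (Z q ++ 4 :: Z j)) =
          y :: (M1 ++ ((0 :: X') ++ (G ++ ((0 :: X') ++ N)))) := e2
      simp only [List.cons.injEq] at e6
      omega
  refine ⟨p', q', j', by omega, ?_⟩
  rw [hM, List.append_assoc, e3]
  rfl

/-- `x² s x ≈ x s x²` keeps `YB` -/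
theorem stepD (φ : ℕ → List ℕ) (M N : List ℕ) :
    YB (M ++ (([0, 0, 1, 0] : List ℕ).flatMap φ ++ N)) ↔
      YB (M ++ (([0, 1, 0, 0] : List ℕ).flatMap φ ++ N)) := by
  have e1 : ([0, 0, 1, 0] : List ℕ).flatMap φ = φ 0 ++ (φ 0 ++ (φ 1 ++ φ 0)) := by simp
  have e2 : ([0, 1, 0, 0] : List ℕ).flatMap φ = φ 0 ++ (φ 1 ++ (φ 0 ++ φ 0)) := by simp
  rw [e1, e2]
  by_cases hx : φ 0 = []
  · simp [hx]
  · have z : ∀ w, YB w → (∀ a ∈ φ 0, 3 ≤ w.count a) → ∀ a ∈ φ 0, a = 0 := by
      rintro w ⟨p, q, j, _, rfl⟩ h a ha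
      exact w6_three (h a ha)
    have one' : ∀ a ∈ φ 0, 1 ≤ (φ 0).count a := fun a ha => List.one_le_count_iff.2 ha
    have g1 : M ++ ((φ 0 ++ (φ 0 ++ (φ 1 ++ φ 0))) ++ N) =
        M ++ (φ 0 ++ ((φ 0 ++ φ 1) ++ (φ 0 ++ N))) := by simp only [List.append_assoc]
    have g2 : M ++ ((φ 0 ++ (φ 1 ++ (φ 0 ++ φ 0))) ++ N) =
        M ++ (φ 0 ++ ((φ 1 ++ φ 0) ++ (φ 0 ++ N))) := by simp only [List.append_assoc]
    rw [g1, g2]
    have hz : (∀ a ∈ φ 0, a = 0) → (φ 0).filter (fun x => decide (x ≠ 0)) = [] := by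
      intro h0
      rw [List.filter_eq_nil_iff]
      intro x hx'
      rw [h0 x hx']
      simp
    have hc0 : (∀ a ∈ φ 0, a = 0) → 1 ≤ (φ 0).count 0 := by
      intro h0
      obtain ⟨d, hd⟩ := List.exists_mem_of_ne_nil _ hx
      have := one' d hd
      rw [h0 d hd] at this
      exact this
    constructor
    · intro h
      have h0 := z _ h (by
        intro a ha
        have := one' a ha
        simp only [List.count_append]
        omega)
      refine stepD' h0 hx ?_ ?_ ?_ h
      · rw [List.filter_append, List.filter_append, hz h0]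
        simp
      · rw [List.count_append, List.count_append]
        omega
      · have := hc0 h0
        rw [List.count_append]
        omega
    · intro h
      have h0 := z _ h (by
        intro a ha
        have := one' a ha
        simp only [List.count_append]
        omega)
      refine stepD' h0 hx ?_ ?_ ?_ h
      · rw [List.filter_append, List.filter_append, hz h0]
        simp
      · rw [List.count_append, List.count_append]
        omega
      · have := hc0 h0
        rw [List.count_append]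
        omega

/-- **the set `SE` is not kept** -/
theorem hte (hm : ModF β) (H : Iso3 β) : ¬ KE β := by
  intro K
  let J2 : List ℕ × List ℕ := (J2l, J2r)
  let J8 : List ℕ × List ℕ := (J8l, J8r)
  let D0 : List ℕ × List ℕ := ([0, 0, 1, 0], [0, 1, 0, 0])
  obtain ⟨ρ, hρ, gρ, mρ, pρ⟩ := H32.gen β (fun e => e = J2)
  obtain ⟨σ, hσ, gσ, mσ, pσ⟩ := H32.gen β (fun e => e = D0)
  obtain ⟨τ, hτ, gτ, mτ, pτ⟩ := H32.gen β (fun e => e = J2 ∨ e = J8)
  have hle : ρ ≤ τ := mρ τ hτ (fun e he => gτ e (Or.inl he))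
  have kA : ∀ w w', RR ρ w w' → YA w → YA w' := by
    apply pρ
    · intro w w' h hw
      obtain ⟨h1, h2⟩ := yab w hw
      exact yba w' (keepB H K h h1) (keepT H K h h2)
    · rintro e rfl φ M N
      constructor
      · intro h
        have h1 := stepJ2 φ M N (Or.inl (yab _ h).2)
        change YA (M ++ (J2r.flatMap φ ++ N))
        rw [← h1]
        exact h
      · intro h
        have h1 := stepJ2 φ M N (Or.inr (yab _ h).2)
        change YA (M ++ (J2l.flatMap φ ++ N))
        rw [h1]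
        exact h
  have kB : ∀ w w', RR σ w w' → YB w → YB w' := by
    apply pσ
    · intro w w' h hw
      exact keepB H K h hw
    · rintro e rfl φ M N
      exact stepD φ M N
  have kC : ∀ w w', RR τ w w' → YT w → YT w' := by
    apply pτ
    · intro w w' h hw
      exact keepT H K h hw
    · rintro e (rfl | rfl) φ M N
      · constructor
        · intro h
          have h1 := stepJ2 φ M N (Or.inl h)
          change YT (M ++ (J2r.flatMap φ ++ N))
          rw [← h1]
          exact h
        · intro h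
          have h1 := stepJ2 φ M N (Or.inr h)
          change YT (M ++ (J2l.flatMap φ ++ N))
          rw [h1]
          exact h
      · exact stepJ8 φ M N
  have hA0 : YA J8l := ⟨2, 0, le_refl 2, rfl⟩
  have hA1 : ¬ YA J8r := by
    rintro ⟨q, j, _, h⟩
    have h1 : W6 0 0 1 0 2 0 = W6 0 0 0 1 q j := h
    have := (w6_inj h1).2.2.1
    omega
  refine H21.pen β hm ρ σ τ _ _ _ hρ hσ hτ hle kA kB kC yab yba J8l J8r hA0 hA1 ?_ ?_
  · exact gτ J8 (Or.inr rfl)
  · have hD0 : RR σ [0, 0, 1, 0] [0, 1, 0, 0] := gσ D0 rfl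
    have hJ2 : RR ρ J2l J2r := gρ J2 rfl
    have s1 : RR σ J8l [1, 2, 1, 0, 0, 3, 0, 4] := by
      have h1 := hD0.sub (fun x => if x = 0 then [0] else [3])
      have h2 := (Helper79_MWD.rr_ctx h1 [1, 2, 1] [4]).symm
      exact h2
    have s2 : RR ρ [1, 2, 1, 0, 0, 3, 0, 4] [1, 2, 0, 0, 1, 3, 0, 4] :=
      rr_right [0, 4] hJ2
    have s3 : RR σ [1, 2, 0, 0, 1, 3, 0, 4] J8r := by
      have h1 := hD0.sub (fun x => if x = 0 then [0] else [1, 3])
      exact Helper79_MWD.rr_ctx h1 [1, 2] [4]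
    exact (FIC.sup ρ σ).trans ((FIC.le_sup_right _ _) _ _ s1)
      ((FIC.sup ρ σ).trans ((FIC.le_sup_left _ _) _ _ s2) ((FIC.le_sup_right _ _) _ _ s3))

end Pool.Agent.MWX
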