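import Pool.Agent.MWN.DefsH

/-!
# Two letter facts of the world with `xy t xy ≈ yx t xy` (block MWX), local part

`BL β`: `x² ≈ x³`, `x² t x ≈ x² t x²`, `xy t xy ≈ yx t xy ≈ xy t yx`, `xyx t y ≈ x²yx² t y` and the
mirror image of the last one.
-/

namespace Pool.Agent.MWX

open Pool.Agent.Helper14_MV Pool.Agent.Helper2_MV Pool.Agent.MVO Pool.Agent.MWL Pool.Agent.MWS
  Pool.Agent.MWF Pool.Agent.MWN

/-- the finite list of the two letter identities of the base (h) -/
structure BL (β : FIC) : Prop where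
  ap : RR β [0, 0] [0, 0, 0]
  rr : RR β [0, 0, 2, 0] [0, 0, 2, 0, 0]
  lx : RR β [0, 1, 2, 0, 1] [1, 0, 2, 0, 1]
  rx : RR β [0, 1, 2, 0, 1] [0, 1, 2, 1, 0]
  h1 : RR β [0, 1, 0, 2, 1] [0, 0, 1, 0, 0, 2, 1]
  h1d : RR β [1, 2, 0, 1, 0] [1, 2, 0, 0, 1, 0, 0]

variable {β : FIC}

/-- the substitution `0 ↦ x`, `1 ↦ y`, `2 ↦ t` -/
def s3 (x y t : List ℕ) : ℕ → List ℕ := fun c => if c = 0 then x else if c = 1 then y else t

theorem rr_ctx {l l' : List ℕ} (h : RR β l l') (p q : List ℕ) : RR β (p ++ l ++ q) (p ++ l' ++ q) :=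
  ((RR.refl p).append h).append (RR.refl q)

theorem RR.tr {a b c : List ℕ} (h : RR β a b) (h' : RR β b c) : RR β a c := FIC.trans _ h h'

theorem lxc (H : BL β) (p q t : List ℕ) (x y : ℕ) :
    RR β (p ++ x :: y :: (t ++ x :: y :: q)) (p ++ y :: x :: (t ++ x :: y :: q)) := by
  have h := rr_ctx (RR.sub (s3 [x] [y] t) H.lx) p q
  simpa [s3, List.flatMap_cons] using h

theorem rxc (H : BL β) (p q t : List ℕ) (x y : ℕ) :
    RR β (p ++ x :: y :: (t ++ x :: y :: q)) (p ++ x :: y :: (t ++ y :: x :: q)) := by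
  have h := rr_ctx (RR.sub (s3 [x] [y] t) H.rx) p q
  simpa [s3, List.flatMap_cons] using h

theorem h1c (H : BL β) (p q t : List ℕ) (x y : ℕ) :
    RR β (p ++ x :: y :: x :: (t ++ y :: q)) (p ++ x :: x :: y :: x :: x :: (t ++ y :: q)) := by
  have h := rr_ctx (RR.sub (s3 [x] [y] t) H.h1) p q
  simpa [s3, List.flatMap_cons] using h

theorem h1dc (H : BL β) (p q t : List ℕ) (x y : ℕ) :
    RR β (p ++ y :: (t ++ x :: y :: x :: q)) (p ++ y :: (t ++ x :: x :: y :: x :: x :: q)) := by
  have h := rr_ctx (RR.sub (s3 [x] [y] t) H.h1d) p q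
  simpa [s3, List.flatMap_cons] using h

theorem apc (H : BL β) (p q : List ℕ) (x : ℕ) :
    RR β (p ++ x :: x :: q) (p ++ x :: x :: x :: q) := by
  have h := rr_ctx (RR.sub (s3 [x] [] []) H.ap) p q
  simpa [s3, List.flatMap_cons] using h

/-! ### powers -/

theorem rep_two (H : BL β) (x : ℕ) (n : ℕ) :
    RR β (List.replicate (n + 2) x) [x, x] := by
  induction n with
  | zero => exact RR.refl _
  | succ n ih =>
    have h1 : RR β (List.replicate (n + 3) x) (x :: [x, x]) := by
      have := (RR.refl (β := β) [x]).append ih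
      simpa [List.replicate_succ] using this
    have h2 := (apc H [] [] x).symm
    exact RR.tr h1 h2

theorem rep_cap (H : BL β) (x : ℕ) {a a' : ℕ} (h : a = a' ∨ (2 ≤ a ∧ 2 ≤ a')) :
    RR β (List.replicate a x) (List.replicate a' x) := by
  rcases h with h | ⟨h1, h2⟩
  · rw [h]; exact RR.refl _
  · obtain ⟨n, rfl⟩ : ∃ n, a = n + 2 := ⟨a - 2, by omega⟩
    obtain ⟨m, rfl⟩ : ∃ m, a' = m + 2 := ⟨a' - 2, by omega⟩
    exact RR.tr (rep_two H x n) (rep_two H x m).symm

/-! ### the zero word -/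

theorem o_swap1 (H : BL β) (x y : ℕ) : RR β [x, y, x, y] [y, x, x, y] := lxc H [] [] [] x y

theorem o_swap2 (H : BL β) (x y : ℕ) : RR β [x, y, x, y] [x, y, y, x] := rxc H [] [] [] x y

theorem o_symm (H : BL β) (x y : ℕ) : RR β [x, y, x, y] [y, x, y, x] :=
  RR.tr (o_swap1 H x y) (o_swap2 H y x).symm

theorem o_h1 (H : BL β) (x y : ℕ) : RR β [x, y, x, y] [x, x, y, x, x, y] := h1c H [] [] [] x y

theorem o_h1d (H : BL β) (x y : ℕ) : RR β [y, x, y, x] [y, x, x, y, x, x] := h1dc H [] [] [] x y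

theorem o_left (H : BL β) (x y : ℕ) : RR β (x :: [x, y, x, y]) [x, y, x, y] := by
  have h1 := (RR.refl (β := β) [x]).append (o_h1 H x y)
  have h2 : RR β [x, x, x, y, x, x, y] [x, x, y, x, x, y] := (apc H [] [y, x, x, y] x).symm
  exact RR.tr h1 (RR.tr h2 (o_h1 H x y).symm)

theorem o_left' (H : BL β) (x y : ℕ) : RR β (y :: [x, y, x, y]) [x, y, x, y] := by
  have h1 := (RR.refl (β := β) [y]).append (o_symm H x y)
  exact RR.tr h1 (RR.tr (o_left H y x) (o_symm H x y).symm)

theorem o_right (H : BL β) (x y : ℕ) : RR β ([x, y, x, y] ++ [x]) [x, y, x, y] := by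
  have h0 := RR.tr (o_symm H x y) (o_h1d H x y)
  have h1 := h0.append (RR.refl (β := β) [x])
  have h2 : RR β [y, x, x, y, x, x, x] [y, x, x, y, x, x] := (apc H [y, x, x, y] [] x).symm
  exact RR.tr h1 (RR.tr h2 h0.symm)

theorem o_right' (H : BL β) (x y : ℕ) : RR β ([x, y, x, y] ++ [y]) [x, y, x, y] := by
  have h1 := (o_symm H x y).append (RR.refl (β := β) [y])
  exact RR.tr h1 (RR.tr (o_right H y x) (o_symm H x y).symm)

theorem o_rep (H : BL β) (x y n : ℕ) :
    RR β ([x, y, x, y] ++ List.replicate n x) [x, y, x, y] := by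
  induction n with
  | zero => simpa using RR.refl (β := β) [x, y, x, y]
  | succ n ih =>
    have h := (o_right H x y).append (RR.refl (β := β) (List.replicate n x))
    have h' : RR β ([x, y, x, y] ++ List.replicate (n + 1) x)
        ([x, y, x, y] ++ List.replicate n x) := by
      simpa [List.replicate_succ] using h
    exact RR.tr h' ih

theorem o_rep' (H : BL β) (x y n : ℕ) :
    RR β ([x, y, x, y] ++ List.replicate n y) [x, y, x, y] := by
  have h := (o_symm H x y).append (RR.refl (β := β) (List.replicate n y))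
  exact RR.tr h (RR.tr (o_rep H y x n) (o_symm H x y).symm)

/-- `x y^b x ≈ o` for `b ≥ 2` -/
theorem o_mid (H : BL β) (x y n : ℕ) :
    RR β (x :: (List.replicate (n + 2) y ++ [x])) [x, y, x, y] := by
  have h := rr_ctx (rep_two H y n) [x] [x]
  have h' : RR β (x :: (List.replicate (n + 2) y ++ [x])) [x, y, y, x] := by simpa using h
  exact RR.tr h' (o_swap2 H x y).symm

/-! ### normal forms of words in two letters -/

/-- the five possibilities for a word in `x`, `y` -/
def TT (β : FIC) (x y : ℕ) (w : List ℕ) : Prop :=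
  (∃ a b, w = List.replicate a x ++ List.replicate b y) ∨
  (∃ a b, w = List.replicate b y ++ List.replicate a x) ∨
  (∃ p q, w = List.replicate (p + 1) x ++ y :: List.replicate (q + 1) x) ∨
  (∃ p q, w = List.replicate (p + 1) y ++ x :: List.replicate (q + 1) y) ∨
  (2 ≤ w.count x ∧ 2 ≤ w.count y ∧ RR β w [x, y, x, y])

theorem TT.symm (H : BL β) {x y : ℕ} {w : List ℕ} (h : TT β x y w) : TT β y x w := by
  rcases h with ⟨a, b, h⟩ | ⟨a, b, h⟩ | ⟨a, b, h⟩ | ⟨a, b, h⟩ | ⟨h1, h2, h⟩
  · exact Or.inr (Or.inl ⟨b, a, h⟩)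
  · exact Or.inl ⟨b, a, h⟩
  · exact Or.inr (Or.inr (Or.inr (Or.inl ⟨a, b, h⟩)))
  · exact Or.inr (Or.inr (Or.inl ⟨a, b, h⟩))
  · exact Or.inr (Or.inr (Or.inr (Or.inr ⟨h2, h1, RR.tr h (o_symm H x y)⟩)))

theorem TT.cons (H : BL β) {x y : ℕ} (hxy : x ≠ y) {w : List ℕ} (h : TT β x y w) :
    TT β x y (x :: w) := by
  rcases h with ⟨a, b, h⟩ | ⟨a, b, h⟩ | ⟨a, b, h⟩ | ⟨a, b, h⟩ | ⟨h1, h2, h⟩
  · exact Or.inl ⟨a + 1, b, by rw [h]; rfl⟩
  · rcases a with _ | a
    · exact Or.inl ⟨1, b, by rw [h]; simp⟩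
    rcases b with _ | _ | b
    · exact Or.inl ⟨a + 2, 0, by rw [h]; simp [List.replicate_succ]⟩
    · exact Or.inr (Or.inr (Or.inl ⟨0, a, by rw [h]; simp⟩))
    · refine Or.inr (Or.inr (Or.inr (Or.inr ⟨?_, ?_, ?_⟩)))
      · rw [h]; simp [List.count_replicate, hxy.symm]
      · rw [h]; simp [List.count_replicate, hxy]
      · rw [h]
        have h1 := (o_mid H x y b).append (RR.refl (β := β) (List.replicate a x))
        have h2 := RR.tr h1 (o_rep H x y a)
        have e : x :: (List.replicate (b + 1 + 1) y ++ List.replicate (a + 1) x) =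
            x :: (List.replicate (b + 2) y ++ [x]) ++ List.replicate a x := by
          simp [List.replicate_succ]
        rw [e]; exact h2
  · exact Or.inr (Or.inr (Or.inl ⟨a + 1, b, by rw [h]; rfl⟩))
  · refine Or.inr (Or.inr (Or.inr (Or.inr ⟨?_, ?_, ?_⟩)))
    · rw [h]; simp [List.count_replicate, hxy.symm]
    · rw [h]; simp [List.count_replicate, List.count_cons, hxy]; omega
    · rw [h]
      rcases a with _ | a
      · have e : x :: (List.replicate (0 + 1) y ++ x :: List.replicate (b + 1) y) =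
            [x, y, x, y] ++ List.replicate b y := by simp [List.replicate_succ]
        rw [e]; exact o_rep' H x y b
      · have h1 := (o_mid H x y a).append (RR.refl (β := β) (List.replicate (b + 1) y))
        have h2 := RR.tr h1 (o_rep' H x y (b + 1))
        have e : x :: (List.replicate (a + 1 + 1) y ++ x :: List.replicate (b + 1) y) =
            x :: (List.replicate (a + 2) y ++ [x]) ++ List.replicate (b + 1) y := by
          simp
        rw [e]; exact h2
  · refine Or.inr (Or.inr (Or.inr (Or.inr ⟨?_, ?_, ?_⟩)))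
    · rw [List.count_cons_self]; omega
    · rw [List.count_cons_of_ne hxy]; exact h2
    · exact RR.tr ((RR.refl (β := β) [x]).append h) (o_left H x y)

theorem tt (H : BL β) {x y : ℕ} (hxy : x ≠ y) (w : List ℕ) (hw : ∀ c ∈ w, c = x ∨ c = y) :
    TT β x y w := by
  induction w with
  | nil => exact Or.inl ⟨0, 0, rfl⟩
  | cons c w ih =>
    have h := ih (fun d hd => hw d (by simp [hd]))
    rcases hw c (by simp) with rfl | rfl
    · exact h.cons H hxy
    · exact ((h.symm H).cons H hxy.symm).symm H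

end Pool.Agent.MWX
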