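import Pool.Agent.Helper57_MWX.HBm

/-!
# The group of the label shifts (block MWX, label pentagon)

`M p q` is `x^p a x^q t a` or `a t x^p a x^q`.
-/

set_option autoImplicit false

namespace Pool.Agent.MWX

open Pool.Agent.Helper14_MV Pool.Agent.Helper2_MV

variable {β : FIC} {n : ℕ}

/-- the facts about the words `M p q` -/
structure MM (n : ℕ) (β : FIC) (M : ℕ → ℕ → List ℕ) : Prop where
  pos : 1 ≤ n
  m1 : ∀ p q, RR β (M (p + 1) (q + 1)) (M (p + 1 + n) (q + 1))
  m2 : ∀ p q, RR β (M (p + 1) (q + 1)) (M (p + 1) (q + 1 + n))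
  ml : ∀ p {a b a' b'}, RR β (M a b) (M a' b') → RR β (M (p + a) b) (M (p + a') b')
  mr : ∀ q {a b a' b'}, RR β (M a b) (M a' b') → RR β (M a (b + q)) (M a' (b' + q))
  mz : ∀ a {b b'}, RR β (Z b) (Z b') → RR β (M a b) (M a b')
  mt : ∀ {a b a' b'}, RR β (M a b) (M a' b') → RR β (Z (a + b)) (Z (a' + b'))

/-- shifts by `s` -/
def Dn (β : FIC) (M : ℕ → ℕ → List ℕ) (s : ℕ) : Prop :=
  ∀ p q, RR β (M (p + 1 + s) (q + 1)) (M (p + 1) (q + 1 + s))

variable {M : ℕ → ℕ → List ℕ}

theorem MM.m1m (H : MM n β M) (m p q : ℕ) :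
    RR β (M (p + 1) (q + 1)) (M (p + 1 + n * m) (q + 1)) := by
  induction m with
  | zero => exact RR.refl _
  | succ m ih =>
    have h := H.m1 (p + n * m) q
    have e1 : p + n * m + 1 = p + 1 + n * m := by omega
    have e2 : p + n * m + 1 + n = p + 1 + n * (m + 1) := by rw [Nat.mul_succ]; omega
    rw [e2, e1] at h
    exact RR.tr ih h

theorem MM.m2m (H : MM n β M) (m p q : ℕ) :
    RR β (M (p + 1) (q + 1)) (M (p + 1) (q + 1 + n * m)) := by
  induction m with
  | zero => exact RR.refl _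
  | succ m ih =>
    have h := H.m2 p (q + n * m)
    have e1 : q + n * m + 1 = q + 1 + n * m := by omega
    have e2 : q + n * m + 1 + n = q + 1 + n * (m + 1) := by rw [Nat.mul_succ]; omega
    rw [e2, e1] at h
    exact RR.tr ih h

theorem dn_n (H : MM n β M) : Dn β M n := fun p q => RR.tr (H.m1 p q).symm (H.m2 p q)

theorem dn_add {s t : ℕ} (hs : Dn β M s) (ht : Dn β M t) : Dn β M (s + t) := by
  intro p q
  have h1 := hs (p + t) q
  have h2 := ht p (q + s)
  have e1 : p + t + 1 + s = p + 1 + (s + t) := by omega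
  have e2 : p + t + 1 = p + 1 + t := by omega
  have e3 : q + s + 1 = q + 1 + s := by omega
  have e4 : q + s + 1 + t = q + 1 + (s + t) := by omega
  rw [e1, e2] at h1
  rw [e4, e3] at h2
  exact RR.tr h1 h2

theorem dn_zero : Dn β M 0 := fun _ _ => RR.refl _

theorem dn_mul {s : ℕ} (hs : Dn β M s) (m : ℕ) : Dn β M (s * m) := by
  induction m with
  | zero => exact dn_zero
  | succ m ih => rw [Nat.mul_succ]; exact dn_add ih hs

theorem dn_sub (H : MM n β M) {s t : ℕ} (hs : Dn β M s) (ht : Dn β M t) (hts : t ≤ s) :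
    Dn β M (s - t) := by
  intro p q
  have hn := H.pos
  have h1 := H.m1m t (p + (s - t)) q
  have h2 := dn_add hs (dn_mul ht (n - 1)) p q
  have h3 := (H.m2m t p (q + (s - t))).symm
  have e0 : t * (n - 1) + t = n * t := by
    obtain ⟨m, rfl⟩ : ∃ m, n = m + 1 := ⟨n - 1, by omega⟩
    rw [Nat.add_sub_cancel, Nat.mul_comm t m, Nat.add_mul, Nat.one_mul]
  have e1 : p + (s - t) + 1 = p + 1 + (s - t) := by omega
  have e2 : p + (s - t) + 1 + n * t = p + 1 + (s + t * (n - 1)) := by omega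
  have e3 : q + (s - t) + 1 + n * t = q + 1 + (s + t * (n - 1)) := by omega
  have e4 : q + (s - t) + 1 = q + 1 + (s - t) := by omega
  rw [e2, e1] at h1
  rw [e3, e4] at h3
  exact RR.tr h1 (RR.tr h2 h3)

/-- the least positive shift -/
theorem dn_delta (H : MM n β M) (h1 : ¬ Dn β M 1) :
    ∃ δ, 2 ≤ δ ∧ δ ∣ n ∧ ∀ s, Dn β M s → δ ∣ s := by
  classical
  have hex : ∃ s, 1 ≤ s ∧ Dn β M s := ⟨n, H.pos, dn_n H⟩
  obtain ⟨hp, hd⟩ := Nat.find_spec hex
  have hmin : ∀ s, 1 ≤ s → Dn β M s → Nat.find hex ≤ s := fun s a b => Nat.find_min' hex ⟨a, b⟩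
  generalize Nat.find hex = δ at hp hd hmin
  have key : ∀ s, Dn β M s → δ ∣ s := by
    intro s hs
    have h2 : Dn β M (s - δ * (s / δ)) := dn_sub H hs (dn_mul hd _) (Nat.mul_div_le s δ)
    have h3 : s - δ * (s / δ) = s % δ := by
      have := Nat.div_add_mod s δ
      omega
    rw [h3] at h2
    by_contra hnd
    have h4 : 1 ≤ s % δ := by
      rw [Nat.one_le_iff_ne_zero]
      intro h
      exact hnd (Nat.dvd_of_mod_eq_zero h)
    have h5 := hmin _ h4 h2
    have h6 := Nat.mod_lt s (show 0 < δ by omega)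
    omega
  refine ⟨δ, ?_, key n (dn_n H), key⟩
  by_contra hlt
  have : δ = 1 := by omega
  rw [this] at hd
  exact h1 hd

theorem z_ctx {a b : ℕ} (r : ℕ) (h : RR β (Z a) (Z b)) : RR β (Z (a + r)) (Z (b + r)) := by
  have h1 := rr_right (Z r) h
  rw [← z_add, ← z_add] at h1
  exact h1

/-- two related words give a shift -/
theorem lab0 (H : MM n β M) {a b a' b' : ℕ} (h : RR β (M a b) (M a' b')) (hab : a ≤ a') :
    Dn β M (a' - a) := by
  have ht := H.mt h
  intro p q
  have hn := H.pos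
  obtain ⟨s, rfl⟩ : ∃ s, a' = a + s := ⟨a' - a, by omega⟩
  have hs : a + s - a = s := by omega
  rw [hs]
  have hA : a ≤ n * a := Nat.le_mul_of_pos_left a hn
  have hB : a + b' + 1 ≤ n * (a + b' + 1) := Nat.le_mul_of_pos_left _ hn
  have u1 := H.m1m a (p + s) q
  have u2 := H.m2m (a + b' + 1) (p + s + n * a) q
  have v1 := H.m1m a p (q + s)
  have v2 := H.m2m (a + b' + 1) (p + n * a) (q + s)
  generalize n * a = A at hA u1 u2 v1 v2
  generalize n * (a + b' + 1) = B at hB u2 v2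
  obtain ⟨z, hz⟩ : ∃ z, b' + z = q + 1 + B := ⟨q + 1 + B - b', by omega⟩
  obtain ⟨w, hw⟩ : ∃ w, w + a = p + 1 + A := ⟨p + 1 + A - a, by omega⟩
  obtain ⟨r, hr⟩ : ∃ r, z = a + r := ⟨z - a, by omega⟩
  have w1 := H.mr z (H.ml w h)
  have w2 := H.mz (p + 1 + A) (z_ctx r ht)
  have e1 : p + s + 1 + A = p + s + A + 1 := by omega
  have e2 : p + s + 1 = p + 1 + s := by omega
  have e3 : p + 1 + A = p + A + 1 := by omega
  have e4 : q + s + 1 = q + 1 + s := by omega
  have e5 : w + (a + s) = p + s + A + 1 := by omega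
  have e6 : a + b + r = b + z := by omega
  have e7 : a + s + b' + r = q + 1 + s + B := by omega
  rw [e1, e2] at u1
  rw [e3, e4] at v1
  rw [e4] at v2
  rw [hw, e5, hz] at w1
  rw [e6, e7] at w2
  rw [e3] at w1 w2
  exact RR.tr u1 (RR.tr u2 (RR.tr w1.symm (RR.tr w2 (RR.tr v2.symm v1.symm))))

theorem lab (H : MM n β M) {δ : ℕ} (hd : ∀ s, Dn β M s → δ ∣ s) {a b a' b' : ℕ}
    (h : RR β (M a b) (M a' b')) : a ≡ a' [MOD δ] := by
  rcases Nat.le_total a a' with h1 | h1
  · exact (Nat.modEq_iff_dvd' h1).2 (hd _ (lab0 H h h1))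
  · exact ((Nat.modEq_iff_dvd' h1).2 (hd _ (lab0 H h.symm h1))).symm

/-! ### the two kinds -/

theorem z_del2 {a b a' b' : ℕ} (h : RR β (Z a ++ 2 :: Z b) (Z a' ++ 2 :: Z b')) :
    RR β (Z (a + b)) (Z (a' + b')) := by
  have h1 := sub_t [] h
  rw [z_add, z_add]
  exact h1

theorem mmA (H : LL n β) : MM n β (fun p q => V p q 0 0) where
  pos := H.pos
  m1 := a1 H
  m2 := a2 H
  ml := fun p _ _ _ _ h => v_left p h
  mr := fun q _ _ _ _ h => v_mid q 0 h
  mz := fun a _ _ h => by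
    have h1 := rr_left (Z a ++ [1]) (rr_right [2, 1] h)
    have e : ∀ b, Z a ++ [1] ++ (Z b ++ [2, 1]) = V a b 0 0 := by
      intro b
      unfold V
      simp
    rw [e, e] at h1
    exact h1
  mt := fun h => by
    have h1 := z_del2 (del_a h)
    exact h1

theorem mmB (H : LL n β) : MM n β (fun p q => V 0 0 p q) where
  pos := H.pos
  m1 := b1 H
  m2 := b2 H
  ml := fun p _ _ _ _ h => v_mid 0 p h
  mr := fun q _ _ _ _ h => v_right q h
  mz := fun a _ _ h => by
    have h1 := rr_left ([1, 2] ++ Z a ++ [1]) h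
    have e : ∀ b, [1, 2] ++ Z a ++ [1] ++ Z b = V 0 0 a b := by
      intro b
      unfold V
      simp
    rw [e, e] at h1
    exact h1
  mt := fun {a b a' b'} h => by
    have h1 := z_del2 (del_a h)
    have e : ∀ m : ℕ, 0 + 0 + m = m := by intro m; omega
    rw [e, e] at h1
    exact h1

/-- letters `x` in the block of the pin give the crossing, kind A -/
theorem pinA (H : LL n β) {i j i' j' m o : ℕ} (h : RR β (V i j 0 0) (V i' j' m o))
    (hm : 1 ≤ m + o) : Dn β (fun p q => V p q 0 0) 1 := by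
  have key : ∀ p q, RR β (V (p + 1 + i) (q + j) 0 0) (V (p + i) (q + 1 + j) 0 0) := by
    intro p q
    have h1 := v_left (p + 1) (v_mid q 0 h)
    have h2 := (v_left p (v_mid (q + 1) 0 h)).symm
    have h3 := (st1 H (i := p + i') (j := j' + q) (k := 0 + m) (l := o) (by omega)).symm
    have e1 : p + i' + 1 = p + 1 + i' := by omega
    have e2 : j' + q + 1 = j' + (q + 1) := by omega
    have e3 : j + q = q + j := by omega
    have e4 : j + (q + 1) = q + 1 + j := by omega
    rw [e1, e2] at h3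
    rw [e3] at h1
    rw [e4] at h2
    exact RR.tr h1 (RR.tr h3 h2)
  have h4 := lab0 (mmA H) (a := 0 + i) (b := 0 + 1 + j) (a' := 0 + 1 + i) (b' := 0 + j)
    (key 0 0).symm (by omega)
  have e : 0 + 1 + i - (0 + i) = 1 := by omega
  rw [e] at h4
  exact h4

/-- letters `x` in the block of the pin give the crossing, kind B -/
theorem pinB (H : LL n β) {k l k' l' m o : ℕ} (h : RR β (V 0 0 k l) (V m o k' l'))
    (hm : 1 ≤ m + o) : Dn β (fun p q => V 0 0 p q) 1 := by
  have key : ∀ p q, RR β (V 0 0 (p + 1 + k) (l + q)) (V 0 0 (p + k) (l + (q + 1))) := by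
    intro p q
    have h1 := v_mid 0 (p + 1) (v_right q h)
    have h2 := (v_mid 0 p (v_right (q + 1) h)).symm
    have h3 := (st2 H (i := m) (j := o + 0) (k := p + k') (l := l' + q) (by omega)).symm
    have e1 : p + k' + 1 = p + 1 + k' := by omega
    have e2 : l' + q + 1 = l' + (q + 1) := by omega
    rw [e1, e2] at h3
    exact RR.tr h1 (RR.tr h3 h2)
  have h4 := lab0 (mmB H) (a := 0 + k) (b := l + (0 + 1)) (a' := 0 + 1 + k) (b' := l + 0)
    (key 0 0).symm (by omega)
  have e : 0 + 1 + k - (0 + k) = 1 := by omega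
  rw [e] at h4
  exact h4

end Pool.Agent.MWX
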