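import Pool.Agent.Helper57_MWX.PL
import Pool.Agent.Helper21_MVD.PEN
import Pool.Agent.Helper32_MVD.GEN

/-!
# The label pentagon (block MWX)
-/

set_option autoImplicit false

namespace Pool.Agent.MWX

open Pool.Agent.Helper14_MV Pool.Agent.Helper2_MV Pool.Agent.MVD

variable {β : FIC} {n : ℕ}

/-- `P x^i a x^j t x^k s x^l Q` -/
def Wd (P Q : List ℕ) (i j k l : ℕ) : List ℕ :=
  P ++ (Z i ++ 1 :: (Z j ++ 2 :: (Z k ++ 3 :: (Z l ++ Q))))

/-- the language of the labels -/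
def BLp (P Q : List ℕ) (δ : ℕ) (u : List ℕ) : Prop :=
  ∃ i j k l, δ ∣ j ∧ u = Wd P Q i j k l

/-! ### splitting -/

theorem z_s (i : ℕ) : Z (i + 1) = 0 :: Z i := rfl

theorem spl {c : ℕ} (hc : c ≠ 0) {A B Y : List ℕ} {i : ℕ} (h : A ++ 0 :: B = Z i ++ c :: Y) :
    (∃ i1 i2, i = i1 + 1 + i2 ∧ A = Z i1 ∧ B = Z i2 ++ c :: Y) ∨
      (∃ A', A = Z i ++ c :: A' ∧ A' ++ 0 :: B = Y) := by
  induction A generalizing i with
  | nil =>
    rcases i with _ | i
    · simp only [List.nil_append, List.replicate_zero, List.cons.injEq] at h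
      exact absurd h.1.symm hc
    · rw [z_s] at h
      simp only [List.nil_append, List.cons_append, List.cons.injEq, true_and] at h
      exact Or.inl ⟨0, i, by omega, rfl, h⟩
  | cons a A ih =>
    rcases i with _ | i
    · simp only [List.cons_append, List.replicate_zero, List.nil_append, List.cons.injEq] at h
      exact Or.inr ⟨A, by rw [h.1]; rfl, h.2⟩
    · rw [z_s] at h
      simp only [List.cons_append, List.cons.injEq] at h
      rcases ih h.2 with ⟨i1, i2, e1, e2, e3⟩ | ⟨A', e1, e2⟩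
      · exact Or.inl ⟨i1 + 1, i2, by omega, by rw [h.1, e2]; rfl, e3⟩
      · exact Or.inr ⟨A', by rw [h.1, e1]; rfl, e2⟩

theorem splQ {Q A B : List ℕ} (hQ : 0 ∉ Q) {i : ℕ} (h : A ++ 0 :: B = Z i ++ Q) :
    ∃ i1 i2, i = i1 + 1 + i2 ∧ A = Z i1 ∧ B = Z i2 ++ Q := by
  induction A generalizing i with
  | nil =>
    rcases i with _ | i
    · exfalso
      apply hQ
      simp only [List.nil_append, List.replicate_zero] at h
      rw [← h]
      simp
    · rw [z_s] at h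
      simp only [List.nil_append, List.cons_append, List.cons.injEq, true_and] at h
      exact ⟨0, i, by omega, rfl, h⟩
  | cons a A ih =>
    rcases i with _ | i
    · exfalso
      apply hQ
      simp only [List.replicate_zero, List.nil_append] at h
      rw [← h]
      simp
    · rw [z_s] at h
      simp only [List.cons_append, List.cons.injEq] at h
      obtain ⟨i1, i2, e1, e2, e3⟩ := ih h.2
      exact ⟨i1 + 1, i2, by omega, by rw [h.1, e2]; rfl, e3⟩

theorem strip {c : ℕ} (hc : c ≠ 0) {B Y : List ℕ} {m i : ℕ} (h : Z m ++ B = Z i ++ c :: Y) :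
    ∃ i3, i = m + i3 ∧ B = Z i3 ++ c :: Y := by
  induction m generalizing i with
  | zero => exact ⟨i, by omega, h⟩
  | succ m ih =>
    rcases i with _ | i
    · rw [z_s] at h
      simp only [List.cons_append, List.replicate_zero, List.nil_append, List.cons.injEq] at h
      exact absurd h.1.symm hc
    · rw [z_s, z_s] at h
      simp only [List.cons_append, List.cons.injEq, true_and] at h
      obtain ⟨i3, e1, e2⟩ := ih h
      exact ⟨i3, by omega, e2⟩

theorem stripQ {Q B : List ℕ} (hQ : 0 ∉ Q) {m i : ℕ} (h : Z m ++ B = Z i ++ Q) :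
    ∃ i3, i = m + i3 ∧ B = Z i3 ++ Q := by
  induction m generalizing i with
  | zero => exact ⟨i, by omega, h⟩
  | succ m ih =>
    rcases i with _ | i
    · exfalso
      apply hQ
      simp only [List.replicate_zero, List.nil_append] at h
      rw [← h]
      simp
    · rw [z_s, z_s] at h
      simp only [List.cons_append, List.cons.injEq, true_and] at h
      obtain ⟨i3, e1, e2⟩ := ih h
      exact ⟨i3, by omega, e2⟩

theorem preP {P A B X : List ℕ} (hP : 0 ∉ P) (h : A ++ 0 :: B = P ++ X) :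
    ∃ A', A = P ++ A' ∧ A' ++ 0 :: B = X := by
  induction P generalizing A with
  | nil => exact ⟨A, rfl, h⟩
  | cons p P ih =>
    rcases A with _ | ⟨a, A⟩
    · exfalso
      apply hP
      simp only [List.nil_append, List.cons_append, List.cons.injEq] at h
      rw [← h.1]
      simp
    · simp only [List.cons_append, List.cons.injEq] at h
      obtain ⟨A', e1, e2⟩ := ih (fun h0 => hP (by simp [h0])) h.2
      exact ⟨A', by rw [h.1, e1]; rfl, e2⟩

theorem z3 (i1 N i2 : ℕ) (Y : List ℕ) :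
    Z (i1 + 1 + (N + i2)) ++ Y = Z i1 ++ 0 :: (Z N ++ (Z i2 ++ Y)) := by
  rw [z_add (i1 + 1), z_add i1, z_add N]
  have e : Z 1 = [0] := rfl
  rw [e]
  simp only [List.append_assoc, List.cons_append, List.nil_append]

theorem z2p (i1 i2 : ℕ) (Y : List ℕ) : Z (i1 + 1 + i2) ++ Y = Z i1 ++ 0 :: (Z i2 ++ Y) := by
  rw [z_add, z_add]
  simp

/-- insertion of `δ m` letters next to a letter `0` -/
theorem bl_ins {P Q : List ℕ} (hP : 0 ∉ P) (hQ : 0 ∉ Q) {δ N : ℕ} (hN : δ ∣ N)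
    (A B : List ℕ) : BLp P Q δ (A ++ 0 :: B) ↔ BLp P Q δ (A ++ 0 :: (Z N ++ B)) := by
  constructor
  · rintro ⟨i, j, k, l, hj, h⟩
    unfold Wd at h
    obtain ⟨A1, rfl, h1⟩ := preP hP h
    rcases spl (by decide) h1 with ⟨i1, i2, e1, e2, e3⟩ | ⟨A2, rfl, h2⟩
    · refine ⟨i1 + 1 + (N + i2), j, k, l, hj, ?_⟩
      unfold Wd
      rw [z3, e2, e3, List.append_assoc]
    rcases spl (by decide) h2 with ⟨i1, i2, e1, e2, e3⟩ | ⟨A3, rfl, h3⟩
    · refine ⟨i, i1 + 1 + (N + i2), k, l, ?_, ?_⟩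
      · rw [e1] at hj
        have := Nat.dvd_add hj hN
        have e : i1 + 1 + (N + i2) = i1 + 1 + i2 + N := by omega
        rw [e]
        exact this
      · unfold Wd
        rw [z3, e2, e3]
        simp only [List.append_assoc, List.cons_append]
    rcases spl (by decide) h3 with ⟨i1, i2, e1, e2, e3⟩ | ⟨A4, rfl, h4⟩
    · refine ⟨i, j, i1 + 1 + (N + i2), l, hj, ?_⟩
      unfold Wd
      rw [z3, e2, e3]
      simp only [List.append_assoc, List.cons_append]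
    · obtain ⟨i1, i2, e1, e2, e3⟩ := splQ hQ h4
      refine ⟨i, j, k, i1 + 1 + (N + i2), hj, ?_⟩
      unfold Wd
      rw [z3, e2, e3]
      simp only [List.append_assoc, List.cons_append]
  · rintro ⟨i, j, k, l, hj, h⟩
    unfold Wd at h
    obtain ⟨A1, rfl, h1⟩ := preP hP h
    rcases spl (by decide) h1 with ⟨i1, i2, e1, e2, e3⟩ | ⟨A2, rfl, h2⟩
    · obtain ⟨i3, e4, e5⟩ := strip (by decide) e3
      refine ⟨i1 + 1 + i3, j, k, l, hj, ?_⟩
      unfold Wd
      rw [z2p, e2, e5, List.append_assoc]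
    rcases spl (by decide) h2 with ⟨i1, i2, e1, e2, e3⟩ | ⟨A3, rfl, h3⟩
    · obtain ⟨i3, e4, e5⟩ := strip (by decide) e3
      refine ⟨i, i1 + 1 + i3, k, l, ?_, ?_⟩
      · have e : j = N + (i1 + 1 + i3) := by omega
        rw [e] at hj
        exact (Nat.dvd_add_right hN).1 hj
      · unfold Wd
        rw [z2p, e2, e5]
        simp only [List.append_assoc, List.cons_append]
    rcases spl (by decide) h3 with ⟨i1, i2, e1, e2, e3⟩ | ⟨A4, rfl, h4⟩
    · obtain ⟨i3, e4, e5⟩ := strip (by decide) e3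
      refine ⟨i, j, i1 + 1 + i3, l, hj, ?_⟩
      unfold Wd
      rw [z2p, e2, e5]
      simp only [List.append_assoc, List.cons_append]
    · obtain ⟨i1, i2, e1, e2, e3⟩ := splQ hQ h4
      obtain ⟨i3, e4, e5⟩ := stripQ hQ e3
      refine ⟨i, j, k, i1 + 1 + i3, hj, ?_⟩
      unfold Wd
      rw [z2p, e2, e5]
      simp only [List.append_assoc, List.cons_append]

theorem bl_insZ {P Q : List ℕ} (hP : 0 ∉ P) (hQ : 0 ∉ Q) {δ N : ℕ} (hN : δ ∣ N) {m : ℕ}
    (hm : 1 ≤ m) (X Y : List ℕ) :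
    BLp P Q δ (X ++ (Z (m + N) ++ Y)) ↔ BLp P Q δ (X ++ (Z m ++ Y)) := by
  obtain ⟨m', rfl⟩ : ∃ m', m = m' + 1 := ⟨m - 1, by omega⟩
  have h := bl_ins hP hQ hN (X ++ Z m') Y
  have e1 : X ++ (Z (m' + 1 + N) ++ Y) = X ++ Z m' ++ 0 :: (Z N ++ Y) := by
    rw [z_add, z_add]
    simp
  have e2 : X ++ (Z (m' + 1) ++ Y) = X ++ Z m' ++ 0 :: Y := by
    rw [z_add]
    simp
  rw [e1, e2]
  exact h.symm

/-! ### instances -/

/-- the conditions on the frame -/
structure PQ (P Q : List ℕ) : Prop where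
  p0 : 0 ∉ P
  q0 : 0 ∉ Q
  c2 : ∀ c, (P ++ ([1, 2, 3] ++ Q)).count c ≤ 2
  fp : P.filter (fun x => decide (x = 0 ∨ x = 2 ∨ x = 3)) = []
  fq : Q.filter (fun x => decide (x = 0 ∨ x = 2 ∨ x = 3)) = []
  o1 : 1 ∈ P ∨ 1 ∈ Q

theorem bl_count {P Q : List ℕ} (hPQ : PQ P Q) {δ : ℕ} {u : List ℕ} (h : BLp P Q δ u) {c : ℕ}
    (hc : c ≠ 0) : u.count c ≤ 2 := by
  obtain ⟨i, j, k, l, _, rfl⟩ := h
  have h1 := hPQ.c2 c
  have h0 : ∀ i : ℕ, (Z i).count c = 0 := fun i => by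
    rw [List.count_eq_zero]
    intro h2
    exact hc (List.eq_of_mem_replicate h2)
  unfold Wd
  simp only [List.count_append, List.count_cons, h0, List.count_nil] at h1 ⊢
  omega

theorem flat_wd (φ : ℕ → List ℕ) (P Q : List ℕ) (i j k l : ℕ) :
    (Wd P Q i j k l).flatMap φ = P.flatMap φ ++ ((Z i).flatMap φ ++ (φ 1 ++ ((Z j).flatMap φ ++
      (φ 2 ++ ((Z k).flatMap φ ++ (φ 3 ++ ((Z l).flatMap φ ++ Q.flatMap φ))))))) := by
  unfold Wd
  simp only [List.flatMap_append, List.flatMap_cons]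

theorem pow_count (φ : ℕ → List ℕ) (i c : ℕ) :
    ((Z i).flatMap φ).count c = i * (φ 0).count c := by
  induction i with
  | zero => simp
  | succ i ih =>
    have e : Z (i + 1) = 0 :: Z i := rfl
    rw [e, List.flatMap_cons, List.count_append, ih, Nat.add_mul, Nat.one_mul, Nat.add_comm]

theorem pow_z {φ : ℕ → List ℕ} {a : ℕ} (h : φ 0 = Z a) (i : ℕ) :
    (Z i).flatMap φ = Z (i * a) := by
  induction i with
  | zero => simp
  | succ i ih =>
    have e : Z (i + 1) = 0 :: Z i := rfl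
    rw [e, List.flatMap_cons, ih, h, ← z_add, Nat.add_mul, Nat.one_mul, Nat.add_comm]

/-- equal, or positive and larger by a multiple of `n` -/
def Rl (n x y : ℕ) : Prop := ∃ e, x = y + n * e ∧ (e = 0 ∨ 1 ≤ y)

theorem bl_pow {P Q : List ℕ} (hPQ : PQ P Q) {δ : ℕ} (hδ : δ ∣ n) {φ : ℕ → List ℕ} {a : ℕ}
    (h0 : φ 0 = Z a) {x y : ℕ} (hr : Rl n x y) (X Y : List ℕ) :
    BLp P Q δ (X ++ ((Z x).flatMap φ ++ Y)) ↔ BLp P Q δ (X ++ ((Z y).flatMap φ ++ Y)) := by
  obtain ⟨e, rfl, he⟩ := hr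
  rw [pow_z h0, pow_z h0]
  rcases he with he | he
  · rw [he, Nat.mul_zero, Nat.add_zero]
  · rcases Nat.eq_zero_or_pos a with ha | ha
    · rw [ha, Nat.mul_zero, Nat.mul_zero]
    · have e1 : (y + n * e) * a = y * a + n * (e * a) := by
        rw [Nat.add_mul, Nat.mul_assoc]
      rw [e1]
      exact bl_insZ hPQ.p0 hPQ.q0 (Dvd.dvd.mul_right hδ _) (Nat.mul_pos he ha) X Y

/-- the images of `0` contain only `0` -/
theorem bl_img {P Q : List ℕ} (hPQ : PQ P Q) {δ : ℕ} {φ : ℕ → List ℕ} {M N : List ℕ}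
    {i j k l : ℕ} (h3 : 3 ≤ i + j + k + l)
    (h : BLp P Q δ (M ++ ((Wd P Q i j k l).flatMap φ ++ N))) : ∃ a, φ 0 = Z a := by
  refine ⟨(φ 0).length, List.eq_replicate_of_mem ?_⟩
  intro c hc
  by_contra hc0
  have h1 := bl_count hPQ h hc0
  rw [flat_wd] at h1
  simp only [List.count_append, pow_count] at h1
  have h2 : 1 ≤ (φ 0).count c := List.one_le_count_iff.2 hc
  have m1 : i ≤ i * (φ 0).count c := Nat.le_mul_of_pos_right i h2
  have m2 : j ≤ j * (φ 0).count c := Nat.le_mul_of_pos_right j h2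
  have m3 : k ≤ k * (φ 0).count c := Nat.le_mul_of_pos_right k h2
  have m4 : l ≤ l * (φ 0).count c := Nat.le_mul_of_pos_right l h2
  omega

theorem bl_step {P Q : List ℕ} (hPQ : PQ P Q) {δ : ℕ} (hδ : δ ∣ n) {i j k l i' j' k' l' : ℕ}
    (h3 : 3 ≤ i + j + k + l) (ri : Rl n i' i) (rj : Rl n j' j) (rk : Rl n k' k)
    (rl : Rl n l' l) (φ : ℕ → List ℕ) (M N : List ℕ) :
    BLp P Q δ (M ++ ((Wd P Q i' j' k' l').flatMap φ ++ N)) ↔
      BLp P Q δ (M ++ ((Wd P Q i j k l).flatMap φ ++ N)) := by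
  have key : ∀ a, φ 0 = Z a → (BLp P Q δ (M ++ ((Wd P Q i' j' k' l').flatMap φ ++ N)) ↔
      BLp P Q δ (M ++ ((Wd P Q i j k l).flatMap φ ++ N))) := by
    intro a ha
    rw [flat_wd, flat_wd]
    have s1 := bl_pow hPQ hδ ha ri (M ++ P.flatMap φ) (φ 1 ++ ((Z j').flatMap φ ++
      (φ 2 ++ ((Z k').flatMap φ ++ (φ 3 ++ ((Z l').flatMap φ ++ (Q.flatMap φ ++ N)))))))
    have s2 := bl_pow hPQ hδ ha rj (M ++ (P.flatMap φ ++ ((Z i).flatMap φ ++ φ 1)))
      (φ 2 ++ ((Z k').flatMap φ ++ (φ 3 ++ ((Z l').flatMap φ ++ (Q.flatMap φ ++ N)))))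
    have s3 := bl_pow hPQ hδ ha rk (M ++ (P.flatMap φ ++ ((Z i).flatMap φ ++ (φ 1 ++
      ((Z j).flatMap φ ++ φ 2))))) (φ 3 ++ ((Z l').flatMap φ ++ (Q.flatMap φ ++ N)))
    have s4 := bl_pow hPQ hδ ha rl (M ++ (P.flatMap φ ++ ((Z i).flatMap φ ++ (φ 1 ++
      ((Z j).flatMap φ ++ (φ 2 ++ ((Z k).flatMap φ ++ φ 3))))))) (Q.flatMap φ ++ N)
    simp only [List.append_assoc] at s1 s2 s3 s4 ⊢
    exact s1.trans (s2.trans (s3.trans s4))
  constructor
  · intro h
    have hle : 3 ≤ i' + j' + k' + l' := by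
      obtain ⟨e1, h1, -⟩ := ri
      obtain ⟨e2, h2, -⟩ := rj
      obtain ⟨e3, h3', -⟩ := rk
      obtain ⟨e4, h4, -⟩ := rl
      omega
    obtain ⟨a, ha⟩ := bl_img hPQ hle h
    exact (key a ha).1 h
  · intro h
    obtain ⟨a, ha⟩ := bl_img hPQ h3 h
    exact (key a ha).2 h

/-! ### the language of the types -/

/-- only the letters `0, 2, 3` -/
def ft (x : ℕ) : Bool := decide (x = 0 ∨ x = 2 ∨ x = 3)

/-- the type of `x` -/
def TL (S1 : ℕ → ℕ → Prop) (u : List ℕ) : Prop :=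
  ∃ k l, S1 k l ∧ u.filter ft = 0 :: 2 :: (Z k ++ 3 :: Z l)

theorem ft_z (i : ℕ) : (Z i).filter ft = Z i := by
  rw [List.filter_eq_self]
  intro x hx
  rw [List.eq_of_mem_replicate hx]
  rfl

theorem wd_filter {P Q : List ℕ} (hPQ : PQ P Q) (i j k l : ℕ) :
    (Wd P Q i j k l).filter ft = Z (i + j) ++ 2 :: (Z k ++ 3 :: Z l) := by
  have h1 : P.filter ft = [] := hPQ.fp
  have h2 : Q.filter ft = [] := hPQ.fq
  unfold Wd
  rw [List.filter_append, List.filter_append, List.filter_cons_of_neg (by decide),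
    List.filter_append, List.filter_cons_of_pos (by decide), List.filter_append,
    List.filter_cons_of_pos (by decide), List.filter_append, h1, h2, ft_z, ft_z, ft_z, ft_z,
    z_add]
  simp only [List.append_assoc, List.nil_append, List.append_nil]

theorem tl_count {S1 : ℕ → ℕ → Prop} {u : List ℕ} (h : TL S1 u) {c : ℕ} (hc : c ≠ 0)
    (hf : ft c = true) : u.count c ≤ 1 := by
  obtain ⟨k, l, _, e⟩ := h
  have h1 : (u.filter ft).count c = u.count c := List.count_filter hf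
  rw [e] at h1
  have h0 : ∀ i : ℕ, (Z i).count c = 0 := fun i => by
    rw [List.count_eq_zero]
    intro h2
    exact hc (List.eq_of_mem_replicate h2)
  simp only [List.count_append, List.count_cons, h0] at h1
  rw [← h1]
  by_cases h2 : c = 2
  · subst h2; simp
  · by_cases h3 : c = 3
    · subst h3; simp
    · have h4 : ft c = false := by
        unfold ft
        simp [hc, h2, h3]
      rw [h4] at hf
      simp at hf

theorem pow_filter (φ : ℕ → List ℕ) {a : ℕ} (h : (φ 0).filter ft = Z a) (i : ℕ) :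
    ((Z i).flatMap φ).filter ft = Z (i * a) := by
  induction i with
  | zero => simp
  | succ i ih =>
    have e : Z (i + 1) = 0 :: Z i := rfl
    rw [e, List.flatMap_cons, List.filter_append, ih, h, ← z_add, Nat.add_mul, Nat.one_mul,
      Nat.add_comm]

theorem filter_z {L : List ℕ} (h : ∀ c ∈ L, c ≠ 0 → ft c = false) :
    ∃ a, L.filter ft = Z a := by
  refine ⟨(L.filter ft).length, List.eq_replicate_of_mem ?_⟩
  intro c hc
  rw [List.mem_filter] at hc
  by_contra h0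
  have := h c hc.1 h0
  rw [this] at hc
  simp at hc

theorem tl_step' {P Q : List ℕ} (hPQ : PQ P Q) (S1 : ℕ → ℕ → Prop) {i j k l : ℕ}
    (h2 : 2 ≤ i + j + k + l) (φ : ℕ → List ℕ) (M N : List ℕ)
    (h : TL S1 (M ++ ((Wd P Q i j k l).flatMap φ ++ N))) :
    TL S1 (M ++ ((Wd P Q j i k l).flatMap φ ++ N)) := by
  have c0 : ∀ c ∈ φ 0, c ≠ 0 → ft c = false := by
    intro c hc hc0
    by_contra hf
    have hf' : ft c = true := by simpa using hf
    have h1 := tl_count h hc0 hf'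
    rw [flat_wd] at h1
    simp only [List.count_append, pow_count] at h1
    have h3 : 1 ≤ (φ 0).count c := List.one_le_count_iff.2 hc
    have m1 : i ≤ i * (φ 0).count c := Nat.le_mul_of_pos_right i h3
    have m2 : j ≤ j * (φ 0).count c := Nat.le_mul_of_pos_right j h3
    have m3 : k ≤ k * (φ 0).count c := Nat.le_mul_of_pos_right k h3
    have m4 : l ≤ l * (φ 0).count c := Nat.le_mul_of_pos_right l h3
    omega
  have c1 : ∀ c ∈ φ 1, c ≠ 0 → ft c = false := by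
    intro c hc hc0
    by_contra hf
    have hf' : ft c = true := by simpa using hf
    have h1 := tl_count h hc0 hf'
    rw [flat_wd] at h1
    simp only [List.count_append, pow_count] at h1
    have h3 : 1 ≤ (φ 1).count c := List.one_le_count_iff.2 hc
    have h4 : 1 ≤ (P.flatMap φ).count c + (Q.flatMap φ).count c := by
      rcases hPQ.o1 with h5 | h5
      · have : 1 ≤ (P.flatMap φ).count c :=
          List.one_le_count_iff.2 (List.mem_flatMap.2 ⟨1, h5, hc⟩)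
        omega
      · have : 1 ≤ (Q.flatMap φ).count c :=
          List.one_le_count_iff.2 (List.mem_flatMap.2 ⟨1, h5, hc⟩)
        omega
    omega
  obtain ⟨a, ha⟩ := filter_z c0
  obtain ⟨b, hb⟩ := filter_z c1
  obtain ⟨k', l', hs, e⟩ := h
  refine ⟨k', l', hs, ?_⟩
  rw [← e, flat_wd, flat_wd]
  simp only [List.filter_append, pow_filter φ ha, hb]
  have e1 : ∀ x y z : ℕ, ∀ R : List ℕ, Z x ++ (Z y ++ (Z z ++ R)) = Z (x + y + z) ++ R := by
    intro x y z R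
    rw [z_add, z_add]
    simp only [List.append_assoc]
  simp only [List.append_assoc, e1]
  have e2 : j * a + b + i * a = i * a + b + j * a := by omega
  rw [e2]

theorem tl_step {P Q : List ℕ} (hPQ : PQ P Q) (S1 : ℕ → ℕ → Prop) {i j k l : ℕ}
    (h2 : 2 ≤ i + j + k + l) (φ : ℕ → List ℕ) (M N : List ℕ) :
    TL S1 (M ++ ((Wd P Q i j k l).flatMap φ ++ N)) ↔
      TL S1 (M ++ ((Wd P Q j i k l).flatMap φ ++ N)) :=
  ⟨tl_step' hPQ S1 h2 φ M N, tl_step' hPQ S1 (by omega) φ M N⟩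

/-! ### the pentagon -/

/-- the small language -/
def AL (P Q : List ℕ) (S1 : ℕ → ℕ → Prop) (u : List ℕ) : Prop :=
  ∃ k l, S1 k l ∧ u = Wd P Q 1 0 k l

theorem z_inj {c : ℕ} (hc : c ≠ 0) {i j : ℕ} {X Y : List ℕ} (h : Z i ++ c :: X = Z j ++ c :: Y) :
    i = j ∧ X = Y := by
  obtain ⟨i3, e1, e2⟩ := strip hc h
  rcases i3 with _ | i3
  · simp only [List.replicate_zero, List.nil_append, List.cons.injEq, true_and] at e2
    exact ⟨by omega, e2⟩
  · rw [z_s] at e2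
    simp only [List.cons_append, List.cons.injEq] at e2
    exact absurd e2.1 hc

theorem al_of {P Q : List ℕ} (hPQ : PQ P Q) {S1 : ℕ → ℕ → Prop} {δ : ℕ} (hδ : 2 ≤ δ)
    {u : List ℕ} (hb : BLp P Q δ u) (ht : TL S1 u) : AL P Q S1 u := by
  obtain ⟨i, j, k, l, hj, rfl⟩ := hb
  obtain ⟨k', l', hs, e⟩ := ht
  rw [wd_filter hPQ] at e
  have e' : Z (i + j) ++ 2 :: (Z k ++ 3 :: Z l) = Z 1 ++ 2 :: (Z k' ++ 3 :: Z l') := e
  obtain ⟨f1, f2⟩ := z_inj (by decide) e'
  obtain ⟨f3, f4⟩ := z_inj (by decide) f2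
  have f5 : l = l' := by
    have := congrArg List.length f4
    simpa using this
  have hj0 : j = 0 := by
    rcases Nat.eq_zero_or_pos j with h | h
    · exact h
    · have := Nat.le_of_dvd h hj
      omega
  have hi : i = 1 := by omega
  rw [hj0, hi, f3, f5]
  exact ⟨k', l', hs, rfl⟩

theorem of_al {P Q : List ℕ} (hPQ : PQ P Q) {S1 : ℕ → ℕ → Prop} (δ : ℕ) {u : List ℕ}
    (h : AL P Q S1 u) : BLp P Q δ u ∧ TL S1 u := by
  obtain ⟨k, l, hs, rfl⟩ := h
  exact ⟨⟨1, 0, k, l, Nat.dvd_zero δ, rfl⟩, ⟨k, l, hs, wd_filter hPQ 1 0 k l⟩⟩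

/-- **the label pentagon** -/
theorem lpen (hn : 1 ≤ n) (hm : ModF β) {P Q : List ℕ} (hPQ : PQ P Q) {S1 : ℕ → ℕ → Prop}
    {δ : ℕ} (hδ : 2 ≤ δ) (hδn : δ ∣ n) {k1 l1 k2 l2 : ℕ} (hS : S1 k2 l2) (hk : Rl n k1 k2)
    (hl : Rl n l1 l2) (h2 : 2 ≤ k2 + l2)
    (keepB : ∀ u u', RR β u u' → BLp P Q δ u → BLp P Q δ u')
    (keepT : ∀ u u', RR β u u' → TL S1 u → TL S1 u')
    (h14 : ∀ φ M N, AL P Q S1 (M ++ ((Wd P Q (n + 1) 0 k1 l1).flatMap φ ++ N)) ↔
      AL P Q S1 (M ++ ((Wd P Q 0 (n + 1) k1 l1).flatMap φ ++ N))) : False := by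
  let E14 : List ℕ × List ℕ := (Wd P Q (n + 1) 0 k1 l1, Wd P Q 0 (n + 1) k1 l1)
  let E12 : List ℕ × List ℕ := (Wd P Q (n + 1) 0 k1 l1, Wd P Q 1 0 k2 l2)
  let E43 : List ℕ × List ℕ := (Wd P Q 0 (n + 1) k1 l1, Wd P Q 0 1 k2 l2)
  let E23 : List ℕ × List ℕ := (Wd P Q 1 0 k2 l2, Wd P Q 0 1 k2 l2)
  obtain ⟨ρ, hρ, gρ, mρ, pρ⟩ := H32.gen β (fun e => e = E14)
  obtain ⟨σ, hσ, gσ, mσ, pσ⟩ := H32.gen β (fun e => e = E12 ∨ e = E43)
  obtain ⟨τ, hτ, gτ, mτ, pτ⟩ := H32.gen β (fun e => e = E14 ∨ e = E23)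
  have hle : ρ ≤ τ := mρ τ hτ (fun e he => gτ e (Or.inl he))
  have yab : ∀ w, AL P Q S1 w → BLp P Q δ w ∧ TL S1 w := fun w h => of_al hPQ δ h
  have yba : ∀ w, BLp P Q δ w ∧ TL S1 w → AL P Q S1 w := fun w h => al_of hPQ hδ h.1 h.2
  have r0 : Rl n 0 0 := ⟨0, by omega, Or.inl rfl⟩
  have r1 : Rl n (n + 1) 1 := ⟨1, by omega, Or.inr (le_refl 1)⟩
  have kA : ∀ w w', RR ρ w w' → AL P Q S1 w → AL P Q S1 w' := by
    apply pρ
    · intro w w' h hw
      obtain ⟨h1, h2⟩ := yab w hw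
      exact yba w' ⟨keepB _ _ h h1, keepT _ _ h h2⟩
    · rintro e rfl φ M N
      exact h14 φ M N
  have kB : ∀ w w', RR σ w w' → BLp P Q δ w → BLp P Q δ w' := by
    apply pσ
    · intro w w' h hw
      exact keepB _ _ h hw
    · rintro e (rfl | rfl) φ M N
      · exact bl_step hPQ hδn (by omega) r1 r0 hk hl φ M N
      · exact bl_step hPQ hδn (by omega) r0 r1 hk hl φ M N
  have kT : ∀ w w', RR τ w w' → TL S1 w → TL S1 w' := by
    apply pτ
    · intro w w' h hw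
      exact keepT _ _ h hw
    · rintro e (rfl | rfl) φ M N
      · exact tl_step hPQ S1 (by omega) φ M N
      · exact tl_step hPQ S1 (by omega) φ M N
  have hA0 : AL P Q S1 (Wd P Q 1 0 k2 l2) := ⟨k2, l2, hS, rfl⟩
  have hA1 : ¬ AL P Q S1 (Wd P Q 0 1 k2 l2) := by
    rintro ⟨k, l, _, h⟩
    unfold Wd at h
    have h1 := List.append_cancel_left h
    simp at h1
  refine H21.pen β hm ρ σ τ _ _ _ hρ hσ hτ hle kA kB kT yab (fun w h1 h2 => yba w ⟨h1, h2⟩)
    (Wd P Q 1 0 k2 l2) (Wd P Q 0 1 k2 l2) hA0 hA1 (gτ E23 (Or.inr rfl)) ?_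
  have s12 : RR σ (Wd P Q (n + 1) 0 k1 l1) (Wd P Q 1 0 k2 l2) := gσ E12 (Or.inl rfl)
  have s43 : RR σ (Wd P Q 0 (n + 1) k1 l1) (Wd P Q 0 1 k2 l2) := gσ E43 (Or.inr rfl)
  have s14 : RR ρ (Wd P Q (n + 1) 0 k1 l1) (Wd P Q 0 (n + 1) k1 l1) := gρ E14 rfl
  exact (FIC.sup ρ σ).trans ((FIC.le_sup_right _ _) _ _ s12.symm)
    ((FIC.sup ρ σ).trans ((FIC.le_sup_left _ _) _ _ s14) ((FIC.le_sup_right _ _) _ _ s43))

end Pool.Agent.MWX
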