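import Pool.Agent.Helper57_MWX.PL
import Pool.Agent.Helper21_MVD.PEN
import Pool.Agent.Helper32_MVD.GEN

/-!
# `x²y² ≈ y²x²` holds in the whole LR world (block MWX)
-/

set_option autoImplicit false

namespace Pool.Agent.MWX

open Pool.Agent.Helper14_MV Pool.Agent.Helper2_MV Pool.Agent.MVD

variable {β : FIC} {n : ℕ}

theorem heavy3 (H : LL n β) {w w' : List ℕ}
    (hw : ∀ c ∈ w, c = 0 ∨ c = 1) (hw' : ∀ c ∈ w', c = 0 ∨ c = 1)
    (s1 : List.Sublist [1, 0] w) (s2 : List.Sublist [0, 1] w)
    (s1' : List.Sublist [1, 0] w') (s2' : List.Sublist [0, 1] w')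
    (h0 : 2 ≤ w.count 0) (h1 : 2 ≤ w.count 1) (h0' : 2 ≤ w'.count 0) (h1' : 2 ≤ w'.count 1)
    (e0 : RR β (Z (w.count 0)) (Z (w'.count 0)))
    (e1 : RR β (List.replicate (w.count 1) 1) (List.replicate (w'.count 1) 1)) :
    RR β w w' := by
  have n01 : (0 : ℕ) ≠ 1 := by decide
  have q1 : QQ β [] [] w (Uw 0 1 (w.count 0) (w.count 1)) :=
    uns H n01 hw s1 s2 uw_mem (uw_s1 h0 (by omega)) (uw_s2 (by omega)) h0 h1
      (uw_cx n01 (by omega)).symm (uw_cy n01).symm
  have q2 : QQ β [] [] (Uw 0 1 (w.count 0) (w.count 1)) (Uw 0 1 (w.count 0) (w'.count 1)) := by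
    apply QQ.of
    unfold Uw
    exact rr_left [0] (e1.append (RR.refl _))
  have q3 : QQ β [] [] (Uw 0 1 (w.count 0) (w'.count 1)) (Uw 1 0 (w'.count 1) (w.count 0)) :=
    uns H n01 uw_mem (uw_s1 h0 (by omega)) (uw_s2 (by omega))
      (fun c hc => (uw_mem c hc).symm) (uw_s2 (by omega)) (uw_s1 h1' (by omega))
      (by rw [uw_cx n01 (by omega)]; exact h0) (by rw [uw_cy n01]; exact h1')
      (by rw [uw_cx n01 (by omega), uw_cy n01.symm])
      (by rw [uw_cy n01, uw_cx n01.symm (by omega)])
  have q4 : QQ β [] [] (Uw 1 0 (w'.count 1) (w.count 0)) (Uw 1 0 (w'.count 1) (w'.count 0)) := by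
    apply QQ.of
    unfold Uw
    exact rr_left [1] (e0.append (RR.refl _))
  have q5 : QQ β [] [] (Uw 1 0 (w'.count 1) (w'.count 0)) w' :=
    uns H n01 (fun c hc => (uw_mem c hc).symm) (uw_s2 (by omega)) (uw_s1 h1' (by omega))
      hw' s1' s2' (by rw [uw_cy n01.symm]; exact h0') (by rw [uw_cx n01.symm (by omega)]; exact h1')
      (uw_cy n01.symm) (uw_cx n01.symm (by omega))
  have q := q1.tr (q2.tr (q3.tr (q4.tr q5)))
  unfold QQ at q
  simpa only [List.nil_append, List.append_nil] using q

theorem z_rep {i : ℕ} (g : ℕ → ℕ) : (Z i).map g = List.replicate i (g 0) := by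
  rw [List.map_replicate]

/-- the exchange of `0` and `1` -/
def sw : ℕ → ℕ := fun c => Equiv.swap 0 1 c

theorem sw0 : sw 0 = 1 := Equiv.swap_apply_left 0 1
theorem sw1 : sw 1 = 0 := Equiv.swap_apply_right 0 1
theorem sw_inj : Function.Injective sw := (Equiv.swap 0 1).injective

/-- a sorted word which is related to an unsorted word -/
theorem rs (H : LL n β) {b m : ℕ} (hb : 2 ≤ b) (hm : 2 ≤ m) {w : List ℕ}
    (hw : ∀ c ∈ w, c = 0 ∨ c = 1) (s1 : List.Sublist [1, 0] w) (s2 : List.Sublist [0, 1] w)
    (h : RR β (Z b ++ List.replicate m 1) w) : RR β [0, 0, 1, 1] [1, 1, 0, 0] := by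
  have hn := H.pos
  have f0 : RR β (Z b) (Z (w.count 0)) := by
    have h1 := h.filter (fun x => decide (x = 0))
    rw [List.filter_append, Helper79_MWD.count_filter_decide,
      Helper79_MWD.count_filter_decide, Helper79_MWD.count_filter_decide] at h1
    have e1 : (List.replicate m 1).count 0 = 0 := cnt_rep_ne (by decide) m
    rw [List.count_replicate_self, e1] at h1
    simpa using h1
  have f1' : RR β (List.replicate m 1) (List.replicate (w.count 1) 1) := by
    have h1 := h.filter (fun x => decide (x = 1))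
    rw [List.filter_append, Helper79_MWD.count_filter_decide,
      Helper79_MWD.count_filter_decide, Helper79_MWD.count_filter_decide] at h1
    have e1 : (Z b).count 1 = 0 := cnt_rep_ne (by decide) b
    rw [List.count_replicate_self, e1] at h1
    simpa using h1
  have f1 : RR β (Z m) (Z (w.count 1)) := by
    have h1 := Helper61_MWD.ren' sw f1'
    rw [List.map_replicate, List.map_replicate, sw1] at h1
    exact h1
  have c0 : 2 ≤ w.count 0 := lin0 H.iso f0 hb
  have c1 : 2 ≤ w.count 1 := lin0 H.iso f1 hm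
  have hnb : b ≤ n * b := Nat.le_mul_of_pos_left b hn
  have hnm : m ≤ n * m := Nat.le_mul_of_pos_left m hn
  have g0 := zpm H 0 b
  have g1 := zpm H 0 m
  generalize n * b = B at hnb g0
  generalize n * m = C at hnm g1
  obtain ⟨r, hr⟩ : ∃ r, r + b = 0 + 2 + B := ⟨2 + B - b, by omega⟩
  obtain ⟨s, hs⟩ : ∃ s, m + s = 0 + 2 + C := ⟨2 + C - m, by omega⟩
  have k0 : RR β (Z 2) (Z (r + b)) := by rw [hr]; exact g0
  have k1 : RR β (Z 2) (Z (m + s)) := by rw [hs]; exact g1
  have k1' : RR β (List.replicate 2 1) (List.replicate (m + s) 1) := by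
    have h1 := Helper61_MWD.ren' sw k1
    rw [z_rep, z_rep, sw0] at h1
    exact h1
  let W : List ℕ := Z r ++ (w ++ List.replicate s 1)
  have h3 : RR β [0, 0, 1, 1] W := by
    have u1 : RR β [0, 0, 1, 1] (Z (r + b) ++ List.replicate (m + s) 1) := k0.append k1'
    have u2 : RR β (Z r ++ ((Z b ++ List.replicate m 1) ++ List.replicate s 1)) W :=
      rr_left _ (rr_right _ h)
    have e : Z r ++ ((Z b ++ List.replicate m 1) ++ List.replicate s 1) =
        Z (r + b) ++ List.replicate (m + s) 1 := by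
      rw [z_add, List.replicate_add]
      simp only [List.append_assoc]
    rw [e] at u2
    exact RR.tr u1 u2
  have h4 : RR β [1, 1, 0, 0] (W.map sw) := by
    have h1 := Helper61_MWD.ren' sw h3
    have e : ([0, 0, 1, 1] : List ℕ).map sw = [1, 1, 0, 0] := by
      simp only [List.map_cons, List.map_nil, sw0, sw1]
    rw [e] at h1
    exact h1
  have W0 : W.count 0 = r + w.count 0 := by
    show (Z r ++ (w ++ List.replicate s 1)).count 0 = _
    rw [List.count_append, List.count_append, List.count_replicate_self,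
      cnt_rep_ne (by decide) s, Nat.add_zero]
  have W1 : W.count 1 = w.count 1 + s := by
    show (Z r ++ (w ++ List.replicate s 1)).count 1 = _
    rw [List.count_append, List.count_append, List.count_replicate_self,
      cnt_rep_ne (by decide) r, Nat.zero_add]
  have M0 : (W.map sw).count 0 = W.count 1 := by
    have := List.count_map_of_injective W sw sw_inj 1
    rw [sw1] at this
    exact this
  have M1 : (W.map sw).count 1 = W.count 0 := by
    have := List.count_map_of_injective W sw sw_inj 0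
    rw [sw0] at this
    exact this
  have x0 : RR β (Z (W.count 0)) (Z 2) := by
    rw [W0]
    have u1 := rr_left (Z r) f0.symm
    rw [← z_add, ← z_add] at u1
    exact RR.tr u1 k0.symm
  have x1 : RR β (Z (W.count 1)) (Z 2) := by
    rw [W1]
    exact RR.tr (z_ctx s f1.symm) k1.symm
  have hWm : ∀ c ∈ W, c = 0 ∨ c = 1 := by
    intro c hc
    rcases List.mem_append.1 hc with h1 | h1
    · exact Or.inl (List.eq_of_mem_replicate h1)
    · rcases List.mem_append.1 h1 with h2 | h2
      · exact hw c h2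
      · exact Or.inr (List.eq_of_mem_replicate h2)
  have hWm' : ∀ c ∈ W.map sw, c = 0 ∨ c = 1 := by
    intro c hc
    obtain ⟨d, hd, rfl⟩ := List.mem_map.1 hc
    rcases hWm d hd with rfl | rfl
    · exact Or.inr sw0
    · exact Or.inl sw1
  have hsub : List.Sublist w W :=
    (List.sublist_append_left w _).trans (List.sublist_append_right _ _)
  have t1 := s1.trans hsub
  have t2 := s2.trans hsub
  have t1' : List.Sublist [1, 0] (W.map sw) := by
    have := t2.map sw
    simpa only [List.map_cons, List.map_nil, sw0, sw1] using this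
  have t2' : List.Sublist [0, 1] (W.map sw) := by
    have := t1.map sw
    simpa only [List.map_cons, List.map_nil, sw0, sw1] using this
  have h5 : RR β W (W.map sw) := by
    refine heavy3 H hWm hWm' t1 t2 t1' t2' (by omega) (by omega) (by omega) (by omega) ?_ ?_
    · rw [M0]
      exact RR.tr x0 x1.symm
    · rw [M1]
      have h1 := Helper61_MWD.ren' sw (RR.tr x1 x0.symm)
      rw [z_rep, z_rep, sw0] at h1
      exact h1
  exact RR.tr h3 (RR.tr h5 h4.symm)

/-- a sorted word which is related to a word sorted the other way -/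
theorem rrv (H : LL n β) {b m p q : ℕ} (hb : 2 ≤ b) (hm : 2 ≤ m) (hp : 1 ≤ p) (hq : 1 ≤ q)
    (h : RR β (Z b ++ List.replicate m 1) (List.replicate p 1 ++ Z q)) :
    RR β [0, 0, 1, 1] [1, 1, 0, 0] := by
  have h1 : RR β (Z (b + 1) ++ List.replicate m 1) (0 :: (List.replicate p 1 ++ Z q)) :=
    rr_left [0] h
  obtain ⟨p, rfl⟩ : ∃ p', p = p' + 1 := ⟨p - 1, by omega⟩
  obtain ⟨q, rfl⟩ : ∃ q', q = q' + 1 := ⟨q - 1, by omega⟩
  refine rs H (by omega) hm ?_ ?_ ?_ h1
  · intro c hc
    rcases List.mem_cons.1 hc with h2 | h2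
    · exact Or.inl h2
    · rcases List.mem_append.1 h2 with h3 | h3
      · exact Or.inr (List.eq_of_mem_replicate h3)
      · exact Or.inl (List.eq_of_mem_replicate h3)
  · apply List.Sublist.cons
    exact (List.singleton_sublist.2 (by simp : 1 ∈ List.replicate (p + 1) 1)).append
      (List.singleton_sublist.2 (by simp : 0 ∈ Z (q + 1)))
  · exact List.Sublist.cons_cons 0 (List.singleton_sublist.2 (by simp))

end Pool.Agent.MWX
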