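import Pool.Agent.Helper57_MWX.R0

/-!
# `x²y² ≈ y²x²`: the pentagon (block MWX)
-/

set_option autoImplicit false

namespace Pool.Agent.MWX

open Pool.Agent.Helper14_MV Pool.Agent.Helper2_MV Pool.Agent.MVD

variable {β : FIC} {n : ℕ}

/-- the words `x^b y^a t y^c`, by pairs of letters -/
structure B0 (w : List ℕ) : Prop where
  le : ∀ c ∈ w, c ≤ 2
  m2 : 2 ∈ w
  n22 : ¬ List.Sublist [2, 2] w
  s00 : List.Sublist [0, 0] w
  s12 : List.Sublist [1, 2] w
  s21 : List.Sublist [2, 1] w
  n10 : ¬ List.Sublist [1, 0] w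
  n20 : ¬ List.Sublist [2, 0] w

theorem psub {a b : ℕ} {l : List ℕ} :
    List.Sublist [a, b] l ↔ ¬ l.Pairwise (fun c d => ¬ (c = a ∧ d = b)) := by
  rw [List.pairwise_iff_forall_sublist]
  constructor
  · intro h h1
    exact h1 h ⟨rfl, rfl⟩
  · intro h
    by_contra h2
    apply h
    intro c d hcd hh
    rw [hh.1, hh.2] at hcd
    exact h2 hcd

theorem dpair (M X Y N : List ℕ) {a b : ℕ} :
    List.Sublist [a, b] (M ++ (X ++ (Y ++ (X ++ N)))) ↔
      List.Sublist [a, b] (M ++ (X ++ (X ++ (Y ++ (X ++ (X ++ N)))))) := by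
  rw [psub, psub, not_iff_not]
  simp only [List.pairwise_append, List.mem_append]
  constructor
  · rintro ⟨hM, ⟨hX, ⟨hY, ⟨_, hN, hXN⟩, hYr⟩, hXr⟩, hMr⟩
    refine ⟨hM, ⟨hX, ⟨hX, ⟨hY, ⟨hX, ⟨hX, hN, hXN⟩, ?_⟩, ?_⟩, ?_⟩, ?_⟩, ?_⟩
    · intro c hc d hd
      exact hXr c hc d (by tauto)
    · intro c hc d hd
      exact hYr c hc d (by tauto)
    · intro c hc d hd
      exact hXr c hc d (by tauto)
    · intro c hc d hd
      exact hXr c hc d (by tauto)
    · intro c hc d hd
      exact hMr c hc d (by tauto)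
  · rintro ⟨hM, ⟨hX, ⟨_, ⟨hY, ⟨_, ⟨_, hN, hXN⟩, _⟩, hYr⟩, hXr⟩, _⟩, hMr⟩
    refine ⟨hM, ⟨hX, ⟨hY, ⟨hX, hN, hXN⟩, ?_⟩, ?_⟩, ?_⟩
    · intro c hc d hd
      exact hYr c hc d (by tauto)
    · intro c hc d hd
      exact hXr c hc d (by tauto)
    · intro c hc d hd
      exact hMr c hc d (by tauto)

theorem dmem (M X Y N : List ℕ) {c : ℕ} :
    c ∈ M ++ (X ++ (Y ++ (X ++ N))) ↔ c ∈ M ++ (X ++ (X ++ (Y ++ (X ++ (X ++ N))))) := by
  simp only [List.mem_append]
  tauto

theorem dB0 (M X Y N : List ℕ) :
    B0 (M ++ (X ++ (Y ++ (X ++ N)))) ↔ B0 (M ++ (X ++ (X ++ (Y ++ (X ++ (X ++ N)))))) := by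
  constructor
  · intro h
    exact ⟨fun c hc => h.le c ((dmem M X Y N).2 hc), (dmem M X Y N).1 h.m2,
      fun h1 => h.n22 ((dpair M X Y N).2 h1), (dpair M X Y N).1 h.s00, (dpair M X Y N).1 h.s12,
      (dpair M X Y N).1 h.s21, fun h1 => h.n10 ((dpair M X Y N).2 h1),
      fun h1 => h.n20 ((dpair M X Y N).2 h1)⟩
  · intro h
    exact ⟨fun c hc => h.le c ((dmem M X Y N).1 hc), (dmem M X Y N).2 h.m2,
      fun h1 => h.n22 ((dpair M X Y N).1 h1), (dpair M X Y N).2 h.s00, (dpair M X Y N).2 h.s12,
      (dpair M X Y N).2 h.s21, fun h1 => h.n10 ((dpair M X Y N).1 h1),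
      fun h1 => h.n20 ((dpair M X Y N).1 h1)⟩

/-- the words `x^b y t y` -/
def A0 (w : List ℕ) : Prop := ∃ b, 2 ≤ b ∧ w = Z b ++ [1, 2, 1]

/-- the type of `y` -/
def T0 (w : List ℕ) : Prop := w.filter (fun x => decide (x ≠ 0)) = [1, 2, 1]

theorem z_mem {b c : ℕ} (h : c ∈ Z b) : c = 0 := List.eq_of_mem_replicate h

theorem a0_bt {w : List ℕ} (h : A0 w) : B0 w ∧ T0 w := by
  obtain ⟨b, hb, rfl⟩ := h
  have hp : ∀ x y : ℕ, (x ≠ 0 ∨ y ≠ 0) → ([x, y] : List ℕ) ≠ [1, 2] → ([x, y] : List ℕ) ≠ [2, 1] →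
      ([x, y] : List ℕ) ≠ [1, 1] → x ≠ 0 → ¬ List.Sublist [x, y] (Z b ++ [1, 2, 1]) := by
    intro x y _ h12 h21 h11 hx h
    rw [psub] at h
    apply h
    rw [List.pairwise_append]
    refine ⟨List.pairwise_replicate.2 (Or.inr (fun hh => hx hh.1.symm)), ?_, ?_⟩
    · simp only [List.pairwise_cons, List.mem_cons, List.not_mem_nil, or_false,
        List.Pairwise.nil, and_true, forall_eq_or_imp, forall_eq, IsEmpty.forall_iff,
        implies_true]
      refine ⟨⟨fun hh => h12 ?_, fun hh => h11 ?_⟩, fun hh => h21 ?_⟩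
      · rw [← hh.1, ← hh.2]
      · rw [← hh.1, ← hh.2]
      · rw [← hh.1, ← hh.2]
    · intro c hc d _ hh
      rw [z_mem hc] at hh
      exact hx hh.1.symm
  refine ⟨⟨?_, by simp, hp 2 2 (by decide) (by decide) (by decide) (by decide) (by decide),
    ?_, ?_, ?_, hp 1 0 (by decide) (by decide) (by decide) (by decide) (by decide),
    hp 2 0 (by decide) (by decide) (by decide) (by decide) (by decide)⟩, ?_⟩
  · intro c hc
    rcases List.mem_append.1 hc with h1 | h1
    · rw [z_mem h1]
      omega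
    · simp only [List.mem_cons, List.not_mem_nil, or_false] at h1
      omega
  · have h1 : List.Sublist (List.replicate 2 0) (Z b) := List.replicate_sublist_replicate 0 |>.2 hb
    exact h1.trans (List.sublist_append_left _ _)
  · exact (by decide : List.Sublist [1, 2] [1, 2, 1]).trans (List.sublist_append_right _ _)
  · exact (by decide : List.Sublist [2, 1] [1, 2, 1]).trans (List.sublist_append_right _ _)
  · unfold T0
    rw [List.filter_append, z_filter]
    rfl

theorem bt_a0 {w : List ℕ} (h : B0 w) (ht : T0 w) : A0 w := by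
  obtain ⟨i, w1, rfl, h1⟩ := peel ht
  obtain ⟨j, w2, rfl, h2⟩ := peel h1
  obtain ⟨k, w3, rfl, h3⟩ := peel h2
  obtain ⟨l, rfl⟩ := peel0 h3
  have hj : j = 0 := by
    by_contra hj
    apply h.n10
    have h4 : 0 ∈ Z j := List.mem_replicate.2 ⟨hj, rfl⟩
    exact ((List.Sublist.cons_cons 1 ((List.singleton_sublist.2 h4).trans
      (List.sublist_append_left _ _)))).trans (List.sublist_append_right _ _)
  have hk : k = 0 := by
    by_contra hk
    apply h.n20
    have h4 : 0 ∈ Z k := List.mem_replicate.2 ⟨hk, rfl⟩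
    exact (((List.Sublist.cons_cons 2 ((List.singleton_sublist.2 h4).trans
      (List.sublist_append_left _ _))).trans (List.sublist_append_right _ _)).cons _).trans
        (List.sublist_append_right _ _)
  have hl : l = 0 := by
    by_contra hl
    apply h.n10
    have h4 : 0 ∈ Z l := List.mem_replicate.2 ⟨hl, rfl⟩
    refine (List.Sublist.cons_cons 1 (List.singleton_sublist.2 ?_)).trans
      (List.sublist_append_right _ _)
    simp [h4]
  subst hj hk hl
  refine ⟨i, ?_, rfl⟩
  have h5 := h.s00.count_le 0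
  simp at h5
  exact h5

/-! ### `β` keeps the words -/

theorem cont (H : Iso3 β) {w w' : List ℕ} (h : RR β w w') {c : ℕ} (hc : c ∈ w') : c ∈ w := by
  by_contra hn
  have h1 := h.filter (fun x => decide (x = c))
  rw [Helper79_MWD.count_filter_decide, Helper79_MWD.count_filter_decide,
    List.count_eq_zero.2 hn] at h1
  have h2 := iso_nil H h1
  have h3 : w'.count c = 0 := by
    have := congrArg List.length h2
    simpa using this
  exact List.count_eq_zero.1 h3 hc

theorem mem01 {w : List ℕ} {c : ℕ} (h : c ∈ w.filter (fun x => decide (x = 0 ∨ x = 1))) :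
    c = 0 ∨ c = 1 := by
  have := (List.mem_filter.1 h).2
  simpa using this

theorem sub_head {a c : ℕ} (h : List.Sublist [1, 2] (List.replicate a 1 ++ 2 :: List.replicate c 1)) :
    1 ≤ a := by
  by_contra h0
  have ha : a = 0 := by omega
  subst ha
  have h1 : List.Sublist [1, 2] (2 :: List.replicate c 1) := h
  cases h1 with
  | cons _ h2 =>
    have h3 : (2 : ℕ) ∈ List.replicate c 1 := h2.subset (by simp)
    have := List.eq_of_mem_replicate h3
    omega

theorem sub_tail {a c : ℕ} (h : List.Sublist [2, 1] (List.replicate a 1 ++ 2 :: List.replicate c 1)) :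
    1 ≤ c := by
  have h1 := h.reverse
  simp only [List.reverse_append, List.reverse_cons, List.reverse_replicate, List.reverse_nil,
    List.nil_append, List.append_assoc, List.cons_append] at h1
  exact sub_head h1

theorem keepB0 (H : LL n β) (hR : ¬ RR β [0, 0, 1, 1] [1, 1, 0, 0]) {w w' : List ℕ}
    (h : RR β w w') (hw : B0 w) : B0 w' := by
  have n12 : (1 : ℕ) ≠ 2 := by decide
  have n02 : (0 : ℕ) ≠ 2 := by decide
  have n01 : (0 : ℕ) ≠ 1 := by decide
  have cw : w.count 2 = 1 := by
    have h1 : 1 ≤ w.count 2 := List.one_le_count_iff.2 hw.m2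
    by_contra hne
    have h2 : 2 ≤ w.count 2 := by omega
    exact hw.n22 (List.replicate_sublist_iff.2 h2)
  have cw' : w'.count 2 = 1 := Helper79_MWD.count_lin H.iso h cw
  have c0 : 2 ≤ w.count 0 := List.replicate_sublist_iff.1 hw.s00
  have hz0 := h.filter (fun x => decide (x = 0))
  rw [Helper79_MWD.count_filter_decide, Helper79_MWD.count_filter_decide] at hz0
  have c0' : 2 ≤ w'.count 0 := lin0 H.iso hz0 c0
  have hz1 := h.filter (fun x => decide (x = 1))
  rw [Helper79_MWD.count_filter_decide, Helper79_MWD.count_filter_decide] at hz1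
  have hz1' : RR β (Z (w.count 1)) (Z (w'.count 1)) := by
    have h1 := Helper61_MWD.ren' sw hz1
    rw [List.map_replicate, List.map_replicate, sw1] at h1
    exact h1
  have h01 := h.filter (fun x => decide (x = 0 ∨ x = 1))
  have hs01 : w.filter (fun x => decide (x = 0 ∨ x = 1)) =
      Z (w.count 0) ++ List.replicate (w.count 1) 1 := by
    have h1 := sorted_of n01 (w.filter (fun x => decide (x = 0 ∨ x = 1)))
      (fun c hc => mem01 hc) (fun h2 => hw.n10 (h2.trans List.filter_sublist))
    rw [List.count_filter (by decide), List.count_filter (by decide)] at h1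
    exact h1
  rw [hs01] at h01
  have hle : ∀ c ∈ w', c ≤ 2 := fun c hc => hw.le c (cont H.iso h hc)
  have hs12 := hw.s12
  have hs21 := hw.s21
  have hn20 := hw.n20
  have h12 := h.filter (fun x => decide (x = 1 ∨ x = 2))
  have h02 := h.filter (fun x => decide (x = 0 ∨ x = 2))
  -- the two sides of the letter `2`
  have key : ∀ v : List ℕ, v.count 2 = 1 → ∃ U W : List ℕ, v = U ++ 2 :: W ∧
      v.filter (fun x => decide (x = 1 ∨ x = 2)) =
        List.replicate (U.count 1) 1 ++ 2 :: List.replicate (W.count 1) 1 ∧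
      v.filter (fun x => decide (x = 0 ∨ x = 2)) = Z (U.count 0) ++ 2 :: Z (W.count 0) ∧
      v.count 1 = U.count 1 + W.count 1 ∧ v.count 0 = U.count 0 + W.count 0 := by
    intro v hv
    obtain ⟨U, W, rfl, hU, hW⟩ := Helper79_MWD.split1 hv
    refine ⟨U, W, rfl, Helper79_MWD.filt2 n12 hU hW, Helper79_MWD.filt2 n02 hU hW, ?_, ?_⟩
    · rw [List.count_append, List.count_cons_of_ne (by decide)]
    · rw [List.count_append, List.count_cons_of_ne (by decide)]
  obtain ⟨U, W, e, e12, e02, k1, k0⟩ := key w cw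
  obtain ⟨U', W', e', e12', e02', k1', k0'⟩ := key w' cw'
  rw [e12, e12'] at h12
  rw [e02, e02'] at h02
  have ha : 1 ≤ U.count 1 := by
    have h1 := hs12.filter (fun x => decide (x = 1 ∨ x = 2))
    rw [e12] at h1
    exact sub_head h1
  have hc : 1 ≤ W.count 1 := by
    have h1 := hs21.filter (fun x => decide (x = 1 ∨ x = 2))
    rw [e12] at h1
    exact sub_tail h1
  have hW0 : W.count 0 = 0 := by
    by_contra h0
    apply hn20
    rw [e]
    have h1 : 0 ∈ W := List.one_le_count_iff.1 (by omega)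
    exact (List.Sublist.cons_cons 2 (List.singleton_sublist.2 h1)).trans
      (List.sublist_append_right _ _)
  have c1 : 2 ≤ w.count 1 := by omega
  have c1' : 2 ≤ w'.count 1 := lin0 H.iso hz1' c1
  -- substitutions for `2`
  have sub2 : ∀ (T : List ℕ) (x i j i' j' : ℕ), x ≠ 2 →
      RR β (List.replicate i x ++ 2 :: List.replicate j x)
        (List.replicate i' x ++ 2 :: List.replicate j' x) →
      RR β (List.replicate i x ++ (T ++ List.replicate j x))
        (List.replicate i' x ++ (T ++ List.replicate j' x)) := by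
    intro T x i j i' j' hx h1
    have h2 := RR.sub (fun c => if c = 2 then T else [c]) h1
    have e3 : ∀ m : ℕ, (List.replicate m x).flatMap (fun c => if c = 2 then T else [c]) =
        List.replicate m x := by
      intro m
      induction m with
      | zero => rfl
      | succ m ih =>
        rw [List.replicate_succ, List.flatMap_cons, ih, if_neg hx]
        rfl
    rw [List.flatMap_append, List.flatMap_append, List.flatMap_cons, List.flatMap_cons, e3, e3,
      e3, e3, if_pos rfl] at h2
    exact h2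
  have r1 : ∀ {m : ℕ} {x : ℕ}, 1 ≤ m → List.Sublist [x] (List.replicate m x) := fun {m x} hm =>
    List.singleton_sublist.2 (List.mem_replicate.2 ⟨by omega, rfl⟩)
  have mm : ∀ {i j x y : ℕ} {c : ℕ}, (x = 0 ∧ y = 1 ∨ x = 1 ∧ y = 0) →
      c ∈ List.replicate i x ++ ([y, y] ++ List.replicate j x) → c = 0 ∨ c = 1 := by
    intro i j x y c hxy hcm
    rcases List.mem_append.1 hcm with h1 | h1
    · have := List.eq_of_mem_replicate h1
      omega
    · rcases List.mem_append.1 h1 with h2 | h2
      · simp only [List.mem_cons, List.not_mem_nil, or_false] at h2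
        omega
      · have := List.eq_of_mem_replicate h2
        omega
  have ha' : 1 ≤ U'.count 1 := by
    by_contra h0
    have h0' : U'.count 1 = 0 := by omega
    rw [h0'] at h12 k1'
    have h1 := sub2 [0, 0] 1 _ _ 0 _ (by decide) h12
    apply hR
    refine rs H (b := 2) (m := W'.count 1) (le_refl 2) (by omega)
      (fun c hcm => mm (Or.inr ⟨rfl, rfl⟩) hcm) ?_ ?_ h1.symm
    · exact (r1 ha).append ((by decide : List.Sublist [0] [0, 0]).trans
        (List.sublist_append_left _ _))
    · exact (((by decide : List.Sublist [0] [0, 0]).append (r1 hc))).trans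
        (List.sublist_append_right _ _)
  have hc' : 1 ≤ W'.count 1 := by
    by_contra h0
    have h0' : W'.count 1 = 0 := by omega
    rw [h0'] at h12 k1'
    have h1 := sub2 [0, 0] 1 _ _ _ 0 (by decide) h12
    have h2 := Helper61_MWD.ren' sw h1
    simp only [List.map_append, List.map_replicate, List.map_cons, List.map_nil, sw0, sw1,
      List.replicate_zero, List.append_nil] at h2
    apply hR
    refine rs H (b := U'.count 1) (m := 2) (by omega) (le_refl 2)
      (fun c hcm => mm (Or.inl ⟨rfl, rfl⟩) hcm) ?_ ?_ h2.symm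
    · exact (((by decide : List.Sublist [1] [1, 1]).append (r1 hc))).trans
        (List.sublist_append_right _ _)
    · exact (r1 ha).append ((by decide : List.Sublist [1] [1, 1]).trans
        (List.sublist_append_left _ _))
  have hW0' : W'.count 0 = 0 := by
    by_contra h0
    rw [hW0] at h02 k0
    have h1 := sub2 [1, 1] 0 _ 0 _ _ (by decide) h02
    simp only [List.replicate_zero, List.append_nil] at h1
    apply hR
    rcases Nat.eq_zero_or_pos (U'.count 0) with h3 | h3
    · rw [h3] at h1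
      exact rrv H (b := U.count 0) (m := 2) (p := 2) (q := W'.count 0) (by omega) (le_refl 2)
        (by omega) (by omega) h1
    · refine rs H (b := U.count 0) (m := 2) (by omega) (le_refl 2)
        (fun c hcm => mm (Or.inl ⟨rfl, rfl⟩) hcm) ?_ ?_ h1
      · exact (((by decide : List.Sublist [1] [1, 1]).append (r1 (by omega)))).trans
          (List.sublist_append_right _ _)
      · exact (r1 h3).append ((by decide : List.Sublist [1] [1, 1]).trans
          (List.sublist_append_left _ _))
  have hn10' : ¬ List.Sublist [1, 0] w' := by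
    intro h1
    have h2 := h1.filter (fun x => decide (x = 0 ∨ x = 1))
    have h2' : List.Sublist [1, 0] (w'.filter (fun x => decide (x = 0 ∨ x = 1))) := h2
    apply hR
    by_cases h3 : List.Sublist [0, 1] (w'.filter (fun x => decide (x = 0 ∨ x = 1)))
    · exact rs H c0 c1 (fun c hc => mem01 hc) h2' h3 h01
    · have h4 := sorted_of n01.symm (w'.filter (fun x => decide (x = 0 ∨ x = 1)))
        (fun c hc => (mem01 hc).symm) h3
      rw [List.count_filter (by decide), List.count_filter (by decide)] at h4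
      rw [h4] at h01
      exact rrv H c0 c1 (by omega) (by omega) h01
  refine ⟨hle, by rw [e']; simp, ?_, List.replicate_sublist_iff.2 c0', ?_, ?_, hn10', ?_⟩
  · intro h1
    have h2 : List.Sublist (List.replicate 2 2) w' := h1
    have := List.replicate_sublist_iff.1 h2
    omega
  · rw [e']
    exact (List.singleton_sublist.2 (List.one_le_count_iff.1 ha')).append
      (List.singleton_sublist.2 (by simp))
  · rw [e']
    exact (List.Sublist.cons_cons 2 (List.singleton_sublist.2
      (List.one_le_count_iff.1 hc'))).trans (List.sublist_append_right _ _)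
  · intro h1
    have h2 := h1.filter (fun x => decide (x = 0 ∨ x = 2))
    rw [e02', hW0'] at h2
    have h3 := h2.reverse
    simp only [List.replicate_zero, List.reverse_append, List.reverse_cons, List.reverse_nil,
      List.nil_append, List.cons_append, List.reverse_replicate] at h3
    have h4 : List.Sublist [0, 2] (2 :: Z (U'.count 0)) := h3
    cases h4 with
    | cons _ h5 =>
      have h6 : (2 : ℕ) ∈ Z (U'.count 0) := h5.subset (by simp)
      have := z_mem h6
      omega

/-! ### the pentagon -/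

theorem twice {M g R : List ℕ} (h : M ++ (g ++ (g ++ R)) = [1, 2, 1]) : g = [] := by
  rcases g with _ | ⟨c, g⟩
  · rfl
  · exfalso
    have hl := congrArg List.length h
    simp only [List.length_append, List.length_cons, List.length_nil] at hl
    have hg : g = [] := List.length_eq_zero_iff.1 (by omega)
    subst hg
    rcases M with _ | ⟨m, M⟩
    · simp only [List.nil_append, List.cons_append, List.cons.injEq] at h
      omega
    · rcases M with _ | ⟨m', M⟩
      · simp only [List.nil_append, List.cons_append, List.cons.injEq] at h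
        omega
      · simp only [List.length_cons] at hl
        omega

theorem t0_nil {g : List ℕ} (h : g.filter (fun x => decide (x ≠ 0)) = []) : ∃ i, g = Z i :=
  peel0 h

/-- the letters of a word of `T0` -/
theorem t0_count {w : List ℕ} (h : T0 w) {c : ℕ} (hc : c ≠ 0) : w.count c ≤ 2 := by
  have h1 : (w.filter (fun x => decide (x ≠ 0))).count c = w.count c :=
    List.count_filter (by simpa using hc)
  rw [h] at h1
  rw [← h1]
  by_cases h2 : c = 1
  · subst h2; decide
  · by_cases h3 : c = 2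
    · subst h3; decide
    · have : ([1, 2, 1] : List ℕ).count c = 0 := by
        rw [List.count_eq_zero]
        simp only [List.mem_cons, List.not_mem_nil, or_false]
        omega
      omega

/-- a factor which occurs three times contains only `0` -/
theorem thrice {w X : List ℕ} (h : T0 w) (h3 : ∀ c, 3 * X.count c ≤ w.count c) :
    ∃ i, X = Z i := by
  refine ⟨X.length, List.eq_replicate_of_mem ?_⟩
  intro c hc
  by_contra h0
  have h1 := t0_count h h0
  have h2 : 1 ≤ X.count c := List.one_le_count_iff.2 hc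
  have := h3 c
  omega

/-- `x²y²ty² ≈ y²x²ty²` acts trivially on the words of `T0` -/
theorem act14 (φ : ℕ → List ℕ) (M N : List ℕ)
    (h : T0 (M ++ (([0, 0, 1, 1, 2, 1, 1] : List ℕ).flatMap φ ++ N)) ∨
      T0 (M ++ (([1, 1, 0, 0, 2, 1, 1] : List ℕ).flatMap φ ++ N))) :
    ([0, 0, 1, 1, 2, 1, 1] : List ℕ).flatMap φ = ([1, 1, 0, 0, 2, 1, 1] : List ℕ).flatMap φ := by
  have e1 : ([0, 0, 1, 1, 2, 1, 1] : List ℕ).flatMap φ =
      φ 0 ++ (φ 0 ++ (φ 1 ++ (φ 1 ++ (φ 2 ++ (φ 1 ++ φ 1))))) := by simp
  have e2 : ([1, 1, 0, 0, 2, 1, 1] : List ℕ).flatMap φ =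
      φ 1 ++ (φ 1 ++ (φ 0 ++ (φ 0 ++ (φ 2 ++ (φ 1 ++ φ 1))))) := by simp
  have h1 : ∃ i, φ 1 = Z i := by
    rcases h with h | h
    · apply thrice h
      intro c
      rw [e1]
      simp only [List.count_append]
      omega
    · apply thrice h
      intro c
      rw [e2]
      simp only [List.count_append]
      omega
  have h0 : ∃ i, φ 0 = Z i := by
    rcases h with h | h
    · unfold T0 at h
      rw [e1] at h
      simp only [List.filter_append, List.append_assoc] at h
      exact t0_nil (twice h)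
    · unfold T0 at h
      rw [e2] at h
      simp only [List.filter_append, List.append_assoc] at h
      rw [← List.append_assoc, ← List.append_assoc] at h
      exact t0_nil (twice h)
  obtain ⟨i, hi⟩ := h1
  obtain ⟨j, hj⟩ := h0
  rw [e1, e2, hi, hj]
  have e3 : ∀ a b : ℕ, ∀ R : List ℕ, Z a ++ (Z a ++ (Z b ++ (Z b ++ R))) =
      Z (a + a + b + b) ++ R := by
    intro a b R
    rw [z_add, z_add, z_add]
    simp only [List.append_assoc]
  rw [e3, e3]
  have e4 : j + j + i + i = i + i + j + j := by omega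
  rw [e4]

/-- `x²yty ≈ yx²ty` keeps `T0` -/
theorem act23 (φ : ℕ → List ℕ) (M N : List ℕ) :
    T0 (M ++ (([0, 0, 1, 2, 1] : List ℕ).flatMap φ ++ N)) ↔
      T0 (M ++ (([1, 0, 0, 2, 1] : List ℕ).flatMap φ ++ N)) := by
  have e1 : ([0, 0, 1, 2, 1] : List ℕ).flatMap φ = φ 0 ++ (φ 0 ++ (φ 1 ++ (φ 2 ++ φ 1))) := by
    simp
  have e2 : ([1, 0, 0, 2, 1] : List ℕ).flatMap φ = φ 1 ++ (φ 0 ++ (φ 0 ++ (φ 2 ++ φ 1))) := by
    simp
  rw [e1, e2]
  unfold T0
  simp only [List.filter_append, List.append_assoc]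
  constructor
  · intro h
    have h0 := twice h
    rw [h0] at h ⊢
    simpa only [List.nil_append] using h
  · intro h
    have h0 : (φ 0).filter (fun x => decide (x ≠ 0)) = [] := by
      rw [← List.append_assoc] at h
      exact twice h
    rw [h0] at h ⊢
    simpa only [List.nil_append] using h

/-- **`x²y² ≈ y²x²`** -/
theorem r0_all (H : LL n β) : RR β [0, 0, 1, 1] [1, 1, 0, 0] := by
  by_contra hR
  let E14 : List ℕ × List ℕ := ([0, 0, 1, 1, 2, 1, 1], [1, 1, 0, 0, 2, 1, 1])
  let D0 : List ℕ × List ℕ := ([1, 2, 1], [1, 1, 2, 1, 1])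
  let E23 : List ℕ × List ℕ := ([0, 0, 1, 2, 1], [1, 0, 0, 2, 1])
  obtain ⟨ρ, hρ, gρ, mρ, pρ⟩ := H32.gen β (fun e => e = E14)
  obtain ⟨σ, hσ, gσ, mσ, pσ⟩ := H32.gen β (fun e => e = D0)
  obtain ⟨τ, hτ, gτ, mτ, pτ⟩ := H32.gen β (fun e => e = E14 ∨ e = E23)
  have hle : ρ ≤ τ := mρ τ hτ (fun e he => gτ e (Or.inl he))
  have keepT : ∀ w w', RR β w w' → T0 w → T0 w' := by
    intro w w' h hw
    have h1 := h.filter (fun x => decide (x ≠ 0))
    unfold T0 at hw
    rw [hw] at h1
    exact iso_aba H.iso (by decide) h1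
  have kA : ∀ w w', RR ρ w w' → A0 w → A0 w' := by
    apply pρ
    · intro w w' h hw
      obtain ⟨h1, h2⟩ := a0_bt hw
      exact bt_a0 (keepB0 H hR h h1) (keepT _ _ h h2)
    · rintro e rfl φ M N
      constructor
      · intro h
        have h1 := act14 φ M N (Or.inl (a0_bt h).2)
        change A0 (M ++ (([1, 1, 0, 0, 2, 1, 1] : List ℕ).flatMap φ ++ N))
        rw [← h1]
        exact h
      · intro h
        have h1 := act14 φ M N (Or.inr (a0_bt h).2)
        change A0 (M ++ (([0, 0, 1, 1, 2, 1, 1] : List ℕ).flatMap φ ++ N))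
        rw [h1]
        exact h
  have kB : ∀ w w', RR σ w w' → B0 w → B0 w' := by
    apply pσ
    · intro w w' h hw
      exact keepB0 H hR h hw
    · rintro e rfl φ M N
      have e1 : ([1, 2, 1] : List ℕ).flatMap φ ++ N = φ 1 ++ (φ 2 ++ (φ 1 ++ N)) := by simp
      have e2 : ([1, 1, 2, 1, 1] : List ℕ).flatMap φ ++ N =
          φ 1 ++ (φ 1 ++ (φ 2 ++ (φ 1 ++ (φ 1 ++ N)))) := by simp
      change B0 (M ++ (([1, 2, 1] : List ℕ).flatMap φ ++ N)) ↔
        B0 (M ++ (([1, 1, 2, 1, 1] : List ℕ).flatMap φ ++ N))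
      rw [e1, e2]
      exact dB0 M (φ 1) (φ 2) N
  have kT : ∀ w w', RR τ w w' → T0 w → T0 w' := by
    apply pτ
    · exact keepT
    · rintro e (rfl | rfl) φ M N
      · constructor
        · intro h
          have h1 := act14 φ M N (Or.inl h)
          change T0 (M ++ (([1, 1, 0, 0, 2, 1, 1] : List ℕ).flatMap φ ++ N))
          rw [← h1]
          exact h
        · intro h
          have h1 := act14 φ M N (Or.inr h)
          change T0 (M ++ (([0, 0, 1, 1, 2, 1, 1] : List ℕ).flatMap φ ++ N))
          rw [h1]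
          exact h
      · exact act23 φ M N
  have hA0 : A0 [0, 0, 1, 2, 1] := ⟨2, le_refl 2, rfl⟩
  have hA1 : ¬ A0 [1, 0, 0, 2, 1] := by
    intro h
    exact (a0_bt h).1.n10 (by decide)
  refine H21.pen β H.md ρ σ τ _ _ _ hρ hσ hτ hle kA kB kT (fun w h => a0_bt h)
    (fun w h1 h2 => bt_a0 h1 h2) [0, 0, 1, 2, 1] [1, 0, 0, 2, 1] hA0 hA1
    (gτ E23 (Or.inr rfl)) ?_
  have hD : RR σ [1, 2, 1] [1, 1, 2, 1, 1] := gσ D0 rfl
  have s1 : RR σ [0, 0, 1, 2, 1] [0, 0, 1, 1, 2, 1, 1] := rr_left [0, 0] hD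
  have s2 : RR ρ [0, 0, 1, 1, 2, 1, 1] [1, 1, 0, 0, 2, 1, 1] := gρ E14 rfl
  have s3 : RR σ [1, 1, 0, 0, 2, 1, 1] [1, 0, 0, 2, 1] := by
    have h1 := hD.sub (fun x => if x = 1 then [1] else [0, 0, 2])
    exact h1.symm
  exact (FIC.sup ρ σ).trans ((FIC.le_sup_right _ _) _ _ s1)
    ((FIC.sup ρ σ).trans ((FIC.le_sup_left _ _) _ _ s2) ((FIC.le_sup_right _ _) _ _ s3))

end Pool.Agent.MWX
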