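import Pool.Agent.Helper61_MWD.Disp
import Pool.Agent.Helper57_MWX.HB
import Pool.Agent.Helper79_MWD.N2Q

/-!
# The words `x^i a x^j t x^k a x^l` (block MWX, base of the two letter theorem)

Letters: `x = 0`, `a = 1`, `t = 2`.
-/

set_option autoImplicit false

namespace Pool.Agent.MWX

open Pool.Agent.Helper14_MV Pool.Agent.Helper2_MV Pool.Agent.Helper79_MWD

variable {β : FIC}

/-- `x^i` -/
abbrev Z (i : ℕ) : List ℕ := List.replicate i 0

/-- `x^i a x^j t x^k a x^l` -/
def V (i j k l : ℕ) : List ℕ := Z i ++ 1 :: (Z j ++ 2 :: (Z k ++ 1 :: Z l))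

theorem z_sub {g : ℕ → List ℕ} (h : g 0 = [0]) (i : ℕ) : (Z i).flatMap g = Z i := by
  induction i with
  | zero => rfl
  | succ i ih =>
    have e : Z (i + 1) = 0 :: Z i := rfl
    rw [e, List.flatMap_cons, ih, h]
    rfl

theorem v_sub {g : ℕ → List ℕ} (h : g 0 = [0]) (i j k l : ℕ) :
    (V i j k l).flatMap g = Z i ++ (g 1 ++ (Z j ++ (g 2 ++ (Z k ++ (g 1 ++ Z l))))) := by
  unfold V
  rw [List.flatMap_append, List.flatMap_cons, List.flatMap_append, List.flatMap_cons,
    List.flatMap_append, List.flatMap_cons, z_sub h, z_sub h, z_sub h, z_sub h]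

/-- the substitution `0 ↦ x`, `1 ↦ A`, `2 ↦ T` -/
def g3 (A T : List ℕ) : ℕ → List ℕ := fun c => if c = 0 then [0] else if c = 1 then A else T

theorem rrv_sub (A T : List ℕ) {i j k l i' j' k' l' : ℕ} (h : RR β (V i j k l) (V i' j' k' l')) :
    RR β (Z i ++ (A ++ (Z j ++ (T ++ (Z k ++ (A ++ Z l))))))
      (Z i' ++ (A ++ (Z j' ++ (T ++ (Z k' ++ (A ++ Z l')))))) := by
  have h1 := RR.sub (g3 A T) h
  rw [v_sub (by rfl), v_sub (by rfl)] at h1
  exact h1

theorem rr_left (p : List ℕ) {u v : List ℕ} (h : RR β u v) : RR β (p ++ u) (p ++ v) :=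
  (RR.refl p).append h

theorem rr_right (q : List ℕ) {u v : List ℕ} (h : RR β u v) : RR β (u ++ q) (v ++ q) :=
  h.append (RR.refl q)

theorem z_add (i j : ℕ) : Z (i + j) = Z i ++ Z j := List.replicate_add ..

theorem v_left (p : ℕ) {i j k l i' j' k' l' : ℕ} (h : RR β (V i j k l) (V i' j' k' l')) :
    RR β (V (p + i) j k l) (V (p + i') j' k' l') := by
  have h1 := rr_left (Z p) h
  unfold V at h1 ⊢
  rw [z_add, z_add, List.append_assoc, List.append_assoc]
  exact h1

theorem v_right (p : ℕ) {i j k l i' j' k' l' : ℕ} (h : RR β (V i j k l) (V i' j' k' l')) :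
    RR β (V i j k (l + p)) (V i' j' k' (l' + p)) := by
  have h1 := rr_right (Z p) h
  unfold V at h1 ⊢
  rw [z_add, z_add]
  simpa only [List.append_assoc, List.cons_append] using h1

theorem v_mid (p q : ℕ) {i j k l i' j' k' l' : ℕ} (h : RR β (V i j k l) (V i' j' k' l')) :
    RR β (V i (j + p) (q + k) l) (V i' (j' + p) (q + k') l') := by
  have h1 := rrv_sub [1] (Z p ++ 2 :: Z q) h
  unfold V
  rw [z_add j p, z_add j' p, z_add q k, z_add q k']
  simpa only [List.append_assoc, List.cons_append, List.nil_append] using h1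

/-! ### isoterms -/

theorem lin0 (H : Iso3 β) {i j : ℕ} (h : RR β (Z i) (Z j)) (hi : 2 ≤ i) : 2 ≤ j := by
  rcases j with _ | _ | j
  · have := iso_nil H (RR.symm h)
    have := congrArg List.length this
    simp at this
    omega
  · have := lin H (RR.symm h)
    have := congrArg List.length this
    simp at this
    omega
  · omega

theorem z_filter (i : ℕ) : (Z i).filter (fun x => decide (x ≠ 0)) = [] := by
  rw [List.filter_eq_nil_iff]
  intro x hx
  rw [List.eq_of_mem_replicate hx]
  simp

theorem z_filter0 (i : ℕ) : (Z i).filter (fun x => decide (x = 0)) = Z i := by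
  rw [List.filter_eq_self]
  intro x hx
  rw [List.eq_of_mem_replicate hx]
  simp

theorem v_filter (i j k l : ℕ) : (V i j k l).filter (fun x => decide (x ≠ 0)) = [1, 2, 1] := by
  unfold V
  rw [List.filter_append, List.filter_cons_of_pos (by simp), List.filter_append,
    List.filter_cons_of_pos (by simp), List.filter_append, List.filter_cons_of_pos (by simp),
    z_filter, z_filter, z_filter, z_filter]
  rfl

theorem v_filter0 (i j k l : ℕ) :
    (V i j k l).filter (fun x => decide (x = 0)) = Z (i + (j + (k + l))) := by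
  unfold V
  rw [List.filter_append, List.filter_cons_of_neg (by simp), List.filter_append,
    List.filter_cons_of_neg (by simp), List.filter_append, List.filter_cons_of_neg (by simp),
    z_filter0, z_filter0, z_filter0, z_filter0, z_add, z_add, z_add]

/-- the total is at least two -/
theorem v_total (H : Iso3 β) {i j k l i' j' k' l' : ℕ} (h : RR β (V i j k l) (V i' j' k' l'))
    (h2 : 2 ≤ i + (j + (k + l))) : 2 ≤ i' + (j' + (k' + l')) := by
  have h1 := h.filter (fun x => decide (x = 0))
  rw [v_filter0, v_filter0] at h1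
  exact lin0 H h1 h2

/-- peeling off the first letter different from `0` -/
theorem peel {l : List ℕ} {c : ℕ} {cs : List ℕ}
    (h : l.filter (fun x => decide (x ≠ 0)) = c :: cs) :
    ∃ i l', l = Z i ++ c :: l' ∧ l'.filter (fun x => decide (x ≠ 0)) = cs := by
  induction l with
  | nil => simp at h
  | cons d l ih =>
    by_cases hd : d = 0
    · subst hd
      rw [List.filter_cons_of_neg (by simp)] at h
      obtain ⟨i, l', e1, e2⟩ := ih h
      exact ⟨i + 1, l', by rw [e1]; rfl, e2⟩
    · rw [List.filter_cons_of_pos (by simpa using hd)] at h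
      simp only [List.cons.injEq] at h
      exact ⟨0, l, by rw [h.1]; rfl, h.2⟩

theorem peel0 {l : List ℕ} (h : l.filter (fun x => decide (x ≠ 0)) = []) :
    ∃ i, l = Z i := by
  refine ⟨l.length, List.eq_replicate_of_mem ?_⟩
  intro a ha
  by_contra hne
  have : a ∈ l.filter (fun x => decide (x ≠ 0)) := by
    rw [List.mem_filter]
    exact ⟨ha, by simpa using hne⟩
  rw [h] at this
  simp at this

/-- `a b a c` is rigid -/
theorem rig4 (H : Iso3 β) {a b c : ℕ} (hab : a ≠ b) (hac : a ≠ c) (hbc : b ≠ c) {l : List ℕ}
    (h : RR β [a, b, a, c] l) : l = [a, b, a, c] := by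
  have hc : l.count c = 1 := by
    apply count_lin H h
    simp [hac, hbc]
  obtain ⟨U, W, rfl, hU, hW⟩ := split1 hc
  have f1 : ∀ L : List ℕ, c ∉ L → L.filter (fun x => decide (x ≠ c)) = L := by
    intro L hL
    rw [List.filter_eq_self]
    intro x hx
    have : x ≠ c := fun e => hL (e ▸ hx)
    simpa using this
  have h1 := h.filter (fun x => decide (x ≠ c))
  have e1 : [a, b, a, c].filter (fun x => decide (x ≠ c)) = [a, b, a] := by
    simp [hac, hbc]
  have e3 : (U ++ c :: W).filter (fun x => decide (x ≠ c)) = U ++ W := by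
    rw [List.filter_append, List.filter_cons_of_neg (by simp), f1 U hU, f1 W hW]
  rw [e1, e3] at h1
  have h2 := iso_aba H hab h1
  have hb : b ∉ W := by
    intro hb
    have h3 := h.filter (fun x => decide (x = b ∨ x = c))
    rw [filt2 hbc hU hW] at h3
    have e2 : [a, b, a, c].filter (fun x => decide (x = b ∨ x = c)) = [b, c] := by
      simp [hab, hac]
    rw [e2] at h3
    have h4 := iso_ab H hbc h3
    have h5 := congrArg (List.count b) h2
    rw [List.count_append] at h5
    have h6 : 1 ≤ W.count b := List.one_le_count_iff.2 hb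
    have h7 : [a, b, a].count b = 1 := by simp [hab]
    have h8 : U.count b = 0 := by omega
    rw [h8] at h4
    simp only [List.replicate_zero, List.nil_append, List.cons.injEq] at h4
    exact hbc h4.1.symm
  have ha : a ∉ W := by
    intro ha
    have h3 := h.filter (fun x => decide (x = a ∨ x = c))
    rw [filt2 hac hU hW] at h3
    have e2 : [a, b, a, c].filter (fun x => decide (x = a ∨ x = c)) = [a, a, c] := by
      simp [hac, hab.symm, hbc]
    rw [e2] at h3
    have h5 := congrArg (List.count a) h2
    rw [List.count_append] at h5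
    have h6 : 1 ≤ W.count a := List.one_le_count_iff.2 ha
    have h7 : [a, b, a].count a = 2 := by simp [hab.symm]
    rcases Nat.lt_or_ge (W.count a) 2 with h8 | h8
    · have h9 : W.count a = 1 := by omega
      have h10 : U.count a = 1 := by omega
      rw [h9, h10] at h3
      have h11 := iso_aba H hac (RR.symm h3)
      simp only [List.cons.injEq] at h11
      exact hac h11.2.1
    · have h10 : U.count a = 0 := by omega
      have h12 : b ∈ U := by
        have h13 : b ∈ U ++ W := by rw [h2]; simp
        rcases List.mem_append.1 h13 with h14 | h14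
        · exact h14
        · exact absurd h14 hb
      obtain ⟨U1, U2, rfl⟩ := List.append_of_mem h12
      rcases U1 with _ | ⟨u, U1⟩
      · simp only [List.nil_append, List.cons_append, List.cons.injEq] at h2
        exact hab h2.1.symm
      · simp only [List.cons_append, List.cons.injEq] at h2
        rw [h2.1] at h10
        simp at h10
  have hW0 : W = [] := by
    rw [List.eq_nil_iff_forall_not_mem]
    intro x hx
    have : x ∈ U ++ W := List.mem_append.2 (Or.inr hx)
    rw [h2] at this
    simp only [List.mem_cons, List.not_mem_nil, or_false] at this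
    rcases this with h3 | h3 | h3
    · exact ha (h3 ▸ hx)
    · exact hb (h3 ▸ hx)
    · exact ha (h3 ▸ hx)
  rw [hW0, List.append_nil] at h2
  rw [hW0, h2]
  rfl

/-- a rigid word followed by a simple letter -/
theorem rig_snoc (H : Iso3 β) {w : List ℕ} {b c : ℕ} (hb : b ∉ w) (hc : c ∉ w) (hbc : b ≠ c)
    (hr : ∀ l, RR β (w ++ [b]) l → l = w ++ [b]) {l : List ℕ} (h : RR β (w ++ [b, c]) l) :
    l = w ++ [b, c] := by
  have hc1 : l.count c = 1 := by
    apply count_lin H h
    rw [List.count_append, List.count_eq_zero.2 hc]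
    simp [hbc]
  obtain ⟨U, W, rfl, hU, hW⟩ := split1 hc1
  have f1 : ∀ L : List ℕ, c ∉ L → L.filter (fun x => decide (x ≠ c)) = L := by
    intro L hL
    rw [List.filter_eq_self]
    intro x hx
    have : x ≠ c := fun e => hL (e ▸ hx)
    simpa using this
  have h1 := h.filter (fun x => decide (x ≠ c))
  have e1 : (w ++ [b, c]).filter (fun x => decide (x ≠ c)) = w ++ [b] := by
    rw [List.filter_append, f1 w hc]
    simp [hbc]
  have e3 : (U ++ c :: W).filter (fun x => decide (x ≠ c)) = U ++ W := by
    rw [List.filter_append, List.filter_cons_of_neg (by simp), f1 U hU, f1 W hW]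
  rw [e1, e3] at h1
  have h2 := hr _ h1
  rcases List.eq_nil_or_concat W with h3 | ⟨W', d, h3⟩
  · rw [h3, List.append_nil] at h2
    rw [h3, h2]
    simp
  · exfalso
    rw [List.concat_eq_append] at h3
    rw [h3, ← List.append_assoc] at h2
    obtain ⟨h4, h5⟩ := List.append_inj' h2 rfl
    simp only [List.cons.injEq, and_true] at h5
    have h6 := h.filter (fun x => decide (x = b ∨ x = c))
    rw [filt2 hbc hU hW] at h6
    have e2 : (w ++ [b, c]).filter (fun x => decide (x = b ∨ x = c)) = [b, c] := by
      rw [List.filter_append]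
      have : w.filter (fun x => decide (x = b ∨ x = c)) = [] := by
        rw [List.filter_eq_nil_iff]
        intro x hx
        have h7 : x ≠ b := fun e => hb (e ▸ hx)
        have h8 : x ≠ c := fun e => hc (e ▸ hx)
        simp [h7, h8]
      rw [this]
      simp
    rw [e2] at h6
    have h9 := iso_ab H hbc h6
    have h10 : U.count b = 0 := by
      rw [List.count_eq_zero]
      intro hbU
      exact hb (by rw [← h4]; exact List.mem_append.2 (Or.inl hbU))
    rw [h10] at h9
    simp only [List.replicate_zero, List.nil_append, List.cons.injEq] at h9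
    exact hbc h9.1.symm

end Pool.Agent.MWX
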